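import Mathlib

/-!
# Closed affine manifolds from finite gluing data, and incomplete closed geodesics

A finite family of open sets `U i` of `ℝⁿ`, glued by finite sets `Φ i j` of unimodular affine maps
on the full overlaps `U i ∩ φ⁻¹ (U j)`, covered by compact pieces `K i ⊆ U i`, is a compact
Hausdorff manifold with an affine unimodular atlas.  A straight path which returns to its starting
point with a larger velocity contradicts completeness.
-/

set_option autoImplicit false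

open Set Topology Filter

namespace Pool.Agent.MkC

/-- the model space -/
abbrev E (n : ℕ) := EuclideanSpace ℝ (Fin n)

/-- gluing data -/
structure Glue (n : ℕ) where
  I : Type
  finI : Finite I
  U : I → Set (E n)
  Φ : I → I → Set (E n ≃ᵃ[ℝ] E n)
  U_open : ∀ i, IsOpen (U i)
  U_ne : ∀ i, (U i).Nonempty
  Φ_fin : ∀ i j, (Φ i j).Finite
  Φ_det : ∀ i j, ∀ φ ∈ Φ i j, LinearMap.det (φ.linear : E n →ₗ[ℝ] E n) = 1
  Φ_refl : ∀ i, AffineEquiv.refl ℝ (E n) ∈ Φ i i
  Φ_symm : ∀ i j, ∀ φ ∈ Φ i j, φ.symm ∈ Φ j i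
  Φ_trans : ∀ i j k, ∀ φ ∈ Φ i j, ∀ ψ ∈ Φ j k, ∀ x ∈ U i, φ x ∈ U j → ψ (φ x) ∈ U k →
    φ.trans ψ ∈ Φ i k
  Φ_inj : ∀ i, ∀ φ ∈ Φ i i, ∀ x ∈ U i, φ x ∈ U i → φ x = x
  K : I → Set (E n)
  K_comp : ∀ i, IsCompact (K i)
  K_sub : ∀ i, K i ⊆ U i
  K_cover : ∀ i, ∀ x ∈ U i, ∃ j, ∃ φ ∈ Φ i j, φ x ∈ K j

namespace Glue

variable {n : ℕ} (D : Glue n)

/-- the disjoint union of the pieces -/
abbrev X : Type := Σ i : D.I, D.U i

/-- the gluing relation -/
def rel (p q : D.X) : Prop := ∃ φ ∈ D.Φ p.1 q.1, φ (p.2 : E n) = q.2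

theorem rel_refl (p : D.X) : D.rel p p := ⟨_, D.Φ_refl p.1, rfl⟩

theorem rel_symm {p q : D.X} (h : D.rel p q) : D.rel q p := by
  obtain ⟨φ, hφ, h⟩ := h
  exact ⟨φ.symm, D.Φ_symm _ _ φ hφ, by rw [← h, AffineEquiv.symm_apply_apply]⟩

theorem rel_trans {p q r : D.X} (h : D.rel p q) (h' : D.rel q r) : D.rel p r := by
  obtain ⟨φ, hφ, h⟩ := h
  obtain ⟨ψ, hψ, h'⟩ := h'
  refine ⟨φ.trans ψ, D.Φ_trans _ _ _ φ hφ ψ hψ p.2 p.2.2 (by rw [h]; exact q.2.2) ?_, ?_⟩
  · rw [h, h']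
    exact r.2.2
  · rw [AffineEquiv.trans_apply, h, h']

/-- the setoid -/
def st : Setoid D.X := ⟨D.rel, D.rel_refl, D.rel_symm, D.rel_trans⟩

/-- the glued space -/
def M : Type := Quotient D.st

instance : TopologicalSpace D.M := inferInstanceAs (TopologicalSpace (Quotient D.st))

/-- the projection -/
def pr (p : D.X) : D.M := Quotient.mk D.st p

theorem pr_eq {p q : D.X} : D.pr p = D.pr q ↔ D.rel p q := Quotient.eq (r := D.st)

theorem pr_surj : Function.Surjective D.pr := Quotient.mk_surjective (s := D.st)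

theorem continuous_pr : Continuous D.pr := continuous_quotient_mk' (s := D.st)

theorem isOpen_iff {s : Set D.M} : IsOpen s ↔ IsOpen (D.pr ⁻¹' s) := Iff.rfl

theorem isOpenMap_pr : IsOpenMap D.pr := by
  intro V hV
  rw [isOpen_iff, isOpen_sigma_iff]
  intro j
  rw [isOpen_iff_mem_nhds]
  intro y hy
  obtain ⟨⟨i, x⟩, hxV, hxy⟩ := hy
  obtain ⟨φ, hφ, hxy⟩ := D.pr_eq.1 hxy
  -- the part of `V` in the piece `i`
  have hV0 : IsOpen ((fun x : D.U i => (⟨i, x⟩ : D.X)) ⁻¹' V) := isOpen_sigma_iff.1 hV i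
  have hVi : IsOpen ((Subtype.val : D.U i → E n) '' ((fun x : D.U i => (⟨i, x⟩ : D.X)) ⁻¹' V)) :=
    (D.U_open i).isOpenMap_subtype_val _ hV0
  have hcont : Continuous fun y : D.U j => φ.symm (y : E n) :=
    φ.symm.toContinuousAffineEquiv.continuous.comp continuous_subtype_val
  have hmem : φ.symm (y : E n) ∈
      (Subtype.val : D.U i → E n) '' ((fun x : D.U i => (⟨i, x⟩ : D.X)) ⁻¹' V) := by
    refine ⟨x, hxV, ?_⟩
    have h1 : φ (x : E n) = (y : E n) := hxy
    rw [← h1, AffineEquiv.symm_apply_apply]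
  filter_upwards [(hVi.preimage hcont).mem_nhds hmem] with y' hy'
  obtain ⟨x', hx'V, hx'⟩ := hy'
  refine ⟨⟨i, x'⟩, hx'V, D.pr_eq.2 ⟨φ, hφ, ?_⟩⟩
  change φ (x' : E n) = (y' : E n)
  have h2 : (x' : E n) = φ.symm (y' : E n) := hx'
  rw [h2, AffineEquiv.apply_symm_apply]

theorem isOpenQuotientMap_pr : IsOpenQuotientMap D.pr :=
  ⟨D.pr_surj, D.continuous_pr, D.isOpenMap_pr⟩

instance : T2Space D.M := by
  rw [t2Space_iff_of_isOpenQuotientMap D.isOpenQuotientMap_pr, ← isOpen_compl_iff,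
    isOpen_iff_mem_nhds]
  rintro ⟨⟨i, x⟩, ⟨j, y⟩⟩ h
  have h0 : ∀ φ ∈ D.Φ i j, φ (x : E n) ≠ (y : E n) := by
    intro φ hφ h1
    exact h (D.pr_eq.2 ⟨φ, hφ, h1⟩)
  have h1 : ∀ᶠ q : D.U i × D.U j in 𝓝 (x, y), ∀ φ ∈ D.Φ i j, φ (q.1 : E n) ≠ (q.2 : E n) := by
    rw [Filter.eventually_all_finite (D.Φ_fin i j)]
    intro φ hφ
    have hc : Continuous fun q : D.U i × D.U j => (φ (q.1 : E n), (q.2 : E n)) :=
      (φ.toContinuousAffineEquiv.continuous.comp (continuous_subtype_val.comp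
        continuous_fst)).prodMk (continuous_subtype_val.comp continuous_snd)
    exact (isOpen_ne_fun (hc.fst) (hc.snd)).mem_nhds (h0 φ hφ)
  rw [nhds_prod_eq, Sigma.nhds_mk, Sigma.nhds_mk, Filter.prod_map_map_eq, Filter.mem_map,
    ← nhds_prod_eq]
  filter_upwards [h1] with q hq hq'
  obtain ⟨φ, hφ, h2⟩ := D.pr_eq.1 hq'
  exact hq φ hφ h2

/-- the inclusion of a piece -/
def f (i : D.I) (x : D.U i) : D.M := D.pr ⟨i, x⟩

theorem f_injective (i : D.I) : Function.Injective (D.f i) := by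
  intro x y h
  obtain ⟨φ, hφ, h1⟩ := D.pr_eq.1 h
  have h2 := D.Φ_inj i φ hφ x x.2 (by
    have : φ (x : E n) = (y : E n) := h1
    rw [this]; exact y.2)
  exact Subtype.ext (h2.symm.trans h1)

theorem isOpenEmbedding_f (i : D.I) : IsOpenEmbedding (D.f i) :=
  IsOpenEmbedding.of_continuous_injective_isOpenMap (D.continuous_pr.comp continuous_sigmaMk)
    (D.f_injective i) (D.isOpenMap_pr.comp isOpenMap_sigmaMk)

instance (i : D.I) : Nonempty (D.U i) := (D.U_ne i).to_subtype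

instance : CompactSpace D.M := by
  refine ⟨?_⟩
  have := D.finI
  have h1 : ∀ i, IsCompact {x : D.U i | (x : E n) ∈ D.K i} := by
    intro i
    rw [Subtype.isCompact_iff]
    convert D.K_comp i
    ext y
    constructor
    · rintro ⟨x, hx, rfl⟩
      exact hx
    · intro hy
      exact ⟨⟨y, D.K_sub i hy⟩, hy, rfl⟩
  have h2 : IsCompact (⋃ i, D.f i '' {x : D.U i | (x : E n) ∈ D.K i}) :=
    isCompact_iUnion fun i => (h1 i).image (D.isOpenEmbedding_f i).continuous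
  convert h2
  refine (eq_univ_of_forall fun m => ?_).symm
  obtain ⟨⟨i, x⟩, rfl⟩ := D.pr_surj m
  obtain ⟨j, φ, hφ, h3⟩ := D.K_cover i x x.2
  rw [mem_iUnion]
  exact ⟨j, ⟨φ x, D.K_sub j h3⟩, h3, D.pr_eq.2 (D.rel_symm ⟨φ, hφ, rfl⟩)⟩

/-- the chart of a piece -/
noncomputable def chart (i : D.I) : OpenPartialHomeomorph D.M (E n) :=
  ((D.isOpenEmbedding_f i).toOpenPartialHomeomorph _).symm.trans
    ((D.U_open i).isOpenEmbedding_subtypeVal.toOpenPartialHomeomorph _)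

theorem chart_source (i : D.I) : (D.chart i).source = range (D.f i) := by
  simp [chart]

theorem chart_target (i : D.I) : (D.chart i).target = D.U i := by
  simp [chart]

theorem chart_f (i : D.I) (x : D.U i) : D.chart i (D.f i x) = x := by
  simp only [chart, OpenPartialHomeomorph.coe_trans, Function.comp_apply,
    IsOpenEmbedding.toOpenPartialHomeomorph_left_inv, IsOpenEmbedding.toOpenPartialHomeomorph_apply]

theorem chart_symm (i : D.I) {y : E n} (hy : y ∈ D.U i) : (D.chart i).symm y = D.f i ⟨y, hy⟩ := by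
  have h1 : D.chart i (D.f i ⟨y, hy⟩) = y := D.chart_f i ⟨y, hy⟩
  conv_lhs => rw [← h1]
  exact (D.chart i).left_inv (by rw [chart_source]; exact mem_range_self _)

/-- the manifold structure -/
noncomputable instance : ChartedSpace (E n) D.M where
  atlas := range D.chart
  chartAt m := D.chart (Quotient.out (s := D.st) m).1
  mem_chart_source m := by
    rw [chart_source]
    refine ⟨(Quotient.out (s := D.st) m).2, ?_⟩
    exact Quotient.out_eq (s := D.st) m
  chart_mem_atlas m := mem_range_self _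

theorem chartAt_eq (m : D.M) : ∃ i, chartAt (E n) m = D.chart i := ⟨_, rfl⟩

/-- the chart changes -/
theorem transition (i j : D.I) {y : E n} (hy : y ∈ ((D.chart i).symm.trans (D.chart j)).source) :
    ∃ φ ∈ D.Φ i j, y ∈ D.U i ∧ φ y ∈ D.U j ∧
      ∀ᶠ z in 𝓝 y, ((D.chart i).symm.trans (D.chart j)) z = φ z := by
  rw [OpenPartialHomeomorph.trans_source, OpenPartialHomeomorph.symm_source, chart_target] at hy
  obtain ⟨hyi, hyj⟩ := hy
  rw [mem_preimage, D.chart_symm i hyi, chart_source] at hyj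
  obtain ⟨x, hx⟩ := hyj
  obtain ⟨φ, hφ, h1⟩ := D.pr_eq.1 hx.symm
  have h1' : φ y = x := h1
  refine ⟨φ, hφ, hyi, by rw [h1']; exact x.2, ?_⟩
  have hc : ContinuousAt φ y := φ.toContinuousAffineEquiv.continuous.continuousAt
  have e1 : ∀ᶠ z in 𝓝 y, z ∈ D.U i := (D.U_open i).mem_nhds hyi
  have e2 : ∀ᶠ z in 𝓝 y, φ z ∈ D.U j :=
    hc.eventually ((D.U_open j).mem_nhds (by rw [h1']; exact x.2))
  filter_upwards [e1, e2] with z hz1 hz2
  rw [OpenPartialHomeomorph.coe_trans, Function.comp_apply, D.chart_symm i hz1]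
  have h2 : D.f i ⟨z, hz1⟩ = D.f j ⟨φ z, hz2⟩ := D.pr_eq.2 ⟨φ, hφ, rfl⟩
  rw [h2, chart_f]

/-- the atlas condition of the frozen statement -/
theorem atlas_cond : ∀ e ∈ atlas (E n) D.M, ∀ e' ∈ atlas (E n) D.M,
    ∀ y ∈ (e.symm.trans e').source, ∃ A : E n ≃ᵃ[ℝ] E n,
      LinearMap.det (A.linear : E n →ₗ[ℝ] E n) = 1 ∧
      ∀ᶠ z in nhds y, (e.symm.trans e') z = A z := by
  rintro e ⟨i, rfl⟩ e' ⟨j, rfl⟩ y hy
  obtain ⟨φ, hφ, -, -, h⟩ := D.transition i j hy
  exact ⟨φ, D.Φ_det i j φ hφ, h⟩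

/-! ## Straight paths -/

/-- `Steps i y u t k z w`: the straight path which starts in the piece `i` at `y` with velocity `u`
is after the time `t` in the piece `k` at `z`, with velocity `w` -/
inductive Steps : D.I → E n → E n → ℝ → D.I → E n → E n → Prop
  | nil (i : D.I) (y u : E n) : Steps i y u 0 i y u
  | cons {i j k : D.I} {y u z w : E n} {s t : ℝ} (φ : E n ≃ᵃ[ℝ] E n) (hs : 0 ≤ s)
      (hseg : ∀ r : ℝ, 0 ≤ r → r ≤ s → y + r • u ∈ D.U i) (hφ : φ ∈ D.Φ i j)
      (hj : φ (y + s • u) ∈ D.U j) (h : Steps j (φ (y + s • u)) (φ.linear u) t k z w) :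
      Steps i y u (s + t) k z w

theorem Steps.scale {D : Glue n} {i k : D.I} {y u z w : E n} {t : ℝ} (h : D.Steps i y u t k z w)
    {c : ℝ} (hc : 0 < c) : D.Steps i y (c • u) (t / c) k z (c • w) := by
  induction h with
  | nil i y u => rw [zero_div]; exact Steps.nil i y _
  | @cons i j k y u z w s t φ hs hseg hφ hj h ih =>
    have e1 : (s / c) • (c • u) = s • u := by
      rw [smul_smul, div_mul_cancel₀ _ hc.ne']
    rw [add_div]
    refine Steps.cons φ (div_nonneg hs hc.le) (fun r h0 h1 => ?_) hφ ?_ ?_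
    · rw [smul_smul]
      exact hseg (r * c) (by positivity) (by rwa [le_div_iff₀ hc] at h1)
    · rw [e1]; exact hj
    · rw [e1, map_smul]
      exact ih

/-- the curve `γ` is locally straight at the time `t` -/
def GeoAt (γ : ℝ → D.M) (t : ℝ) : Prop := ∃ p w : E n, ∀ᶠ s in 𝓝 t,
  γ s ∈ (chartAt (E n) (γ t)).source ∧ chartAt (E n) (γ t) (γ s) = p + s • w

/-- at the time `t` the curve is in the piece `i` at `y` with velocity `u` -/
def At (γ : ℝ → D.M) (t : ℝ) (i : D.I) (y u : E n) : Prop := ∀ᶠ s in 𝓝 t,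
  γ s ∈ (D.chart i).source ∧ D.chart i (γ s) = y + (s - t) • u

theorem At.self {D : Glue n} {γ : ℝ → D.M} {t : ℝ} {i : D.I} {y u : E n} (h : D.At γ t i y u) :
    γ t ∈ (D.chart i).source ∧ D.chart i (γ t) = y := by
  have := h.self_of_nhds
  simpa using this

theorem At.eq_f {D : Glue n} {γ : ℝ → D.M} {t : ℝ} {i : D.I} {y u : E n} (h : D.At γ t i y u)
    (hy : y ∈ D.U i) : γ t = D.f i ⟨y, hy⟩ := by
  obtain ⟨h1, h2⟩ := h.self
  rw [← D.chart_symm i hy, ← h2, (D.chart i).left_inv h1]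

/-- change of the piece -/
theorem At.change {D : Glue n} {γ : ℝ → D.M} {t : ℝ} {i j : D.I} {y u : E n}
    (h : D.At γ t i y u) {φ : E n ≃ᵃ[ℝ] E n} (hφ : φ ∈ D.Φ i j) (hy : y ∈ D.U i)
    (hj : φ y ∈ D.U j) : D.At γ t j (φ y) (φ.linear u) := by
  have hc1 : ContinuousAt (fun s : ℝ => y + (s - t) • u) t := by fun_prop
  have hc2 : ContinuousAt (fun s : ℝ => φ (y + (s - t) • u)) t :=
    (φ.toContinuousAffineEquiv.continuous.comp (by fun_prop :
      Continuous fun s : ℝ => y + (s - t) • u)).continuousAt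
  have e1 : ∀ᶠ s in 𝓝 t, y + (s - t) • u ∈ D.U i :=
    hc1.eventually ((D.U_open i).mem_nhds (by simpa using hy))
  have e2 : ∀ᶠ s in 𝓝 t, φ (y + (s - t) • u) ∈ D.U j :=
    hc2.eventually ((D.U_open j).mem_nhds (by simpa using hj))
  filter_upwards [h, e1, e2] with s hs h1 h2
  have h3 : γ s = D.f i ⟨_, h1⟩ := by
    rw [← D.chart_symm i h1, ← hs.2, (D.chart i).left_inv hs.1]
  have h4 : D.f i ⟨_, h1⟩ = D.f j ⟨_, h2⟩ := D.pr_eq.2 ⟨φ, hφ, rfl⟩
  rw [h3, h4, chart_source, chart_f]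
  refine ⟨mem_range_self _, ?_⟩
  change φ (y + (s - t) • u) = _
  rw [add_comm y, ← vadd_eq_add, AffineEquiv.map_vadd, map_smul, vadd_eq_add, add_comm]

/-- two affine functions which agree near a point agree -/
theorem affine_eq {p w q z : E n} {t : ℝ} (h : ∀ᶠ s in 𝓝 t, p + s • w = q + s • z) :
    p = q ∧ w = z := by
  have h0 := h.self_of_nhds
  obtain ⟨ε, hε, h1⟩ := Metric.eventually_nhds_iff.1 h
  have h2 : p + (t + ε / 2) • w = q + (t + ε / 2) • z := by
    apply h1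
    rw [Real.dist_eq, add_sub_cancel_left, abs_of_pos (by positivity)]
    linarith
  have h3 : (ε / 2) • w = (ε / 2) • z := by
    rw [add_smul, add_smul, ← add_assoc, ← add_assoc, h0] at h2
    exact add_left_cancel h2
  have h4 : w = z := smul_right_injective (E n) (by positivity : ε / 2 ≠ 0) h3
  refine ⟨?_, h4⟩
  rw [h4] at h0
  exact add_right_cancel h0

/-- propagation along a straight segment -/
theorem At.propagate {D : Glue n} {γ : ℝ → D.M} (hγ : Continuous γ) (hgeo : ∀ t, D.GeoAt γ t)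
    {t₀ : ℝ} {i : D.I} {y u : E n} (h : D.At γ t₀ i y u) {s₁ : ℝ} (hs₁ : 0 ≤ s₁)
    (hseg : ∀ r : ℝ, 0 ≤ r → r ≤ s₁ → y + r • u ∈ D.U i) :
    D.At γ (t₀ + s₁) i (y + s₁ • u) u := by
  -- the good times
  set G : Set ℝ := {s | ∀ᶠ s' in 𝓝 s, γ s' ∈ (D.chart i).source ∧
    D.chart i (γ s') = y + (s' - t₀) • u} with hG
  have hGo : IsOpen G := by
    rw [isOpen_iff_mem_nhds]
    intro s hs
    exact eventually_eventually_nhds.2 hs
  have h0 : t₀ ∈ G := h
  have hsub : Icc t₀ (t₀ + s₁) ⊆ G := by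
    refine isPreconnected_Icc.subset_of_closure_inter_subset hGo
      ⟨t₀, ⟨le_rfl, by linarith⟩, h0⟩ ?_
    rintro s ⟨hsG, hs⟩
    set z := y + (s - t₀) • u with hz
    have hzU : z ∈ D.U i := hseg (s - t₀) (by linarith [hs.1]) (by linarith [hs.2])
    -- near `s`
    have hfreq : ∃ᶠ r in 𝓝 s, r ∈ G := mem_closure_iff_frequently.1 hsG
    have hδ : ContinuousAt (fun r : ℝ => (D.chart i).symm (y + (r - t₀) • u)) s := by
      have h1 : ContinuousAt (D.chart i).symm z :=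
        (D.chart i).continuousAt_symm (by rw [chart_target]; exact hzU)
      exact ContinuousAt.comp (f := fun r : ℝ => y + (r - t₀) • u) h1 (by fun_prop)
    have hval : γ s = (D.chart i).symm z := by
      refine tendsto_nhds_unique_of_frequently_eq (hγ.tendsto s) hδ ?_
      refine hfreq.mono fun r hr => ?_
      have hr' := hr.self_of_nhds
      rw [← hr'.2, (D.chart i).left_inv hr'.1]
    have hsrc : γ s ∈ (D.chart i).source := by
      rw [hval]
      exact (D.chart i).map_target (by rw [chart_target]; exact hzU)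
    have hnear : ∀ᶠ r in 𝓝 s, γ r ∈ (D.chart i).source :=
      hγ.continuousAt.eventually ((D.chart i).open_source.mem_nhds hsrc)
    -- the geodesic property
    obtain ⟨p, w, hpw⟩ := hgeo s
    obtain ⟨k, hk⟩ := D.chartAt_eq (γ s)
    rw [hk] at hpw
    have hsk : γ s ∈ (D.chart k).source := hpw.self_of_nhds.1
    have htr : D.chart k (γ s) ∈ ((D.chart k).symm.trans (D.chart i)).source := by
      rw [OpenPartialHomeomorph.trans_source, OpenPartialHomeomorph.symm_source]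
      refine ⟨(D.chart k).map_source hsk, ?_⟩
      rw [mem_preimage, (D.chart k).left_inv hsk]
      exact hsrc
    obtain ⟨φ, hφ, -, -, hloc⟩ := D.transition k i htr
    have hck : ContinuousAt (fun r => D.chart k (γ r)) s :=
      ContinuousAt.comp ((D.chart k).continuousAt hsk) hγ.continuousAt
    have hloc' := hck.eventually hloc
    have haff : ∀ᶠ r in 𝓝 s, γ r ∈ (D.chart i).source ∧
        D.chart i (γ r) = φ p + r • φ.linear w := by
      filter_upwards [hnear, hloc', hpw] with r h1 h2 h3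
      refine ⟨h1, ?_⟩
      rw [OpenPartialHomeomorph.coe_trans, Function.comp_apply, (D.chart k).left_inv h3.1] at h2
      rw [h2, h3.2, add_comm p, ← vadd_eq_add, AffineEquiv.map_vadd, map_smul, vadd_eq_add,
        add_comm]
    -- compare at a good time
    obtain ⟨r, hrG, hr⟩ := (hfreq.and_eventually (eventually_eventually_nhds.2 haff)).exists
    have hcmp : ∀ᶠ r' in 𝓝 r, φ p + r' • φ.linear w = (y - t₀ • u) + r' • u := by
      filter_upwards [hrG, hr] with r' h1 h2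
      rw [← h2.2, h1.2, sub_smul]
      abel
    obtain ⟨e1, e2⟩ := affine_eq hcmp
    change ∀ᶠ s' in 𝓝 s, _
    filter_upwards [haff] with r' h1
    refine ⟨h1.1, ?_⟩
    rw [h1.2, e1, e2, sub_smul]
    abel
  have h1 := hsub (⟨by linarith, le_rfl⟩ : t₀ + s₁ ∈ Icc t₀ (t₀ + s₁))
  change ∀ᶠ s in 𝓝 (t₀ + s₁), _
  filter_upwards [h1] with s hs
  refine ⟨hs.1, ?_⟩
  rw [hs.2, add_assoc, ← add_smul]
  congr 2
  ring

/-- propagation along a path -/
theorem At.steps {D : Glue n} {γ : ℝ → D.M} (hγ : Continuous γ) (hgeo : ∀ t, D.GeoAt γ t)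
    {i k : D.I} {y u z w : E n} {t : ℝ} (hst : D.Steps i y u t k z w) {t₀ : ℝ}
    (h : D.At γ t₀ i y u) : D.At γ (t₀ + t) k z w := by
  induction hst generalizing t₀ with
  | nil i y u => rw [add_zero]; exact h
  | @cons i j k y u z w s t φ hs hseg hφ hj hst ih =>
    rw [← add_assoc]
    exact ih ((At.propagate hγ hgeo h hs hseg).change hφ (hseg s hs le_rfl) hj)

/-- **No complete geodesic follows a closed straight path with increasing velocity.** -/
theorem no_geodesic {i₀ : D.I} {y₀ u₀ : E n} {T lam : ℝ} (hy₀ : y₀ ∈ D.U i₀) (hu₀ : u₀ ≠ 0)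
    (hlam : 1 < lam) (hloop : D.Steps i₀ y₀ u₀ T i₀ y₀ (lam • u₀)) {γ : ℝ → D.M}
    (hγ : Continuous γ) (hgeo : ∀ t, D.GeoAt γ t) (h0 : D.At γ 0 i₀ y₀ u₀) : False := by
  have hlam0 : 0 < lam := by linarith
  -- the return times
  set τ : ℕ → ℝ := fun k => ∑ m ∈ Finset.range k, T * (lam⁻¹) ^ m with hτ
  have hAt : ∀ k, D.At γ (τ k) i₀ y₀ (lam ^ k • u₀) := by
    intro k
    induction k with
    | zero => simpa [hτ] using h0
    | succ k ih =>
      have h1 := At.steps hγ hgeo (hloop.scale (pow_pos hlam0 k)) ih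
      have e1 : τ (k + 1) = τ k + T / lam ^ k := by
        simp only [hτ, Finset.sum_range_succ, inv_pow, div_eq_mul_inv]
      have e2 : lam ^ k • (lam • u₀) = lam ^ (k + 1) • u₀ := by
        rw [smul_smul, ← pow_succ]
      rw [e1, ← e2]
      exact h1
  -- the limit time
  have hsum : Tendsto τ atTop (𝓝 (T * (1 - lam⁻¹)⁻¹)) := by
    have h1 := (hasSum_geometric_of_lt_one (inv_nonneg.2 hlam0.le)
      (inv_lt_one_of_one_lt₀ hlam)).mul_left T
    exact h1.tendsto_sum_nat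
  -- a short initial segment
  obtain ⟨ε, hε, hseg⟩ : ∃ ε : ℝ, 0 < ε ∧ ∀ r : ℝ, 0 ≤ r → r ≤ ε → y₀ + r • u₀ ∈ D.U i₀ := by
    have hc : ContinuousAt (fun r : ℝ => y₀ + r • u₀) 0 := by fun_prop
    have h1 : ∀ᶠ r : ℝ in 𝓝 0, y₀ + r • u₀ ∈ D.U i₀ :=
      hc.eventually ((D.U_open i₀).mem_nhds (by simpa using hy₀))
    obtain ⟨δ, hδ, h2⟩ := Metric.eventually_nhds_iff.1 h1
    refine ⟨δ / 2, by positivity, fun r h3 h4 => h2 ?_⟩
    rw [Real.dist_eq, sub_zero, abs_of_nonneg h3]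
    linarith
  have hAt' : ∀ k, D.At γ (τ k + ε / lam ^ k) i₀ (y₀ + ε • u₀) (lam ^ k • u₀) := by
    intro k
    have hp : 0 < lam ^ k := pow_pos hlam0 k
    have h1 := At.propagate hγ hgeo (hAt k) (s₁ := ε / lam ^ k) (by positivity)
      (fun r h2 h3 => by
        rw [smul_smul]
        exact hseg (r * lam ^ k) (by positivity) (by rwa [le_div_iff₀ hp] at h3))
    rw [smul_smul, div_mul_cancel₀ _ hp.ne'] at h1
    exact h1
  have hε' : Tendsto (fun k : ℕ => τ k + ε / lam ^ k) atTop (𝓝 (T * (1 - lam⁻¹)⁻¹ + ε * 0)) := by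
    refine hsum.add ?_
    have h1 : Tendsto (fun k : ℕ => (lam⁻¹) ^ k) atTop (𝓝 0) :=
      tendsto_pow_atTop_nhds_zero_of_lt_one (inv_nonneg.2 hlam0.le) (inv_lt_one_of_one_lt₀ hlam)
    have h2 := h1.const_mul ε
    refine h2.congr fun k => ?_
    rw [inv_pow, div_eq_mul_inv]
  rw [mul_zero, add_zero] at hε'
  have l1 : Tendsto (fun k => γ (τ k)) atTop (𝓝 (γ (T * (1 - lam⁻¹)⁻¹))) :=
    (hγ.tendsto _).comp hsum
  have l2 : Tendsto (fun k => γ (τ k + ε / lam ^ k)) atTop (𝓝 (γ (T * (1 - lam⁻¹)⁻¹))) :=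
    (hγ.tendsto _).comp hε'
  have hy₁ : y₀ + ε • u₀ ∈ D.U i₀ := hseg ε hε.le le_rfl
  have c1 : ∀ k, γ (τ k) = D.f i₀ ⟨y₀, hy₀⟩ := fun k => (hAt k).eq_f hy₀
  have c2 : ∀ k, γ (τ k + ε / lam ^ k) = D.f i₀ ⟨y₀ + ε • u₀, hy₁⟩ := fun k => (hAt' k).eq_f hy₁
  simp only [c1] at l1
  simp only [c2] at l2
  have e1 := tendsto_nhds_unique tendsto_const_nhds l1
  have e2 := tendsto_nhds_unique tendsto_const_nhds l2
  have e3 := D.f_injective i₀ (e1.trans e2.symm)
  have e4 : y₀ = y₀ + ε • u₀ := congrArg Subtype.val e3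
  have e5 : ε • u₀ = 0 := by
    have := e4.symm
    rwa [add_eq_left] at this
  rcases smul_eq_zero.1 e5 with h | h
  · exact hε.ne' h
  · exact hu₀ h

/-- **Gluing data with a closed straight path with increasing velocity refute the frozen
statement.** -/
theorem not_complete {i₀ : D.I} {y₀ u₀ : E n} {T lam : ℝ} (hy₀ : y₀ ∈ D.U i₀) (hu₀ : u₀ ≠ 0)
    (hlam : 1 < lam) (hloop : D.Steps i₀ y₀ u₀ T i₀ y₀ (lam • u₀)) :
    ¬ (∀ (n : ℕ) (M : Type) [TopologicalSpace M] [T2Space M] [CompactSpace M]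
      [ChartedSpace (EuclideanSpace ℝ (Fin n)) M],
      (∀ e ∈ atlas (EuclideanSpace ℝ (Fin n)) M, ∀ e' ∈ atlas (EuclideanSpace ℝ (Fin n)) M,
        ∀ y ∈ (e.symm.trans e').source,
          ∃ A : EuclideanSpace ℝ (Fin n) ≃ᵃ[ℝ] EuclideanSpace ℝ (Fin n),
            LinearMap.det (A.linear : EuclideanSpace ℝ (Fin n) →ₗ[ℝ] EuclideanSpace ℝ (Fin n)) = 1 ∧
            ∀ᶠ z in nhds y, (e.symm.trans e') z = A z) →
      ∀ (x : M) (v : EuclideanSpace ℝ (Fin n)),
        ∃ γ : ℝ → M, Continuous γ ∧ γ 0 = x ∧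
          (∀ᶠ s in nhds (0 : ℝ),
            γ s ∈ (chartAt (EuclideanSpace ℝ (Fin n)) x).source ∧
            chartAt (EuclideanSpace ℝ (Fin n)) x (γ s)
              = chartAt (EuclideanSpace ℝ (Fin n)) x x + s • v) ∧
          ∀ t : ℝ, ∃ p w : EuclideanSpace ℝ (Fin n),
            ∀ᶠ s in nhds t,
              γ s ∈ (chartAt (EuclideanSpace ℝ (Fin n)) (γ t)).source ∧
              chartAt (EuclideanSpace ℝ (Fin n)) (γ t) (γ s) = p + s • w) := by
  intro H
  set x : D.M := D.f i₀ ⟨y₀, hy₀⟩ with hx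
  obtain ⟨k, hk⟩ := D.chartAt_eq x
  have hxs : x ∈ (D.chart k).source := by
    rw [← hk]
    exact mem_chart_source _ _
  have htr : y₀ ∈ ((D.chart i₀).symm.trans (D.chart k)).source := by
    rw [OpenPartialHomeomorph.trans_source, OpenPartialHomeomorph.symm_source, chart_target]
    refine ⟨hy₀, ?_⟩
    rw [mem_preimage, D.chart_symm i₀ hy₀]
    exact hxs
  obtain ⟨φ, hφ, -, hφk, hloc⟩ := D.transition i₀ k htr
  have hval : D.chart k x = φ y₀ := by
    have h1 := hloc.self_of_nhds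
    rwa [OpenPartialHomeomorph.coe_trans, Function.comp_apply, D.chart_symm i₀ hy₀] at h1
  obtain ⟨γ, hγ, -, h0, hgeo⟩ := H n D.M D.atlas_cond x (φ.linear u₀)
  rw [hk] at h0
  have h1 : D.At γ 0 k (φ y₀) (φ.linear u₀) := by
    change ∀ᶠ s in 𝓝 (0 : ℝ), _
    filter_upwards [h0] with s hs
    refine ⟨hs.1, ?_⟩
    rw [hs.2, hval, sub_zero]
  have h2 := h1.change (D.Φ_symm i₀ k φ hφ) hφk (by
    rw [AffineEquiv.symm_apply_apply]; exact hy₀)
  rw [AffineEquiv.symm_apply_apply] at h2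
  have h3 : φ.symm.linear (φ.linear u₀) = u₀ := by
    rw [AffineEquiv.linear_symm]
    exact LinearEquiv.symm_apply_apply _ _
  rw [h3] at h2
  exact D.no_geodesic hy₀ hu₀ hlam hloop hγ hgeo h2

end Glue

end Pool.Agent.MkC
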