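import Pool.Agent.MkC.Tree
import Pool.Agent.MkC.Glue

set_option autoImplicit false

/-!
Coordinate-wise affine maps of `E 3`: real version `diagAff`, exact rational version `A3`.
-/

open Set

namespace Pool.Agent.MkC

/-! ### Real diagonal affine maps -/

section Real

variable {n : ℕ}

/-- diagonal linear equivalence -/
noncomputable def diagLin (a : Fin n → ℝ) (ha : ∀ i, a i ≠ 0) : E n ≃ₗ[ℝ] E n where
  toFun x := WithLp.toLp 2 fun i => a i * x i
  invFun x := WithLp.toLp 2 fun i => (a i)⁻¹ * x i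
  map_add' x y := by
    ext i
    simp [mul_add]
  map_smul' c x := by
    ext i
    simp
    ring
  left_inv x := by
    ext i
    simp [ha i]
  right_inv x := by
    ext i
    simp [ha i]

@[simp] theorem diagLin_apply (a : Fin n → ℝ) (ha : ∀ i, a i ≠ 0) (x : E n) (i : Fin n) :
    diagLin a ha x i = a i * x i := rfl

/-- diagonal affine equivalence -/
noncomputable def diagAff (a : Fin n → ℝ) (ha : ∀ i, a i ≠ 0) (b : Fin n → ℝ) :
    E n ≃ᵃ[ℝ] E n :=
  (diagLin a ha).toAffineEquiv.trans (AffineEquiv.constVAdd ℝ (E n) (WithLp.toLp 2 b))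

@[simp] theorem diagAff_apply (a : Fin n → ℝ) (ha : ∀ i, a i ≠ 0) (b : Fin n → ℝ) (x : E n)
    (i : Fin n) : diagAff a ha b x i = a i * x i + b i := by
  change b i + a i * x i = _
  ring

@[simp] theorem diagAff_linear (a : Fin n → ℝ) (ha : ∀ i, a i ≠ 0) (b : Fin n → ℝ) :
    (diagAff a ha b).linear = diagLin a ha := by
  ext x i
  rfl

theorem det_diagLin (a : Fin n → ℝ) (ha : ∀ i, a i ≠ 0) :
    LinearMap.det ((diagLin a ha : E n ≃ₗ[ℝ] E n) : E n →ₗ[ℝ] E n) = ∏ i, a i := by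
  have h : LinearMap.toMatrix (EuclideanSpace.basisFun (Fin n) ℝ).toBasis
      (EuclideanSpace.basisFun (Fin n) ℝ).toBasis
      ((diagLin a ha : E n ≃ₗ[ℝ] E n) : E n →ₗ[ℝ] E n) = Matrix.diagonal a := by
    ext i j
    rw [LinearMap.toMatrix_apply]
    by_cases hij : i = j
    · subst hij
      simp
    · simp [Matrix.diagonal_apply_ne _ hij, hij]
  rw [← LinearMap.det_toMatrix (EuclideanSpace.basisFun (Fin n) ℝ).toBasis, h,
    Matrix.det_diagonal]

/-- equality of two affine equivalences from their coordinates -/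
theorem affEquiv_ext {f g : E n ≃ᵃ[ℝ] E n} (h : ∀ x i, f x i = g x i) : f = g := by
  ext x i
  exact h x i

end Real

/-! ### Exact rational maps -/

/-- A coordinate `y = (p x + q / D) / (n + 1)`-type map: `a = p / (n + 1)`, `D b = q / (n + 1)`. -/
structure A1 where
  p : Int
  q : Int
  n : Nat

/-- slope -/
noncomputable def A1.a (c : A1) : ℝ := (c.p : ℝ) / ((c.n : ℝ) + 1)

/-- translation part for the denominator `D` -/
noncomputable def A1.b (D : Nat) (c : A1) : ℝ := (c.q : ℝ) / (((c.n : ℝ) + 1) * D)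

/-- composition: first `c`, then `d` -/
def A1.comp (c d : A1) : A1 :=
  ⟨d.p * c.p, d.p * c.q + d.q * ((c.n : Int) + 1), c.n * d.n + c.n + d.n⟩

/-- equality test -/
def A1.eqb (c d : A1) : Bool :=
  decide (c.p * ((d.n : Int) + 1) = d.p * ((c.n : Int) + 1)) &&
    decide (c.q * ((d.n : Int) + 1) = d.q * ((c.n : Int) + 1))

/-- the identity -/
def A1.one : A1 := ⟨1, 0, 0⟩

/-- the enclosure of a coordinate (coordinate number `k`) over the denominator `n + 1` -/
def A1.co (k : Nat) (P : Nat) (c : A1) : Co :=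
  ⟨k, c.p * ((P / (c.n + 1) : Nat) : Int), c.p * ((P / (c.n + 1) : Nat) : Int),
    c.q * ((P / (c.n + 1) : Nat) : Int), c.q * ((P / (c.n + 1) : Nat) : Int)⟩

theorem A1.comp_a (c d : A1) : (c.comp d).a = d.a * c.a := by
  simp only [A1.comp, A1.a]
  push_cast
  have h1 : ((c.n : ℝ) + 1) ≠ 0 := by positivity
  have h2 : ((d.n : ℝ) + 1) ≠ 0 := by positivity
  have e : ((c.n : ℝ) * d.n + c.n + d.n + 1) = (c.n + 1) * (d.n + 1) := by ring
  rw [e]
  field_simp

theorem A1.comp_b {D : Nat} (hD : 0 < D) (c d : A1) :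
    (c.comp d).b D = d.a * c.b D + d.b D := by
  simp only [A1.comp, A1.a, A1.b]
  push_cast
  have hD' : (D : ℝ) ≠ 0 := by exact_mod_cast hD.ne'
  have h1 : ((c.n : ℝ) + 1) ≠ 0 := by positivity
  have h2 : ((d.n : ℝ) + 1) ≠ 0 := by positivity
  have e : ((c.n : ℝ) * d.n + c.n + d.n + 1) = (c.n + 1) * (d.n + 1) := by ring
  rw [e]
  field_simp

theorem A1.eqb_a {c d : A1} (h : c.eqb d = true) : c.a = d.a := by
  simp only [A1.eqb, Bool.and_eq_true, decide_eq_true_eq] at h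
  have h1 : ((c.n : ℝ) + 1) ≠ 0 := by positivity
  have h2 : ((d.n : ℝ) + 1) ≠ 0 := by positivity
  unfold A1.a
  rw [div_eq_div_iff h1 h2]
  exact_mod_cast h.1

theorem A1.eqb_b {D : Nat} (hD : 0 < D) {c d : A1} (h : c.eqb d = true) : c.b D = d.b D := by
  simp only [A1.eqb, Bool.and_eq_true, decide_eq_true_eq] at h
  have hD' : (D : ℝ) ≠ 0 := by exact_mod_cast hD.ne'
  have h1 : ((c.n : ℝ) + 1) ≠ 0 := by positivity
  have h2 : ((d.n : ℝ) + 1) ≠ 0 := by positivity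
  have h3 : (c.q : ℝ) * ((d.n : ℝ) + 1) = d.q * ((c.n : ℝ) + 1) := by exact_mod_cast h.2
  unfold A1.b
  rw [div_eq_div_iff (by positivity) (by positivity)]
  linear_combination (D : ℝ) * h3

@[simp] theorem A1.one_a : A1.one.a = 1 := by simp [A1.one, A1.a]

@[simp] theorem A1.one_b (D : Nat) : A1.one.b D = 0 := by simp [A1.one, A1.b]

theorem A1.a_ne {c : A1} (h : c.p ≠ 0) : c.a ≠ 0 := by
  have : (c.p : ℝ) ≠ 0 := by exact_mod_cast h
  unfold A1.a
  positivity

/-- Three coordinates. -/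
structure A3 where
  c0 : A1
  c1 : A1
  c2 : A1

/-- coordinate of a map -/
def A3.c (f : A3) : Fin 3 → A1 := ![f.c0, f.c1, f.c2]

/-- the slopes do not vanish -/
def A3.ok (f : A3) : Bool := decide (f.c0.p ≠ 0) && decide (f.c1.p ≠ 0) && decide (f.c2.p ≠ 0)

theorem A3.ok_sound {f : A3} (h : f.ok = true) (i : Fin 3) : (f.c i).a ≠ 0 := by
  simp only [A3.ok, Bool.and_eq_true, decide_eq_true_eq] at h
  fin_cases i
  · exact A1.a_ne h.1.1
  · exact A1.a_ne h.1.2
  · exact A1.a_ne h.2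

/-- the real map (the identity if a slope vanishes) -/
noncomputable def A3.map (D : Nat) (f : A3) : E 3 ≃ᵃ[ℝ] E 3 :=
  if h : f.ok = true then
    diagAff (fun i => (f.c i).a) (A3.ok_sound h) (fun i => (f.c i).b D)
  else AffineEquiv.refl ℝ (E 3)

theorem A3.map_apply {D : Nat} {f : A3} (h : f.ok = true) (x : E 3) (i : Fin 3) :
    f.map D x i = (f.c i).a * x i + (f.c i).b D := by
  simp [A3.map, h]

/-- determinant test -/
def A3.det1 (f : A3) : Bool :=
  decide (f.c0.p * f.c1.p * f.c2.p =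
    ((f.c0.n : Int) + 1) * ((f.c1.n : Int) + 1) * ((f.c2.n : Int) + 1))

theorem A3.det_map {D : Nat} {f : A3} (h : f.ok = true) (hd : f.det1 = true) :
    LinearMap.det ((f.map D).linear : E 3 →ₗ[ℝ] E 3) = 1 := by
  have e : f.map D = diagAff (fun i => (f.c i).a) (A3.ok_sound h) (fun i => (f.c i).b D) := by
    simp [A3.map, h]
  rw [e, diagAff_linear, det_diagLin, Fin.prod_univ_three]
  simp only [A3.det1, decide_eq_true_eq] at hd
  have h0 : ((f.c0.n : ℝ) + 1) ≠ 0 := by positivity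
  have h1 : ((f.c1.n : ℝ) + 1) ≠ 0 := by positivity
  have h2 : ((f.c2.n : ℝ) + 1) ≠ 0 := by positivity
  have hd' : (f.c0.p : ℝ) * f.c1.p * f.c2.p =
      ((f.c0.n : ℝ) + 1) * ((f.c1.n : ℝ) + 1) * ((f.c2.n : ℝ) + 1) := by exact_mod_cast hd
  change f.c0.a * f.c1.a * f.c2.a = 1
  unfold A1.a
  field_simp
  linarith

/-- composition: first `f`, then `g` -/
def A3.comp (f g : A3) : A3 := ⟨f.c0.comp g.c0, f.c1.comp g.c1, f.c2.comp g.c2⟩

/-- equality test -/
def A3.eqb (f g : A3) : Bool := f.c0.eqb g.c0 && f.c1.eqb g.c1 && f.c2.eqb g.c2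

/-- identity -/
def A3.one : A3 := ⟨A1.one, A1.one, A1.one⟩

theorem A3.comp_c (f g : A3) (i : Fin 3) : (f.comp g).c i = (f.c i).comp (g.c i) := by
  fin_cases i <;> rfl

theorem A3.comp_ok {f g : A3} (hf : f.ok = true) (hg : g.ok = true) : (f.comp g).ok = true := by
  simp only [A3.ok, Bool.and_eq_true, decide_eq_true_eq] at *
  exact ⟨⟨mul_ne_zero hg.1.1 hf.1.1, mul_ne_zero hg.1.2 hf.1.2⟩, mul_ne_zero hg.2 hf.2⟩

theorem A3.map_comp {D : Nat} (hD : 0 < D) {f g : A3} (hf : f.ok = true) (hg : g.ok = true) :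
    (f.comp g).map D = (f.map D).trans (g.map D) := by
  refine affEquiv_ext fun x i => ?_
  rw [A3.map_apply (A3.comp_ok hf hg), AffineEquiv.trans_apply, A3.map_apply hg,
    A3.map_apply hf, A3.comp_c, A1.comp_a, A1.comp_b hD]
  ring

theorem A3.eqb_c {f g : A3} (h : f.eqb g = true) (i : Fin 3) : (f.c i).eqb (g.c i) = true := by
  simp only [A3.eqb, Bool.and_eq_true] at h
  fin_cases i
  · exact h.1.1
  · exact h.1.2
  · exact h.2

theorem A3.map_eq {D : Nat} (hD : 0 < D) {f g : A3} (hf : f.ok = true) (hg : g.ok = true)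
    (h : f.eqb g = true) : f.map D = g.map D := by
  refine affEquiv_ext fun x i => ?_
  rw [A3.map_apply hf, A3.map_apply hg, A1.eqb_a (A3.eqb_c h i), A1.eqb_b hD (A3.eqb_c h i)]

theorem A3.one_c (i : Fin 3) : A3.one.c i = A1.one := by fin_cases i <;> rfl

theorem A3.map_one (D : Nat) : A3.one.map D = AffineEquiv.refl ℝ (E 3) := by
  refine affEquiv_ext fun x i => ?_
  rw [A3.map_apply (by decide), A3.one_c]
  simp

/-- `g` is inverse to `f` -/
def A3.invb (f g : A3) : Bool := (f.comp g).eqb A3.one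

theorem A3.map_symm {D : Nat} (hD : 0 < D) {f g : A3} (hf : f.ok = true) (hg : g.ok = true)
    (h : f.invb g = true) : (f.map D).symm = g.map D := by
  have h1 := A3.map_eq hD (A3.comp_ok hf hg) (by decide) h
  rw [A3.map_comp hD hf hg, A3.map_one] at h1
  refine affEquiv_ext fun x i => ?_
  have h2 : g.map D (f.map D ((f.map D).symm x)) = (f.map D).symm x := by
    have := congrArg (fun e : E 3 ≃ᵃ[ℝ] E 3 => e ((f.map D).symm x)) h1
    simpa using this
  rw [AffineEquiv.apply_symm_apply] at h2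
  rw [h2]

/-! ### Enclosures -/

/-- a common denominator -/
def A3.P (f : A3) : Nat := (f.c0.n + 1) * (f.c1.n + 1) * (f.c2.n + 1)

/-- the enclosure -/
def A3.tr (f : A3) : Tr := ⟨f.P, f.c0.co 0 f.P, f.c1.co 1 f.P, f.c2.co 2 f.P⟩

theorem A1.co_encl {D P k : Nat} (hD : 0 < D) (c : A1) (hP : (c.n + 1) ∣ P)
    {g : (Fin 3 → ℝ) → ℝ} (hg : ∀ x, g x = c.a * x (co3 k) + c.b D) : (c.co k P).Encl D P g := by
  obtain ⟨m, rfl⟩ := hP
  have hD' : (D : ℝ) ≠ 0 := by exact_mod_cast hD.ne'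
  have h1 : ((c.n : ℝ) + 1) ≠ 0 := by positivity
  have hm : ((c.n + 1) * m) / (c.n + 1) = m := Nat.mul_div_cancel_left m (Nat.succ_pos _)
  have e1 : (((c.n + 1) * m : Nat) : ℝ) * c.a = c.p * (m : ℝ) := by
    unfold A1.a
    push_cast
    field_simp
  have e2 : (((c.n + 1) * m : Nat) : ℝ) * (D * c.b D) = c.q * (m : ℝ) := by
    unfold A1.b
    push_cast
    field_simp
  refine ⟨c.a, c.b D, hg, ⟨?_, ?_⟩, ⟨?_, ?_⟩⟩
  · rw [e1]
    simp [A1.co, hm]
  · rw [e1]
    simp [A1.co, hm]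
  · rw [e2]
    simp [A1.co, hm]
  · rw [e2]
    simp [A1.co, hm]

/-- the map on plain vectors -/
noncomputable def A3.fn (D : Nat) (f : A3) (x : Fin 3 → ℝ) : Fin 3 → ℝ :=
  fun i => (f.c i).a * x i + (f.c i).b D

theorem A3.fn_eq {D : Nat} {f : A3} (h : f.ok = true) (x : E 3) :
    A3.fn D f (fun i => x i) = fun i => f.map D x i := by
  funext i
  rw [A3.map_apply h]
  rfl

theorem A3.tr_encl {D : Nat} (hD : 0 < D) (f : A3) : f.tr.Encl D (A3.fn D f) := by
  refine ⟨by unfold A3.tr A3.P; positivity, ?_, ?_, ?_⟩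
  · exact A1.co_encl hD f.c0 ⟨(f.c1.n + 1) * (f.c2.n + 1), by simp only [A3.tr, A3.P]; ring⟩
      fun x => rfl
  · exact A1.co_encl hD f.c1 ⟨(f.c0.n + 1) * (f.c2.n + 1), by simp only [A3.tr, A3.P]; ring⟩
      fun x => rfl
  · exact A1.co_encl hD f.c2 ⟨(f.c0.n + 1) * (f.c1.n + 1), by simp only [A3.tr, A3.P]; ring⟩
      fun x => rfl

/-- points of `E 3` in a closed integer box -/
def Bx.cl (D : Nat) (B : Bx) : Set (E 3) := {x | (fun i => x i) ∈ B.real D}

/-- points of `E 3` in an open integer box -/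
def Bx.op (D : Nat) (B : Bx) : Set (E 3) := {x | (fun i => x i) ∈ B.open D}

theorem Bx.op_subset_cl (D : Nat) (B : Bx) : B.op D ⊆ B.cl D := fun _ hx => B.open_subset D hx

theorem A3.img_cl {D : Nat} (hD : 0 < D) {f : A3} (h : f.ok = true) {B : Bx} {x : E 3}
    (hx : x ∈ B.cl D) : f.map D x ∈ (f.tr.img B).cl D := by
  have h1 := Tr.img_sound (A3.tr_encl hD f) hx
  rw [A3.fn_eq h] at h1
  exact h1

theorem coord_continuous (i : Fin 3) : Continuous fun x : E 3 => x i := by fun_prop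

theorem Bx.isOpen_op (D : Nat) (B : Bx) : IsOpen (B.op D) := by
  have e : B.op D = ({x : E 3 | (B.l0 : ℝ) < D * x 0} ∩ {x : E 3 | D * x 0 < (B.h0 : ℝ)}) ∩
      (({x : E 3 | (B.l1 : ℝ) < D * x 1} ∩ {x : E 3 | D * x 1 < (B.h1 : ℝ)}) ∩
      ({x : E 3 | (B.l2 : ℝ) < D * x 2} ∩ {x : E 3 | D * x 2 < (B.h2 : ℝ)})) := by
    ext x
    simp only [Bx.op, Set.mem_ofPred_eq, Bx.mem_open, mem_inter_iff]
  have c : ∀ i : Fin 3, Continuous fun x : E 3 => (D : ℝ) * x i :=
    fun i => continuous_const.mul (coord_continuous i)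
  rw [e]
  exact ((isOpen_lt continuous_const (c 0)).inter (isOpen_lt (c 0) continuous_const)).inter
    (((isOpen_lt continuous_const (c 1)).inter (isOpen_lt (c 1) continuous_const)).inter
    ((isOpen_lt continuous_const (c 2)).inter (isOpen_lt (c 2) continuous_const)))

theorem Bx.isClosed_cl (D : Nat) (B : Bx) : IsClosed (B.cl D) := by
  have e : B.cl D = ({x : E 3 | (B.l0 : ℝ) ≤ D * x 0} ∩ {x : E 3 | D * x 0 ≤ (B.h0 : ℝ)}) ∩
      (({x : E 3 | (B.l1 : ℝ) ≤ D * x 1} ∩ {x : E 3 | D * x 1 ≤ (B.h1 : ℝ)}) ∩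
      ({x : E 3 | (B.l2 : ℝ) ≤ D * x 2} ∩ {x : E 3 | D * x 2 ≤ (B.h2 : ℝ)})) := by
    ext x
    simp only [Bx.cl, Set.mem_ofPred_eq, Bx.mem_real, mem_inter_iff]
  have c : ∀ i : Fin 3, Continuous fun x : E 3 => (D : ℝ) * x i :=
    fun i => continuous_const.mul (coord_continuous i)
  rw [e]
  exact ((isClosed_le continuous_const (c 0)).inter (isClosed_le (c 0) continuous_const)).inter
    (((isClosed_le continuous_const (c 1)).inter (isClosed_le (c 1) continuous_const)).inter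
    ((isClosed_le continuous_const (c 2)).inter (isClosed_le (c 2) continuous_const)))

theorem Bx.isCompact_cl {D : Nat} (hD : 0 < D) (B : Bx) : IsCompact (B.cl D) := by
  have hD' : (0 : ℝ) < D := by exact_mod_cast hD
  refine Metric.isCompact_of_isClosed_isBounded (B.isClosed_cl D) ?_
  -- all coordinates are bounded
  obtain ⟨M, hM⟩ : ∃ M : ℝ, ∀ x ∈ B.cl D, ∀ i : Fin 3, |x i| ≤ M := by
    refine ⟨(|(B.l0 : ℝ)| + |(B.h0 : ℝ)| + |(B.l1 : ℝ)| + |(B.h1 : ℝ)| + |(B.l2 : ℝ)| +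
      |(B.h2 : ℝ)|) / D, ?_⟩
    intro x hx i
    have h := (Bx.mem_real (x := fun i => x i)).1 hx
    rw [le_div_iff₀ hD']
    have e : |x i| * D = |(D : ℝ) * x i| := by
      rw [abs_mul, abs_of_pos hD', mul_comm]
    rw [e]
    obtain ⟨⟨p, q⟩, ⟨r, s⟩, ⟨t, u⟩⟩ := h
    have a0 := neg_abs_le (B.l0 : ℝ)
    have a1 := neg_abs_le (B.l1 : ℝ)
    have a2 := neg_abs_le (B.l2 : ℝ)
    have b0 := le_abs_self (B.h0 : ℝ)
    have b1 := le_abs_self (B.h1 : ℝ)
    have b2 := le_abs_self (B.h2 : ℝ)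
    have n0 := abs_nonneg (B.l0 : ℝ)
    have n1 := abs_nonneg (B.l1 : ℝ)
    have n2 := abs_nonneg (B.l2 : ℝ)
    have m0 := abs_nonneg (B.h0 : ℝ)
    have m1 := abs_nonneg (B.h1 : ℝ)
    have m2 := abs_nonneg (B.h2 : ℝ)
    fin_cases i
    · exact abs_le.2 ⟨by simp only [Fin.zero_eta]; linarith, by simp only [Fin.zero_eta]; linarith⟩
    · exact abs_le.2 ⟨by simp only [Fin.mk_one]; linarith, by simp only [Fin.mk_one]; linarith⟩
    · exact abs_le.2 ⟨by simp only [Fin.reduceFinMk]; linarith,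
        by simp only [Fin.reduceFinMk]; linarith⟩
  refine isBounded_iff_forall_norm_le.2 ⟨Real.sqrt (∑ _i : Fin 3, M ^ 2), fun x hx => ?_⟩
  rw [EuclideanSpace.norm_eq]
  refine Real.sqrt_le_sqrt (Finset.sum_le_sum fun i _ => ?_)
  have h1 := hM x hx i
  rw [Real.norm_eq_abs]
  exact pow_le_pow_left₀ (abs_nonneg _) h1 2

/-- the open box is not empty -/
def Bx.ne (B : Bx) : Bool := decide (B.l0 < B.h0) && decide (B.l1 < B.h1) && decide (B.l2 < B.h2)

theorem Bx.op_nonempty {D : Nat} (hD : 0 < D) {B : Bx} (h : B.ne = true) : (B.op D).Nonempty := by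
  simp only [Bx.ne, Bool.and_eq_true, decide_eq_true_eq] at h
  obtain ⟨⟨h0, h1⟩, h2⟩ := h
  have hD' : (D : ℝ) ≠ 0 := by exact_mod_cast hD.ne'
  have k0 : (B.l0 : ℝ) < B.h0 := by exact_mod_cast h0
  have k1 : (B.l1 : ℝ) < B.h1 := by exact_mod_cast h1
  have k2 : (B.l2 : ℝ) < B.h2 := by exact_mod_cast h2
  refine ⟨WithLp.toLp 2 ![((B.l0 : ℝ) + B.h0) / 2 / D, ((B.l1 : ℝ) + B.h1) / 2 / D,
    ((B.l2 : ℝ) + B.h2) / 2 / D], ?_⟩
  refine (Bx.mem_open).2 ?_
  simp only [Matrix.cons_val_zero, Matrix.cons_val_one, Matrix.cons_val]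
  refine ⟨?_, ?_, ?_⟩ <;> rw [mul_div_cancel₀ _ hD'] <;> constructor <;> linarith

/-! ### Fixed points -/

/-- The map `c` has no fixed point with `D x` in `(l, h)`: `x (n + 1 - p) = q / D`. -/
def A1.nofix (c : A1) (l h : Int) : Bool :=
  (decide (c.p = (c.n : Int) + 1) && decide (c.q ≠ 0)) ||
  (decide (c.p < (c.n : Int) + 1) &&
    (decide (c.q ≤ l * ((c.n : Int) + 1 - c.p)) || decide (h * ((c.n : Int) + 1 - c.p) ≤ c.q))) ||
  (decide ((c.n : Int) + 1 < c.p) &&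
    (decide (l * ((c.n : Int) + 1 - c.p) ≤ c.q) || decide (c.q ≤ h * ((c.n : Int) + 1 - c.p))))

theorem A1.nofix_sound {D : Nat} (hD : 0 < D) {c : A1} {l h : Int} (hc : c.nofix l h = true)
    {x : ℝ} (h1 : (l : ℝ) < D * x) (h2 : D * x < (h : ℝ)) : c.a * x + c.b D ≠ x := by
  intro hx
  have hD' : (0 : ℝ) < D := by exact_mod_cast hD
  have hn : (0 : ℝ) < (c.n : ℝ) + 1 := by positivity
  have e : (D * x) * ((c.n : ℝ) + 1 - c.p) = c.q := by
    unfold A1.a A1.b at hx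
    field_simp at hx
    linarith
  simp only [A1.nofix, Bool.or_eq_true, Bool.and_eq_true, decide_eq_true_eq] at hc
  rcases hc with (⟨ha, hb⟩ | ⟨ha, hb⟩) | ⟨ha, hb⟩
  · have ha' : (c.p : ℝ) = (c.n : ℝ) + 1 := by exact_mod_cast ha
    have hb' : (c.q : ℝ) ≠ 0 := by exact_mod_cast hb
    apply hb'
    rw [← e, ha']
    ring
  · have ha' : (c.p : ℝ) < (c.n : ℝ) + 1 := by exact_mod_cast ha
    rcases hb with hb | hb
    · have hb' : (c.q : ℝ) ≤ l * ((c.n : ℝ) + 1 - c.p) := by exact_mod_cast hb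
      nlinarith
    · have hb' : (h : ℝ) * ((c.n : ℝ) + 1 - c.p) ≤ c.q := by exact_mod_cast hb
      nlinarith
  · have ha' : (c.n : ℝ) + 1 < (c.p : ℝ) := by exact_mod_cast ha
    rcases hb with hb | hb
    · have hb' : (l : ℝ) * ((c.n : ℝ) + 1 - c.p) ≤ c.q := by exact_mod_cast hb
      nlinarith
    · have hb' : (c.q : ℝ) ≤ h * ((c.n : ℝ) + 1 - c.p) := by exact_mod_cast hb
      nlinarith

/-- no fixed point in the open box -/
def A3.nofix (f : A3) (B : Bx) : Bool :=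
  f.c0.nofix B.l0 B.h0 || f.c1.nofix B.l1 B.h1 || f.c2.nofix B.l2 B.h2

theorem A3.nofix_sound {D : Nat} (hD : 0 < D) {f : A3} (h : f.ok = true) {B : Bx}
    (hf : f.nofix B = true) {x : E 3} (hx : x ∈ B.op D) : f.map D x ≠ x := by
  intro he
  have hx' := (Bx.mem_open (x := fun i => x i)).1 hx
  have hi : ∀ i, (f.c i).a * x i + (f.c i).b D = x i := by
    intro i
    rw [← A3.map_apply h, he]
  obtain ⟨⟨p, q⟩, ⟨r, s⟩, ⟨t, u⟩⟩ := hx'
  simp only [A3.nofix, Bool.or_eq_true] at hf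
  rcases hf with (hf | hf) | hf
  · exact A1.nofix_sound hD hf p q (hi 0)
  · exact A1.nofix_sound hD hf r s (hi 1)
  · exact A1.nofix_sound hD hf t u (hi 2)

end Pool.Agent.MkC
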