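import Pool.Agent.MkC.Closed

/-!
# The refined gluing data keep the closed straight path
-/

set_option autoImplicit false

open Set Topology Filter

namespace Pool.Agent.MkC

variable {n : ℕ}

namespace GlueL

/-- a refinement which keeps the closed straight path -/
theorem exists_refine (D : GlueL n) {i₀ : D.I} {y₀ u₀ : E n} {T lam : ℝ} (hy₀ : y₀ ∈ D.U i₀)
    (hloop : D.Steps i₀ y₀ u₀ T i₀ y₀ (lam • u₀)) :
    ∃ (S : D.I → Finset (E n)) (hS : ∀ i, ∀ x ∈ S i, x ∈ D.U i)
      (hK : ∀ i, ∀ y ∈ D.K i, ∃ x ∈ S i, dist y x < D.rad i x / 2)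
      (i : (D.refine S hS hK).I), y₀ ∈ (D.refine S hS hK).U i ∧
      (D.refine S hS hK).Steps i y₀ u₀ T i y₀ (lam • u₀) := by
  classical
  obtain ⟨C, hC1, hC2, hC3⟩ := hloop.compact
  -- the compact sets
  set C' : D.I → Set (E n) := fun i => C i ∪ (D.K i ∪ (if i = i₀ then {y₀} else ∅)) with hC'
  have hc1 : ∀ i, IsCompact (C' i) := by
    intro i
    refine (hC1 i).union ((D.K_comp i).union ?_)
    split_ifs
    · exact isCompact_singleton
    · exact isCompact_empty
  have hc2 : ∀ i, C' i ⊆ D.U i := by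
    intro i
    refine union_subset (hC2 i) (union_subset (D.K_sub i) ?_)
    split_ifs with h1
    · rw [h1]; exact singleton_subset_iff.2 hy₀
    · exact empty_subset _
  choose S hS hS' using fun i => D.exists_centres i (hc1 i) (hc2 i)
  have hK : ∀ i, ∀ y ∈ D.K i, ∃ x ∈ S i, dist y x < D.rad i x / 2 :=
    fun i y hy => hS' i y (Or.inr (Or.inl hy))
  obtain ⟨a, ha, hd⟩ := hS' i₀ y₀ (Or.inr (Or.inr (by simp only [if_true]; exact mem_singleton _)))
  have ha' : y₀ ∈ Metric.ball a (D.rad i₀ a) := lt_trans hd (half_lt_self (D.rad_pos i₀ a))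
  obtain ⟨b, hb, h1⟩ := refine_steps (hT := hS) (hK := hK)
    (fun i y hy => hS' i y (Or.inl hy)) hC3 ⟨a, ha⟩ ha'
  have h2 := refine_change (hT := hS) (hK := hK) (y := y₀) (u := lam • u₀) b ⟨a, ha⟩ hb ha'
  have h3 := steps_trans h1 h2
  rw [add_zero] at h3
  exact ⟨S, hS, hK, ⟨i₀, ⟨a, ha⟩⟩, ha', h3⟩

end GlueL

/-- a diagonal map of determinant one: the diagonal entries have product one -/
theorem IsDiag.prod_eq_one {φ : E n ≃ᵃ[ℝ] E n} (h : IsDiag φ)
    (hdet : LinearMap.det (φ.linear : E n →ₗ[ℝ] E n) = 1) :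
    ∃ a : Fin n → ℝ, ∏ k, a k = 1 ∧ ∀ v k, φ.linear v k = a k * v k := by
  obtain ⟨a, ha⟩ := h
  refine ⟨a, ?_, ha⟩
  rw [← hdet]
  have h1 : LinearMap.toMatrix (EuclideanSpace.basisFun (Fin n) ℝ).toBasis
      (EuclideanSpace.basisFun (Fin n) ℝ).toBasis (φ.linear : E n →ₗ[ℝ] E n)
      = Matrix.diagonal a := by
    ext i j
    rw [LinearMap.toMatrix_apply, Matrix.diagonal_apply]
    simp only [OrthonormalBasis.coe_toBasis, EuclideanSpace.basisFun_apply,
      OrthonormalBasis.coe_toBasis_repr_apply, EuclideanSpace.basisFun_repr]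
    change φ.linear (EuclideanSpace.single j 1) i = _
    rw [ha]
    by_cases hij : i = j
    · subst hij
      simp
    · simp [hij]
  rw [← LinearMap.det_toMatrix (EuclideanSpace.basisFun (Fin n) ℝ).toBasis, h1,
    Matrix.det_diagonal]

end Pool.Agent.MkC
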