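import Pool.Agent.MkC.Glue

/-!
# Gluing data with only locally injective charts

The same as `Glue`, but a piece may be glued to itself: it is only required that a gluing map of a
piece to itself which has a fixed point in the piece is the identity.  Cutting the pieces into
small balls reduces to `Glue`.
-/

set_option autoImplicit false
set_option maxHeartbeats 400000

open Set Topology Filter

namespace Pool.Agent.MkC

/-- gluing data, the pieces are only locally injective -/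
structure GlueL (n : ℕ) where
  I : Type
  finI : Finite I
  U : I → Set (E n)
  Φ : I → I → Set (E n ≃ᵃ[ℝ] E n)
  U_open : ∀ i, IsOpen (U i)
  Φ_fin : ∀ i j, (Φ i j).Finite
  Φ_det : ∀ i j, ∀ φ ∈ Φ i j, LinearMap.det (φ.linear : E n →ₗ[ℝ] E n) = 1
  Φ_refl : ∀ i, AffineEquiv.refl ℝ (E n) ∈ Φ i i
  Φ_symm : ∀ i j, ∀ φ ∈ Φ i j, φ.symm ∈ Φ j i
  Φ_trans : ∀ i j k, ∀ φ ∈ Φ i j, ∀ ψ ∈ Φ j k, ∀ x ∈ U i, φ x ∈ U j → ψ (φ x) ∈ U k →
    φ.trans ψ ∈ Φ i k
  Φ_free : ∀ i, ∀ φ ∈ Φ i i, ∀ x ∈ U i, φ x = x → φ = AffineEquiv.refl ℝ (E n)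
  K : I → Set (E n)
  K_comp : ∀ i, IsCompact (K i)
  K_sub : ∀ i, K i ⊆ U i
  K_cover : ∀ i, ∀ x ∈ U i, ∃ j, ∃ φ ∈ Φ i j, φ x ∈ K j

namespace GlueL

variable {n : ℕ} (D : GlueL n)

/-- straight paths -/
inductive Steps : D.I → E n → E n → ℝ → D.I → E n → E n → Prop
  | nil (i : D.I) (y u : E n) : Steps i y u 0 i y u
  | cons {i j k : D.I} {y u z w : E n} {s t : ℝ} (φ : E n ≃ᵃ[ℝ] E n) (hs : 0 ≤ s)
      (hseg : ∀ r : ℝ, 0 ≤ r → r ≤ s → y + r • u ∈ D.U i) (hφ : φ ∈ D.Φ i j)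
      (hj : φ (y + s • u) ∈ D.U j) (h : Steps j (φ (y + s • u)) (φ.linear u) t k z w) :
      Steps i y u (s + t) k z w

/-- straight paths with segments in given sets -/
inductive StepsIn (C : D.I → Set (E n)) : D.I → E n → E n → ℝ → D.I → E n → E n → Prop
  | nil (i : D.I) (y u : E n) : StepsIn C i y u 0 i y u
  | cons {i j k : D.I} {y u z w : E n} {s t : ℝ} (φ : E n ≃ᵃ[ℝ] E n) (hs : 0 ≤ s)
      (hseg : ∀ r : ℝ, 0 ≤ r → r ≤ s → y + r • u ∈ C i) (hφ : φ ∈ D.Φ i j)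
      (hj : φ (y + s • u) ∈ C j) (h : StepsIn C j (φ (y + s • u)) (φ.linear u) t k z w) :
      StepsIn C i y u (s + t) k z w

variable {D}

theorem StepsIn.mono {C C' : D.I → Set (E n)} (hC : ∀ i, C i ⊆ C' i) {i k : D.I} {y u z w : E n}
    {t : ℝ} (h : D.StepsIn C i y u t k z w) : D.StepsIn C' i y u t k z w := by
  induction h with
  | nil i y u => exact StepsIn.nil i y u
  | @cons i j k y u z w s t φ hs hseg hφ hj h ih =>
    exact StepsIn.cons φ hs (fun r h0 h1 => hC _ (hseg r h0 h1)) hφ (hC _ hj) ih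

theorem Steps.compact {i k : D.I} {y u z w : E n} {t : ℝ} (h : D.Steps i y u t k z w) :
    ∃ C : D.I → Set (E n), (∀ i, IsCompact (C i)) ∧ (∀ i, C i ⊆ D.U i) ∧
      D.StepsIn C i y u t k z w := by
  classical
  induction h with
  | nil i y u => exact ⟨fun _ => ∅, fun _ => isCompact_empty, fun _ => empty_subset _,
      StepsIn.nil i y u⟩
  | @cons i j k y u z w s t φ hs hseg hφ hj h ih =>
    obtain ⟨C, hC1, hC2, hC3⟩ := ih
    set S : Set (E n) := (fun r : ℝ => y + r • u) '' Icc 0 s with hS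
    have hSc : IsCompact S := isCompact_Icc.image (by fun_prop)
    have hSU : S ⊆ D.U i := by
      rintro _ ⟨r, hr, rfl⟩
      exact hseg r hr.1 hr.2
    refine ⟨fun l => C l ∪ ((if l = i then S else ∅) ∪
      (if l = j then {φ (y + s • u)} else ∅)),
      fun l => (hC1 l).union (IsCompact.union ?_ ?_),
      fun l => union_subset (hC2 l) (union_subset ?_ ?_), ?_⟩
    · split_ifs
      · exact hSc
      · exact isCompact_empty
    · split_ifs
      · exact isCompact_singleton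
      · exact isCompact_empty
    · split_ifs with h1
      · rw [h1]; exact hSU
      · exact empty_subset _
    · split_ifs with h1
      · rw [h1]; exact singleton_subset_iff.2 hj
      · exact empty_subset _
    · refine StepsIn.cons φ hs (fun r h0 h1 => Or.inr (Or.inl ?_)) hφ (Or.inr (Or.inr ?_))
        (hC3.mono fun j => subset_union_left)
      · simp only [if_true]
        exact ⟨r, ⟨h0, h1⟩, rfl⟩
      · simp only [if_true]
        exact mem_singleton _

variable (D)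

/-- a small radius -/
theorem exists_radius (i : D.I) {x : E n} (hx : x ∈ D.U i) : ∃ r : ℝ, 0 < r ∧
    Metric.ball x r ⊆ D.U i ∧ ∀ φ ∈ D.Φ i i, ∀ y ∈ Metric.ball x r, φ y ∈ Metric.ball x r →
      φ y = y := by
  have h1 : ∀ᶠ y : E n × E n in 𝓝 (x, x), ∀ φ ∈ D.Φ i i, φ y.1 = y.2 →
      φ = AffineEquiv.refl ℝ (E n) := by
    rw [Filter.eventually_all_finite (D.Φ_fin i i)]
    intro φ hφ
    by_cases h2 : φ = AffineEquiv.refl ℝ (E n)
    · exact Eventually.of_forall fun _ _ => h2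
    · have h3 : φ x ≠ x := fun h => h2 (D.Φ_free i φ hφ x hx h)
      have hc : Continuous fun q : E n × E n => (φ q.1, q.2) :=
        (φ.toContinuousAffineEquiv.continuous.comp continuous_fst).prodMk continuous_snd
      have h4 := (isOpen_ne_fun (hc.fst) (hc.snd)).mem_nhds
        (show (x, x) ∈ {q : E n × E n | φ q.1 ≠ q.2} from h3)
      filter_upwards [h4] with q hq hq'
      exact absurd hq' hq
  obtain ⟨r₁, hr₁, h2⟩ := Metric.eventually_nhds_iff.1 h1
  obtain ⟨r₂, hr₂, h3⟩ := Metric.isOpen_iff.1 (D.U_open i) x hx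
  refine ⟨min r₁ r₂, lt_min hr₁ hr₂, fun y hy => h3 (Metric.ball_subset_ball (min_le_right _ _) hy),
    fun φ hφ y hy hy' => ?_⟩
  have h4 := h2 (y := (y, φ y)) (by
    rw [Prod.dist_eq]
    exact max_lt (lt_of_lt_of_le hy (min_le_left _ _)) (lt_of_lt_of_le hy' (min_le_left _ _)))
    φ hφ rfl
  rw [h4, AffineEquiv.refl_apply]

/-- the chosen radius -/
noncomputable def rad (i : D.I) (x : E n) : ℝ :=
  open Classical in if h : x ∈ D.U i then (D.exists_radius i h).choose else 1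

theorem rad_pos (i : D.I) (x : E n) : 0 < D.rad i x := by
  unfold rad
  split_ifs with h
  · exact (D.exists_radius i h).choose_spec.1
  · exact one_pos

theorem rad_sub (i : D.I) {x : E n} (hx : x ∈ D.U i) : Metric.ball x (D.rad i x) ⊆ D.U i := by
  unfold rad
  rw [dif_pos hx]
  exact (D.exists_radius i hx).choose_spec.2.1

theorem rad_inj (i : D.I) {x : E n} (hx : x ∈ D.U i) : ∀ φ ∈ D.Φ i i,
    ∀ y ∈ Metric.ball x (D.rad i x), φ y ∈ Metric.ball x (D.rad i x) → φ y = y := by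
  unfold rad
  rw [dif_pos hx]
  exact (D.exists_radius i hx).choose_spec.2.2

attribute [irreducible] rad

/-- finitely many centres -/
theorem exists_centres (i : D.I) {C : Set (E n)} (hC : IsCompact C) (hCU : C ⊆ D.U i) :
    ∃ T : Finset (E n), (∀ x ∈ T, x ∈ D.U i) ∧ ∀ y ∈ C, ∃ x ∈ T, dist y x < D.rad i x / 2 := by
  obtain ⟨T, hT, hT2⟩ := hC.elim_nhds_subcover (fun x => Metric.ball x (D.rad i x / 2))
    (fun x _ => Metric.ball_mem_nhds x (half_pos (D.rad_pos i x)))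
  refine ⟨T, fun x hx => hCU (hT x hx), fun y hy => ?_⟩
  have := hT2 hy
  rw [mem_iUnion₂] at this
  obtain ⟨x, hx, h⟩ := this
  exact ⟨x, hx, h⟩

/-- the refinement of the gluing data, adapted to compact sets `C i` which contain the `K i` -/
noncomputable def refine (T : D.I → Finset (E n)) (hT : ∀ i, ∀ x ∈ T i, x ∈ D.U i)
    (hK : ∀ i, ∀ y ∈ D.K i, ∃ x ∈ T i, dist y x < D.rad i x / 2) : Glue n where
  I := Σ i : D.I, T i
  finI := by
    have := D.finI
    infer_instance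
  U p := Metric.ball (p.2 : E n) (D.rad p.1 p.2)
  Φ p q := D.Φ p.1 q.1
  U_open p := Metric.isOpen_ball
  U_ne p := ⟨p.2, Metric.mem_ball_self (D.rad_pos _ _)⟩
  Φ_fin p q := D.Φ_fin _ _
  Φ_det p q := D.Φ_det _ _
  Φ_refl p := D.Φ_refl _
  Φ_symm p q := D.Φ_symm _ _
  Φ_trans p q r φ hφ ψ hψ x hx hx' hx'' := D.Φ_trans _ _ _ φ hφ ψ hψ x
    (D.rad_sub p.1 (hT _ _ p.2.2) hx) (D.rad_sub q.1 (hT _ _ q.2.2) hx')
    (D.rad_sub r.1 (hT _ _ r.2.2) hx'')
  Φ_inj p φ hφ x hx hx' := D.rad_inj p.1 (hT _ _ p.2.2) φ hφ x hx hx'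
  K p := Metric.closedBall (p.2 : E n) (D.rad p.1 p.2 / 2)
  K_comp p := isCompact_closedBall _ _
  K_sub p := Metric.closedBall_subset_ball (half_lt_self (D.rad_pos _ _))
  K_cover p x hx := by
    obtain ⟨j, φ, hφ, h⟩ := D.K_cover p.1 x (D.rad_sub p.1 (hT _ _ p.2.2) hx)
    obtain ⟨c, hc, hd⟩ := hK j _ h
    exact ⟨⟨j, ⟨c, hc⟩⟩, φ, hφ, hd.le⟩

variable {D}

theorem steps_trans {D : Glue n} {i j k : D.I} {y u z w x v : E n} {s t : ℝ}
    (h : D.Steps i y u s j z w) (h' : D.Steps j z w t k x v) : D.Steps i y u (s + t) k x v := by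
  induction h with
  | nil i y u => rw [zero_add]; exact h'
  | cons φ hs hseg hφ hj h ih =>
    rw [add_assoc]
    exact Glue.Steps.cons φ hs hseg hφ hj (ih h')

/-- change of the ball, and a straight segment in the new ball -/
theorem refine_two {T : D.I → Finset (E n)} {hT : ∀ i, ∀ x ∈ T i, x ∈ D.U i}
    {hK : ∀ i, ∀ y ∈ D.K i, ∃ x ∈ T i, dist y x < D.rad i x / 2} {i : D.I} {y u : E n}
    {s₀ s₁ : ℝ} (h01 : s₀ ≤ s₁) (b x : T i)
    (hb : y + s₀ • u ∈ Metric.ball (b : E n) (D.rad i b))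
    (hx : ∀ r : ℝ, s₀ ≤ r → r ≤ s₁ → y + r • u ∈ Metric.ball (x : E n) (D.rad i x)) :
    (D.refine T hT hK).Steps ⟨i, b⟩ (y + s₀ • u) u (s₁ - s₀) ⟨i, x⟩ (y + s₁ • u) u := by
  have e2 : y + s₀ • u + (s₁ - s₀) • u = y + s₁ • u := by
    rw [add_assoc, ← add_smul]
    congr 2
    ring
  have h1 := Glue.Steps.cons (D := D.refine T hT hK) (i := ⟨i, x⟩) (j := ⟨i, x⟩)
    (k := ⟨i, x⟩) (y := y + s₀ • u) (u := u) (z := y + s₁ • u) (w := u) (s := s₁ - s₀) (t := 0)
    (AffineEquiv.refl ℝ (E n)) (by linarith)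
    (fun r h0 h1 => by
      rw [add_assoc, ← add_smul]
      exact hx (s₀ + r) (by linarith) (by linarith)) (D.Φ_refl i) (by
      rw [e2]
      exact hx s₁ h01 le_rfl) (by
      rw [e2]
      exact Glue.Steps.nil _ _ _)
  have h2 := Glue.Steps.cons (D := D.refine T hT hK) (i := ⟨i, b⟩) (j := ⟨i, x⟩)
    (k := ⟨i, x⟩) (y := y + s₀ • u) (u := u) (z := y + s₁ • u) (w := u) (s := 0)
    (t := s₁ - s₀ + 0) (AffineEquiv.refl ℝ (E n)) le_rfl
    (fun r h0 h1 => by
      have : r = 0 := le_antisymm h1 h0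
      rw [this, zero_smul, add_zero]
      exact hb) (D.Φ_refl i) (by
      rw [zero_smul, add_zero]
      exact hx s₀ le_rfl h01) (by
      rw [zero_smul, add_zero]
      exact h1)
  rwa [zero_add, add_zero] at h2

/-- change of the ball -/
theorem refine_change {T : D.I → Finset (E n)} {hT : ∀ i, ∀ x ∈ T i, x ∈ D.U i}
    {hK : ∀ i, ∀ y ∈ D.K i, ∃ x ∈ T i, dist y x < D.rad i x / 2} {i : D.I} {y u : E n}
    (b x : T i) (hb : y ∈ Metric.ball (b : E n) (D.rad i b))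
    (hx : y ∈ Metric.ball (x : E n) (D.rad i x)) :
    (D.refine T hT hK).Steps ⟨i, b⟩ y u 0 ⟨i, x⟩ y u := by
  have h := refine_two (hT := hT) (hK := hK) (y := y) (u := u) (s₀ := 0) (s₁ := 0) le_rfl b x
    (by rwa [zero_smul, add_zero]) (fun r h0 h1 => by
      have : r = 0 := le_antisymm h1 h0
      rwa [this, zero_smul, add_zero])
  rwa [zero_smul, add_zero, sub_zero] at h

/-- a straight segment in a piece of the refinement, cut into small segments -/
theorem refine_segment {T : D.I → Finset (E n)} {hT : ∀ i, ∀ x ∈ T i, x ∈ D.U i}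
    {hK : ∀ i, ∀ y ∈ D.K i, ∃ x ∈ T i, dist y x < D.rad i x / 2} (i : D.I) {y u : E n} {s : ℝ}
    (hs : 0 ≤ s) (hseg : ∀ r : ℝ, 0 ≤ r → r ≤ s → ∃ x ∈ T i, dist (y + r • u) x < D.rad i x / 2)
    (a : T i) (ha : y ∈ Metric.ball (a : E n) (D.rad i a)) :
    ∃ b : T i, y + s • u ∈ Metric.ball (b : E n) (D.rad i b) ∧
      (D.refine T hT hK).Steps ⟨i, a⟩ y u s ⟨i, b⟩ (y + s • u) u := by
  classical
  -- the cover of the interval
  set c : T i → Set (Icc (0 : ℝ) s) := fun x =>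
    {r | y + (r : ℝ) • u ∈ Metric.ball (x : E n) (D.rad i x)} with hc
  have hcont : Continuous fun r : Icc (0 : ℝ) s => y + (r : ℝ) • u := by fun_prop
  obtain ⟨τ, hτ0, hτm, ⟨m, hm⟩, hτc⟩ := exists_monotone_Icc_subset_open_cover_Icc hs (c := c)
    (fun x => Metric.isOpen_ball.preimage hcont) (by
      rintro ⟨r, hr⟩ -
      obtain ⟨x, hx, h⟩ := hseg r hr.1 hr.2
      rw [mem_iUnion]
      exact ⟨⟨x, hx⟩, lt_trans h (half_lt_self (D.rad_pos i x))⟩)
  -- from `τ k` to `s`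
  have hτ' : ∀ k : ℕ, ∃ x : T i, ∀ q : Icc (0 : ℝ) s, τ k ≤ q → q ≤ τ (k + 1) →
      y + (q : ℝ) • u ∈ Metric.ball (x : E n) (D.rad i x) := by
    intro k
    obtain ⟨x, hx⟩ := hτc k
    exact ⟨x, fun q h0 h1 => hx ⟨h0, h1⟩⟩
  have key : ∀ j k : ℕ, k + j = m → ∀ b : T i,
      y + (τ k : ℝ) • u ∈ Metric.ball (b : E n) (D.rad i b) →
      ∃ b' : T i, y + s • u ∈ Metric.ball (b' : E n) (D.rad i b') ∧
        (D.refine T hT hK).Steps ⟨i, b⟩ (y + (τ k : ℝ) • u) u (s - τ k) ⟨i, b'⟩ (y + s • u) u := by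
    intro j
    induction j with
    | zero =>
      intro k hk b hb
      have h1 : (τ k : ℝ) = s := by
        rw [add_zero] at hk
        have := hm k hk.ge
        rw [this]
      rw [h1] at hb ⊢
      rw [sub_self]
      exact ⟨b, hb, Glue.Steps.nil _ _ _⟩
    | succ j ih =>
      intro k hk b hb
      obtain ⟨x, hx⟩ := hτ' k
      have hle : τ k ≤ τ (k + 1) := hτm (Nat.le_succ k)
      have hle' : (τ k : ℝ) ≤ (τ (k + 1) : ℝ) := hle
      have hx0 : y + (τ k : ℝ) • u ∈ Metric.ball (x : E n) (D.rad i x) := hx _ le_rfl hle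
      have hx1 : y + (τ (k + 1) : ℝ) • u ∈ Metric.ball (x : E n) (D.rad i x) := hx _ hle le_rfl
      obtain ⟨b', hb', h2⟩ := ih (k + 1) (by omega) x hx1
      refine ⟨b', hb', ?_⟩
      have hstep := refine_two (D := D) (hT := hT) (hK := hK) (i := i) (y := y) (u := u)
        (s₀ := (τ k : ℝ)) (s₁ := (τ (k + 1) : ℝ)) hle' b x hb (fun r h0 h1 => by
          have h3 : (0 : ℝ) ≤ r := le_trans (τ k).2.1 h0
          have h4 : r ≤ s := le_trans h1 (τ (k + 1)).2.2
          exact hx ⟨r, h3, h4⟩ (Subtype.mk_le_mk.2 h0) (Subtype.mk_le_mk.2 h1))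
      have e1 : s - (τ k : ℝ) = ((τ (k + 1) : ℝ) - τ k) + (s - τ (k + 1)) := by ring
      rw [e1]
      exact steps_trans hstep h2
  obtain ⟨b', hb', h2⟩ := key m 0 (zero_add m) a (by
    rw [hτ0]
    simpa using ha)
  refine ⟨b', hb', ?_⟩
  rw [hτ0] at h2
  simpa using h2

/-- a path in the refinement -/
theorem refine_steps {T : D.I → Finset (E n)} {hT : ∀ i, ∀ x ∈ T i, x ∈ D.U i}
    {hK : ∀ i, ∀ y ∈ D.K i, ∃ x ∈ T i, dist y x < D.rad i x / 2} {C : D.I → Set (E n)}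
    (hC : ∀ i, ∀ y ∈ C i, ∃ x ∈ T i, dist y x < D.rad i x / 2)
    {i k : D.I} {y u z w : E n} {t : ℝ} (h : D.StepsIn C i y u t k z w) :
    ∀ a : T i, y ∈ Metric.ball (a : E n) (D.rad i a) →
    ∃ b : T k, z ∈ Metric.ball (b : E n) (D.rad k b) ∧
      (D.refine T hT hK).Steps ⟨i, a⟩ y u t ⟨k, b⟩ z w := by
  induction h with
  | nil i y u => exact fun a ha => ⟨a, ha, Glue.Steps.nil _ _ _⟩
  | @cons i j k y u z w s t φ hs hseg hφ hj h ih =>
    intro a ha
    obtain ⟨b, hb, h1⟩ := refine_segment (hT := hT) (hK := hK) i hs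
      (fun r h0 h1 => hC i _ (hseg r h0 h1)) a ha
    obtain ⟨c, hc, hd⟩ := hC j _ hj
    have hc' : φ (y + s • u) ∈ Metric.ball c (D.rad j c) := lt_trans hd (half_lt_self (D.rad_pos j c))
    obtain ⟨b', hb', h2⟩ := ih ⟨c, hc⟩ hc'
    refine ⟨b', hb', steps_trans h1 ?_⟩
    have h3 := Glue.Steps.cons (D := D.refine T hT hK) (i := ⟨i, b⟩) (j := ⟨j, ⟨c, hc⟩⟩)
      (k := ⟨k, b'⟩) (y := y + s • u) (u := u) (z := z) (w := w) (s := 0) (t := t) φ le_rfl
      (fun r h0 h1 => by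
        have : r = 0 := le_antisymm h1 h0
        rw [this, zero_smul, add_zero]
        exact hb) hφ (by
        rw [zero_smul, add_zero]
        exact hc') (by
        rw [zero_smul, add_zero]
        exact h2)
    rwa [zero_add] at h3

/-- **Gluing data with a closed straight path with increasing velocity refute the frozen
statement.** -/
theorem not_complete (D : GlueL n) {i₀ : D.I} {y₀ u₀ : E n} {T lam : ℝ} (hy₀ : y₀ ∈ D.U i₀)
    (hu₀ : u₀ ≠ 0) (hlam : 1 < lam) (hloop : D.Steps i₀ y₀ u₀ T i₀ y₀ (lam • u₀)) :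
    ¬ (∀ (n : ℕ) (M : Type) [TopologicalSpace M] [T2Space M] [CompactSpace M]
      [ChartedSpace (EuclideanSpace ℝ (Fin n)) M],
      (∀ e ∈ atlas (EuclideanSpace ℝ (Fin n)) M, ∀ e' ∈ atlas (EuclideanSpace ℝ (Fin n)) M,
        ∀ y ∈ (e.symm.trans e').source,
          ∃ A : EuclideanSpace ℝ (Fin n) ≃ᵃ[ℝ] EuclideanSpace ℝ (Fin n),
            LinearMap.det (A.linear : EuclideanSpace ℝ (Fin n) →ₗ[ℝ] EuclideanSpace ℝ (Fin n)) = 1 ∧
            ∀ᶠ z in nhds y, (e.symm.trans e') z = A z) →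
      ∀ (x : M) (v : EuclideanSpace ℝ (Fin n)),
        ∃ γ : ℝ → M, Continuous γ ∧ γ 0 = x ∧
          (∀ᶠ s in nhds (0 : ℝ),
            γ s ∈ (chartAt (EuclideanSpace ℝ (Fin n)) x).source ∧
            chartAt (EuclideanSpace ℝ (Fin n)) x (γ s)
              = chartAt (EuclideanSpace ℝ (Fin n)) x x + s • v) ∧
          ∀ t : ℝ, ∃ p w : EuclideanSpace ℝ (Fin n),
            ∀ᶠ s in nhds t,
              γ s ∈ (chartAt (EuclideanSpace ℝ (Fin n)) (γ t)).source ∧
              chartAt (EuclideanSpace ℝ (Fin n)) (γ t) (γ s) = p + s • w) := by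
  classical
  obtain ⟨C, hC1, hC2, hC3⟩ := hloop.compact
  -- the compact sets
  set C' : D.I → Set (E n) := fun i => C i ∪ (D.K i ∪ (if i = i₀ then {y₀} else ∅)) with hC'
  have hc1 : ∀ i, IsCompact (C' i) := by
    intro i
    refine (hC1 i).union ((D.K_comp i).union ?_)
    split_ifs
    · exact isCompact_singleton
    · exact isCompact_empty
  have hc2 : ∀ i, C' i ⊆ D.U i := by
    intro i
    refine union_subset (hC2 i) (union_subset (D.K_sub i) ?_)
    split_ifs with h1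
    · rw [h1]; exact singleton_subset_iff.2 hy₀
    · exact empty_subset _
  choose S hS hS' using fun i => D.exists_centres i (hc1 i) (hc2 i)
  have hK : ∀ i, ∀ y ∈ D.K i, ∃ x ∈ S i, dist y x < D.rad i x / 2 :=
    fun i y hy => hS' i y (Or.inr (Or.inl hy))
  obtain ⟨a, ha, hd⟩ := hS' i₀ y₀ (Or.inr (Or.inr (by simp only [if_true]; exact mem_singleton _)))
  have ha' : y₀ ∈ Metric.ball a (D.rad i₀ a) := lt_trans hd (half_lt_self (D.rad_pos i₀ a))
  obtain ⟨b, hb, h1⟩ := refine_steps (hT := hS) (hK := hK)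
    (fun i y hy => hS' i y (Or.inl hy)) hC3 ⟨a, ha⟩ ha'
  have h2 := refine_change (hT := hS) (hK := hK) (y := y₀) (u := lam • u₀) b ⟨a, ha⟩ hb ha'
  have h3 := steps_trans h1 h2
  rw [add_zero] at h3
  exact Glue.not_complete (D.refine S hS hK) (i₀ := ⟨i₀, ⟨a, ha⟩⟩) ha' hu₀ hlam h3

end GlueL

end Pool.Agent.MkC
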