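import Pool.Agent.MkC.Tree
import Pool.Agent.MkC.Loc

/-!
# Exact box data for a closed affine 3-manifold

A finite list of charts (integer boxes over a denominator `D`) with exact diagonal affine maps
between them.  `checkChart` is a decidable check of all gluing conditions, `checkLoop` finds a
closed straight path of increasing velocity, and `not_complete_of_check` is the conclusion.
-/

set_option autoImplicit false

open Set

namespace Pool.Agent.MkC

/-! ### Exact maps -/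

/-- The map `y` with `d * (D y_k) = n_k * (D x_k) + m_k`. -/
structure Mp where
  d : Nat
  n0 : Int
  m0 : Int
  n1 : Int
  m1 : Int
  n2 : Int
  m2 : Int

/-- the identity -/
def Mp.one : Mp := ⟨1, 1, 0, 1, 0, 1, 0⟩

/-- `a.Is D φ`: the affine equivalence `φ` is given by `a`. -/
def Mp.Is (D : Nat) (a : Mp) (φ : E 3 ≃ᵃ[ℝ] E 3) : Prop :=
  ∀ x : E 3, (a.d : ℝ) * (D * φ x 0) = a.n0 * (D * x 0) + a.m0 ∧
    (a.d : ℝ) * (D * φ x 1) = a.n1 * (D * x 1) + a.m1 ∧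
    (a.d : ℝ) * (D * φ x 2) = a.n2 * (D * x 2) + a.m2

/-- the map is invertible and unimodular -/
def Mp.ok (a : Mp) : Bool :=
  decide (0 < a.d) && decide (a.n0 * a.n1 * a.n2 = (a.d : Int) ^ 3)

/-- `a = b` as maps -/
def Mp.eqb (a b : Mp) : Bool :=
  decide (a.n0 * b.d = b.n0 * a.d) && decide (a.m0 * b.d = b.m0 * a.d) &&
    (decide (a.n1 * b.d = b.n1 * a.d) && decide (a.m1 * b.d = b.m1 * a.d)) &&
      (decide (a.n2 * b.d = b.n2 * a.d) && decide (a.m2 * b.d = b.m2 * a.d))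

/-- first `a`, then `c` -/
def Mp.comp (c a : Mp) : Mp where
  d := c.d * a.d
  n0 := c.n0 * a.n0
  m0 := c.n0 * a.m0 + c.m0 * a.d
  n1 := c.n1 * a.n1
  m1 := c.n1 * a.m1 + c.m1 * a.d
  n2 := c.n2 * a.n2
  m2 := c.n2 * a.m2 + c.m2 * a.d

theorem Mp.ok_iff {a : Mp} (h : a.ok = true) :
    0 < a.d ∧ a.n0 * a.n1 * a.n2 = (a.d : Int) ^ 3 := by
  simpa [Mp.ok] using h

theorem Mp.ok_ne {a : Mp} (h : a.ok = true) :
    (0 : ℝ) < a.d ∧ (a.n0 : ℝ) ≠ 0 ∧ (a.n1 : ℝ) ≠ 0 ∧ (a.n2 : ℝ) ≠ 0 ∧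
      (a.n0 : ℝ) * a.n1 * a.n2 = (a.d : ℝ) ^ 3 := by
  obtain ⟨h1, h2⟩ := Mp.ok_iff h
  have h1' : (0 : ℝ) < a.d := by exact_mod_cast h1
  have h2' : (a.n0 : ℝ) * a.n1 * a.n2 = (a.d : ℝ) ^ 3 := by exact_mod_cast h2
  have h3 : (a.n0 : ℝ) * a.n1 * a.n2 ≠ 0 := by rw [h2']; positivity
  refine ⟨h1', ?_, ?_, ?_, h2'⟩
  · intro h; apply h3; rw [h]; ring
  · intro h; apply h3; rw [h]; ring
  · intro h; apply h3; rw [h]; ring

/-- a diagonal affine equivalence -/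
theorem exists_diag (c b : Fin 3 → ℝ) (hc : ∀ k, c k ≠ 0) :
    ∃ φ : E 3 ≃ᵃ[ℝ] E 3, ∀ x k, φ x k = c k * x k + b k := by
  let e : E 3 ≃ₗ[ℝ] (Fin 3 → ℝ) := (EuclideanSpace.equiv (Fin 3) ℝ).toLinearEquiv
  let f : (Fin 3 → ℝ) ≃ₗ[ℝ] (Fin 3 → ℝ) :=
    LinearEquiv.piCongrRight fun k => LinearEquiv.smulOfNeZero ℝ ℝ (c k) (hc k)
  let g : E 3 ≃ₗ[ℝ] E 3 := (e.trans f).trans e.symm
  refine ⟨g.toAffineEquiv.trans (AffineEquiv.constVAdd ℝ (E 3) (e.symm b)), fun x k => ?_⟩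
  have h1 : (g.toAffineEquiv.trans (AffineEquiv.constVAdd ℝ (E 3) (e.symm b))) x
      = e.symm b + e.symm (f (e x)) := rfl
  rw [h1]
  have h2 : (e.symm b + e.symm (f (e x)) : E 3) k = b k + f (e x) k := rfl
  have h3 : f (e x) k = c k * x k := rfl
  rw [h2, h3]
  ring

theorem det_diag (f : E 3 →ₗ[ℝ] E 3) (c : Fin 3 → ℝ) (h : ∀ v k, f v k = c k * v k) :
    LinearMap.det f = c 0 * c 1 * c 2 := by
  classical
  let b := (EuclideanSpace.basisFun (Fin 3) ℝ).toBasis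
  have h1 : LinearMap.toMatrix b b f = Matrix.diagonal c := by
    ext i j
    rw [LinearMap.toMatrix_apply]
    have h2 : (b.repr (f (b j))) i = f (b j) i := by
      simp [b]
    rw [h2, h]
    have h3 : (b j) i = if i = j then 1 else 0 := by
      simp [b]
    rw [h3, Matrix.diagonal_apply]
    by_cases hij : i = j
    · simp [hij]
    · simp [hij]
  rw [← LinearMap.det_toMatrix b, h1, Matrix.det_diagonal, Fin.prod_univ_three]

theorem Mp.exists_is {D : Nat} (hD : 0 < D) {a : Mp} (h : a.ok = true) :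
    ∃ φ : E 3 ≃ᵃ[ℝ] E 3, a.Is D φ := by
  obtain ⟨hd, h0, h1, h2, -⟩ := Mp.ok_ne h
  have hD' : (0 : ℝ) < D := by exact_mod_cast hD
  obtain ⟨φ, hφ⟩ := exists_diag ![a.n0 / a.d, a.n1 / a.d, a.n2 / a.d]
    ![a.m0 / (a.d * D), a.m1 / (a.d * D), a.m2 / (a.d * D)] (by
      intro k
      fin_cases k
      · exact div_ne_zero h0 hd.ne'
      · exact div_ne_zero h1 hd.ne'
      · exact div_ne_zero h2 hd.ne')
  refine ⟨φ, fun x => ⟨?_, ?_, ?_⟩⟩
  · rw [hφ x 0]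
    simp only [Matrix.cons_val_zero]
    field_simp
  · rw [hφ x 1]
    simp only [Matrix.cons_val_one, Matrix.cons_val_zero]
    field_simp
  · rw [hφ x 2]
    simp only [Matrix.cons_val]
    field_simp

/-- the coordinates of points determine them -/
theorem E3_ext {x y : E 3} (h0 : x 0 = y 0) (h1 : x 1 = y 1) (h2 : x 2 = y 2) : x = y := by
  ext k
  fin_cases k
  · exact h0
  · exact h1
  · exact h2

theorem Mp.Is.unique {D : Nat} (hD : 0 < D) {a : Mp} (h : 0 < a.d) {φ ψ : E 3 ≃ᵃ[ℝ] E 3}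
    (hφ : a.Is D φ) (hψ : a.Is D ψ) : φ = ψ := by
  have hD' : (0 : ℝ) < D := by exact_mod_cast hD
  have hd : (0 : ℝ) < a.d := by exact_mod_cast h
  have key : ∀ u v : ℝ, (a.d : ℝ) * (D * u) = a.d * (D * v) → u = v := fun u v h =>
    mul_left_cancel₀ hD'.ne' (mul_left_cancel₀ hd.ne' h)
  ext1 x
  obtain ⟨a0, a1, a2⟩ := hφ x
  obtain ⟨b0, b1, b2⟩ := hψ x
  exact E3_ext (key _ _ (a0.trans b0.symm)) (key _ _ (a1.trans b1.symm)) (key _ _ (a2.trans b2.symm))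

theorem Mp.Is.linear {D : Nat} (hD : 0 < D) {a : Mp} (h : 0 < a.d) {φ : E 3 ≃ᵃ[ℝ] E 3}
    (hφ : a.Is D φ) (v : E 3) (k : Fin 3) :
    (φ.linear v) k = (![(a.n0 : ℝ) / a.d, a.n1 / a.d, a.n2 / a.d] : Fin 3 → ℝ) k * v k := by
  have hD' : (0 : ℝ) < D := by exact_mod_cast hD
  have hd : (0 : ℝ) < a.d := by exact_mod_cast h
  have h1 : φ.linear v = φ v - φ 0 := by
    have h2 := φ.map_vadd 0 v
    rw [vadd_eq_add, vadd_eq_add, add_zero] at h2
    rw [h2, add_sub_cancel_right]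
  have key : ∀ n m u w t : ℝ, (a.d : ℝ) * (D * u) = n * (D * t) + m →
      (a.d : ℝ) * (D * w) = n * (D * 0) + m → u - w = n / a.d * t := by
    intro n m u w t h1 h2
    have h4 : (a.d : ℝ) * D * (n / a.d * t) = n * (D * t) := by
      field_simp
    have h3 : (a.d : ℝ) * D * (u - w) = (a.d : ℝ) * D * (n / a.d * t) := by
      rw [h4]
      linear_combination h1 - h2
    exact mul_left_cancel₀ (by positivity) h3
  obtain ⟨a0, a1, a2⟩ := hφ v
  obtain ⟨b0, b1, b2⟩ := hφ 0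
  rw [h1]
  fin_cases k
  · exact key _ _ _ _ _ a0 b0
  · exact key _ _ _ _ _ a1 b1
  · exact key _ _ _ _ _ a2 b2

theorem Mp.Is.det {D : Nat} (hD : 0 < D) {a : Mp} (h : a.ok = true) {φ : E 3 ≃ᵃ[ℝ] E 3}
    (hφ : a.Is D φ) : LinearMap.det (φ.linear : E 3 →ₗ[ℝ] E 3) = 1 := by
  obtain ⟨hd, -, -, -, h3⟩ := Mp.ok_ne h
  rw [det_diag (φ.linear : E 3 →ₗ[ℝ] E 3) ![(a.n0 : ℝ) / a.d, a.n1 / a.d, a.n2 / a.d]
    (fun v k => hφ.linear hD (Mp.ok_iff h).1 v k)]
  simp only [Matrix.cons_val_zero, Matrix.cons_val_one, Matrix.cons_val]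
  rw [div_mul_div_comm, div_mul_div_comm, h3]
  have : (a.d : ℝ) * a.d * a.d = (a.d : ℝ) ^ 3 := by ring
  rw [this]
  exact div_self (by positivity)

theorem Mp.one_is (D : Nat) : Mp.one.Is D (AffineEquiv.refl ℝ (E 3)) := by
  intro x
  simp [Mp.one]

/-- exact composition: `c ∘ a = b` -/
theorem Mp.comp_is {D : Nat} (hD : 0 < D) {a b c : Mp} (ha : 0 < a.d)
    (h : (c.comp a).eqb b = true) {φ ψ χ : E 3 ≃ᵃ[ℝ] E 3} (hφ : a.Is D φ) (hψ : b.Is D ψ)
    (hb : 0 < b.d) (hχ : ψ = φ.trans χ) : c.Is D χ := by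
  simp only [Mp.eqb, Mp.comp, Bool.and_eq_true, decide_eq_true_eq] at h
  obtain ⟨⟨⟨e0, f0⟩, e1, f1⟩, e2, f2⟩ := h
  have hD' : (0 : ℝ) < D := by exact_mod_cast hD
  have ha' : (0 : ℝ) < a.d := by exact_mod_cast ha
  have hb' : (0 : ℝ) < b.d := by exact_mod_cast hb
  have key : ∀ (n m n' m' n'' m'' : Int), n'' * n * (b.d : Int) = n' * ((c.d * a.d : Nat) : Int) →
      (n'' * m + m'' * (a.d : Int)) * (b.d : Int) = m' * ((c.d * a.d : Nat) : Int) →
      ∀ x y z : ℝ, (a.d : ℝ) * y = n * x + m → (b.d : ℝ) * z = n' * x + m' →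
      (c.d : ℝ) * z = n'' * y + m'' := by
    intro n m n' m' n'' m'' h1 h2 x y z hy hz
    have h1' : (n'' : ℝ) * n * b.d = n' * (c.d * a.d) := by exact_mod_cast h1
    have h2' : ((n'' : ℝ) * m + m'' * a.d) * b.d = m' * (c.d * a.d) := by exact_mod_cast h2
    have h3 : (a.d : ℝ) * b.d * (c.d * z) = (a.d : ℝ) * b.d * (n'' * y + m'') := by
      calc (a.d : ℝ) * b.d * (c.d * z) = (c.d * a.d) * (b.d * z) := by ring
        _ = (n' * (c.d * a.d)) * x + m' * (c.d * a.d) := by rw [hz]; ring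
        _ = b.d * (n'' * (n * x + m) + m'' * a.d) := by rw [← h1', ← h2']; ring
        _ = (a.d : ℝ) * b.d * (n'' * y + m'') := by rw [← hy]; ring
    exact mul_left_cancel₀ (by positivity) h3
  intro y
  set x := φ.symm y with hx
  have hy : φ x = y := φ.apply_symm_apply y
  have hz : ψ x = χ y := by rw [hχ, AffineEquiv.trans_apply, hy]
  obtain ⟨a0, a1, a2⟩ := hφ x
  obtain ⟨b0, b1, b2⟩ := hψ x
  rw [hy] at a0 a1 a2
  rw [hz] at b0 b1 b2
  exact ⟨key _ _ _ _ _ _ e0 f0 _ _ _ a0 b0, key _ _ _ _ _ _ e1 f1 _ _ _ a1 b1,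
    key _ _ _ _ _ _ e2 f2 _ _ _ a2 b2⟩

theorem Mp.eqb_is {D : Nat} {a b : Mp} (ha : 0 < a.d) (h : a.eqb b = true)
    {φ : E 3 ≃ᵃ[ℝ] E 3} (hφ : a.Is D φ) : b.Is D φ := by
  simp only [Mp.eqb, Bool.and_eq_true, decide_eq_true_eq] at h
  obtain ⟨⟨⟨e0, f0⟩, e1, f1⟩, e2, f2⟩ := h
  have ha' : (0 : ℝ) < a.d := by exact_mod_cast ha
  have key : ∀ (n m n' m' : Int), n * (b.d : Int) = n' * (a.d : Int) →
      m * (b.d : Int) = m' * (a.d : Int) →
      ∀ x y : ℝ, (a.d : ℝ) * y = n * x + m → (b.d : ℝ) * y = n' * x + m' := by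
    intro n m n' m' h1 h2 x y hy
    have h1' : (n : ℝ) * b.d = n' * a.d := by exact_mod_cast h1
    have h2' : (m : ℝ) * b.d = m' * a.d := by exact_mod_cast h2
    have h3 : (a.d : ℝ) * (b.d * y) = (a.d : ℝ) * (n' * x + m') := by
      calc (a.d : ℝ) * (b.d * y) = b.d * (a.d * y) := by ring
        _ = (n * b.d) * x + m * b.d := by rw [hy]; ring
        _ = (a.d : ℝ) * (n' * x + m') := by rw [h1', h2']; ring
    exact mul_left_cancel₀ ha'.ne' h3
  intro x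
  obtain ⟨a0, a1, a2⟩ := hφ x
  exact ⟨key _ _ _ _ e0 f0 _ _ a0, key _ _ _ _ e1 f1 _ _ a1, key _ _ _ _ e2 f2 _ _ a2⟩

/-! ### Boxes and maps -/

/-- lower end of the preimage of `[lo, hi]` under `x ↦ (n x + m) / d` -/
def preLo (d : Nat) (n m lo hi : Int) : Int :=
  if 0 < n then (d * lo - m) / n else (m - d * hi) / (-n)

/-- upper end of the preimage -/
def preHi (d : Nat) (n m lo hi : Int) : Int :=
  if 0 < n then -((m - d * hi) / n) else -((d * lo - m) / (-n))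

theorem pre_sound {d : Nat} (hd : 0 < d) {n m lo hi : Int} (hn : n ≠ 0) {x y : ℝ}
    (h : (d : ℝ) * y = n * x + m) (hlo : (lo : ℝ) < y) (hhi : y < (hi : ℝ)) :
    ((preLo d n m lo hi : Int) : ℝ) < x ∧ x < ((preHi d n m lo hi : Int) : ℝ) := by
  have hd' : (0 : ℝ) < d := by exact_mod_cast hd
  have h1 : ((d : ℝ)) * lo < n * x + m := by rw [← h]; exact mul_lt_mul_of_pos_left hlo hd'
  have h2 : (n : ℝ) * x + m < d * hi := by rw [← h]; exact mul_lt_mul_of_pos_left hhi hd'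
  unfold preLo preHi
  by_cases hp : 0 < n
  · rw [if_pos hp, if_pos hp]
    have hp' : (0 : ℝ) < n := by exact_mod_cast hp
    constructor
    · have h3 : ((d : Int) * lo - m) / n * n ≤ (d : Int) * lo - m := Int.ediv_mul_le _ hp.ne'
      have h3' : ((((d : Int) * lo - m) / n : Int) : ℝ) * n ≤ (d : ℝ) * lo - m := by
        exact_mod_cast h3
      have h4 : ((((d : Int) * lo - m) / n : Int) : ℝ) * n < x * n := by linarith
      exact lt_of_mul_lt_mul_right h4 hp'.le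
    · have h3 : (m - (d : Int) * hi) / n * n ≤ m - (d : Int) * hi := Int.ediv_mul_le _ hp.ne'
      have h3' : (((m - (d : Int) * hi) / n : Int) : ℝ) * n ≤ m - (d : ℝ) * hi := by
        exact_mod_cast h3
      push_cast
      have h4 : x * n < (-(((m - (d : Int) * hi) / n : Int) : ℝ)) * n := by
        linarith
      exact lt_of_mul_lt_mul_right h4 hp'.le
  · rw [if_neg hp, if_neg hp]
    have hp1 : 0 < -n := by omega
    have hp' : (0 : ℝ) < -n := by exact_mod_cast hp1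
    constructor
    · have h3 : (m - (d : Int) * hi) / (-n) * (-n) ≤ m - (d : Int) * hi :=
        Int.ediv_mul_le _ hp1.ne'
      have h3' : (((m - (d : Int) * hi) / (-n) : Int) : ℝ) * (-n) ≤ m - (d : ℝ) * hi := by
        exact_mod_cast h3
      have h4 : (((m - (d : Int) * hi) / (-n) : Int) : ℝ) * (-n) < x * (-n) := by linarith
      exact lt_of_mul_lt_mul_right h4 hp'.le
    · have h3 : ((d : Int) * lo - m) / (-n) * (-n) ≤ (d : Int) * lo - m :=
        Int.ediv_mul_le _ hp1.ne'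
      have h3' : ((((d : Int) * lo - m) / (-n) : Int) : ℝ) * (-n) ≤ (d : ℝ) * lo - m := by
        exact_mod_cast h3
      rw [Int.cast_neg]
      have h4 : x * (-n) < (-((((d : Int) * lo - m) / (-n) : Int) : ℝ)) * (-n) := by
        linarith
      exact lt_of_mul_lt_mul_right h4 hp'.le

/-- outer integer box of the preimage of `B` -/
def Mp.pre (a : Mp) (B : Bx) : Bx where
  l0 := preLo a.d a.n0 a.m0 B.l0 B.h0
  h0 := preHi a.d a.n0 a.m0 B.l0 B.h0
  l1 := preLo a.d a.n1 a.m1 B.l1 B.h1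
  h1 := preHi a.d a.n1 a.m1 B.l1 B.h1
  l2 := preLo a.d a.n2 a.m2 B.l2 B.h2
  h2 := preHi a.d a.n2 a.m2 B.l2 B.h2

/-- the open box in the model space -/
def oBox (D : Nat) (B : Bx) : Set (E 3) := {x | (fun k => x k) ∈ B.open D}

/-- the closed box in the model space -/
def cBox (D : Nat) (B : Bx) : Set (E 3) := {x | (fun k => x k) ∈ B.real D}

theorem Mp.pre_sound {D : Nat} {a : Mp} (h : a.ok = true) {φ : E 3 ≃ᵃ[ℝ] E 3}
    (hφ : a.Is D φ) {B : Bx} {x : E 3} (hx : φ x ∈ oBox D B) : x ∈ oBox D (a.pre B) := by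
  obtain ⟨hd, -⟩ := Mp.ok_iff h
  obtain ⟨-, n0, n1, n2, -⟩ := Mp.ok_ne h
  obtain ⟨a0, a1, a2⟩ := hφ x
  have hx' := Bx.mem_open.1 hx
  obtain ⟨⟨p0, q0⟩, ⟨p1, q1⟩, p2, q2⟩ := hx'
  refine Bx.mem_open.2 ⟨?_, ?_, ?_⟩
  · exact MkC.pre_sound hd (by exact_mod_cast n0) a0 p0 q0
  · exact MkC.pre_sound hd (by exact_mod_cast n1) a1 p1 q1
  · exact MkC.pre_sound hd (by exact_mod_cast n2) a2 p2 q2

/-- the image of `[l, h]` under `x ↦ (n x + m) / d` lies in `[lo, hi]` -/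
def fwd1 (d : Nat) (n m l h lo hi : Int) : Bool :=
  decide ((d : Int) * lo ≤ n * l + m) && decide (n * l + m ≤ d * hi) &&
    (decide ((d : Int) * lo ≤ n * h + m) && decide (n * h + m ≤ d * hi))

theorem fwd1_sound {d : Nat} (hd : 0 < d) {n m l h lo hi : Int}
    (hc : fwd1 d n m l h lo hi = true) {x y : ℝ} (e : (d : ℝ) * y = n * x + m)
    (hl : (l : ℝ) ≤ x) (hh : x ≤ (h : ℝ)) : (lo : ℝ) ≤ y ∧ y ≤ (hi : ℝ) := by
  simp only [fwd1, Bool.and_eq_true, decide_eq_true_eq] at hc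
  obtain ⟨⟨a1, a2⟩, a3, a4⟩ := hc
  have hd' : (0 : ℝ) < d := by exact_mod_cast hd
  have a1' : (d : ℝ) * lo ≤ n * l + m := by exact_mod_cast a1
  have a2' : (n : ℝ) * l + m ≤ d * hi := by exact_mod_cast a2
  have a3' : (d : ℝ) * lo ≤ n * h + m := by exact_mod_cast a3
  have a4' : (n : ℝ) * h + m ≤ d * hi := by exact_mod_cast a4
  have key : (d : ℝ) * lo ≤ d * y ∧ (d : ℝ) * y ≤ d * hi := by
    rw [e]
    rcases le_total (0 : ℝ) n with hn | hn
    · exact ⟨by nlinarith, by nlinarith⟩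
    · exact ⟨by nlinarith, by nlinarith⟩
  exact ⟨le_of_mul_le_mul_left key.1 hd', le_of_mul_le_mul_left key.2 hd'⟩

/-- the image of `B` lies in `K` -/
def Mp.into (a : Mp) (B K : Bx) : Bool :=
  fwd1 a.d a.n0 a.m0 B.l0 B.h0 K.l0 K.h0 && (fwd1 a.d a.n1 a.m1 B.l1 B.h1 K.l1 K.h1 &&
    fwd1 a.d a.n2 a.m2 B.l2 B.h2 K.l2 K.h2)

theorem Mp.into_sound {D : Nat} {a : Mp} (ha : 0 < a.d) {φ : E 3 ≃ᵃ[ℝ] E 3}
    (hφ : a.Is D φ) {B K : Bx} (h : a.into B K = true) {x : E 3} (hx : x ∈ cBox D B) :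
    φ x ∈ cBox D K := by
  simp only [Mp.into, Bool.and_eq_true] at h
  obtain ⟨h0, h1, h2⟩ := h
  obtain ⟨a0, a1, a2⟩ := hφ x
  obtain ⟨⟨p0, q0⟩, ⟨p1, q1⟩, p2, q2⟩ := Bx.mem_real.1 hx
  exact Bx.mem_real.2 ⟨fwd1_sound ha h0 a0 p0 q0, fwd1_sound ha h1 a1 p1 q1,
    fwd1_sound ha h2 a2 p2 q2⟩

/-- `x ↦ (n x + m) / d` moves `[l, h]` in one direction -/
def free1 (d : Nat) (n m l h : Int) : Bool :=
  (decide (0 < ((d : Int) - n) * l - m) && decide (0 < ((d : Int) - n) * h - m)) ||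
    (decide (((d : Int) - n) * l - m < 0) && decide (((d : Int) - n) * h - m < 0))

theorem free1_sound {d : Nat} {n m l h : Int} (hc : free1 d n m l h = true) {x : ℝ}
    (e : (d : ℝ) * x = n * x + m) (hl : (l : ℝ) ≤ x) (hh : x ≤ (h : ℝ)) : False := by
  simp only [free1, Bool.and_eq_true, Bool.or_eq_true, decide_eq_true_eq] at hc
  have e' : ((d : ℝ) - n) * x - m = 0 := by linarith
  rcases hc with ⟨a1, a2⟩ | ⟨a1, a2⟩
  · have a1' : (0 : ℝ) < ((d : ℝ) - n) * l - m := by exact_mod_cast a1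
    have a2' : (0 : ℝ) < ((d : ℝ) - n) * h - m := by exact_mod_cast a2
    rcases le_total (0 : ℝ) ((d : ℝ) - n) with hn | hn
    · nlinarith
    · nlinarith
  · have a1' : ((d : ℝ) - n) * l - m < (0 : ℝ) := by exact_mod_cast a1
    have a2' : ((d : ℝ) - n) * h - m < (0 : ℝ) := by exact_mod_cast a2
    rcases le_total (0 : ℝ) ((d : ℝ) - n) with hn | hn
    · nlinarith
    · nlinarith

/-- no fixed point in `B` -/
def Mp.free (a : Mp) (B : Bx) : Bool :=
  free1 a.d a.n0 a.m0 B.l0 B.h0 || (free1 a.d a.n1 a.m1 B.l1 B.h1 ||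
    free1 a.d a.n2 a.m2 B.l2 B.h2)

theorem Mp.free_sound {D : Nat} {a : Mp} {φ : E 3 ≃ᵃ[ℝ] E 3} (hφ : a.Is D φ) {B : Bx}
    (h : a.free B = true) {x : E 3} (hx : x ∈ cBox D B) (hfix : φ x = x) : False := by
  simp only [Mp.free, Bool.or_eq_true] at h
  obtain ⟨a0, a1, a2⟩ := hφ x
  rw [hfix] at a0 a1 a2
  obtain ⟨⟨p0, q0⟩, ⟨p1, q1⟩, p2, q2⟩ := Bx.mem_real.1 hx
  rcases h with h | h | h
  · exact free1_sound h a0 p0 q0
  · exact free1_sound h a1 p1 q1
  · exact free1_sound h a2 p2 q2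

/-! ### Topology of boxes -/

theorem continuous_coords : Continuous fun (x : E 3) (k : Fin 3) => x k := by
  exact (EuclideanSpace.equiv (Fin 3) ℝ).continuous

theorem isOpen_strip (D : Nat) (l h : ℝ) (k : Fin 3) :
    IsOpen {x : Fin 3 → ℝ | l < D * x k ∧ D * x k < h} := by
  have hc : Continuous fun x : Fin 3 → ℝ => (D : ℝ) * x k := by fun_prop
  exact (isOpen_lt continuous_const hc).inter (isOpen_lt hc continuous_const)

theorem isOpen_oBox (D : Nat) (B : Bx) : IsOpen (oBox D B) := by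
  have h : IsOpen (B.open D) := by
    have h1 : B.open D = {x : Fin 3 → ℝ |
        (((B.l0 : Int) : ℝ) < D * x 0 ∧ D * x 0 < ((B.h0 : Int) : ℝ)) ∧
        (((B.l1 : Int) : ℝ) < D * x 1 ∧ D * x 1 < ((B.h1 : Int) : ℝ)) ∧
        (((B.l2 : Int) : ℝ) < D * x 2 ∧ D * x 2 < ((B.h2 : Int) : ℝ))} := by
      ext x
      exact Bx.mem_open
    rw [h1]
    exact (isOpen_strip D _ _ 0).inter ((isOpen_strip D _ _ 1).inter (isOpen_strip D _ _ 2))
  exact h.preimage continuous_coords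

theorem isCompact_cBox {D : Nat} (hD : 0 < D) (B : Bx) : IsCompact (cBox D B) := by
  have hD' : (0 : ℝ) < D := by exact_mod_cast hD
  have h1 : B.real D = Set.pi Set.univ fun k : Fin 3 =>
      Set.Icc ((![(B.l0 : ℝ) / D, B.l1 / D, B.l2 / D] : Fin 3 → ℝ) k)
        ((![(B.h0 : ℝ) / D, B.h1 / D, B.h2 / D] : Fin 3 → ℝ) k) := by
    ext x
    rw [Bx.mem_real, Set.mem_univ_pi]
    have key : ∀ (l h : Int) (y : ℝ), ((l : ℝ) ≤ D * y ∧ D * y ≤ (h : ℝ)) ↔
        y ∈ Set.Icc ((l : ℝ) / D) ((h : ℝ) / D) := by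
      intro l h y
      rw [Set.mem_Icc, div_le_iff₀ hD', le_div_iff₀ hD', mul_comm y]
    rw [key, key, key]
    constructor
    · rintro ⟨h0, h1, h2⟩ k
      fin_cases k
      · exact h0
      · exact h1
      · exact h2
    · intro h
      exact ⟨h 0, h 1, h 2⟩
  have h2 : IsCompact (B.real D) := by
    rw [h1]
    exact isCompact_univ_pi fun _ => isCompact_Icc
  have h3 : cBox D B = (EuclideanSpace.equiv (Fin 3) ℝ).toHomeomorph ⁻¹' (B.real D) := rfl
  rw [h3]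
  exact (EuclideanSpace.equiv (Fin 3) ℝ).toHomeomorph.isCompact_preimage.2 h2

/-! ### Charts and checks -/

/-- a transition -/
structure Nb where
  c : Nat
  a : Mp

/-- a chart -/
structure Chart where
  U : Bx
  K : Bx
  nb : List Nb
  tree : KTree

/-- default chart -/
def Chart.dflt : Chart := ⟨⟨0, 0, 0, 0, 0, 0⟩, ⟨0, 0, 0, 0, 0, 0⟩, [], .leaf 0⟩

/-- chart number `i` -/
def getC (L : List Chart) (i : Nat) : Chart := L.getD i Chart.dflt

/-- some transition of the list goes to `k` and composes with `a` to `b` -/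
def hasC (nb : List Nb) (k : Nat) (a b : Mp) : Bool :=
  nb.any fun e => (Nat.beq e.c k) && (e.a.comp a).eqb b

/-- the element of the list that the leaf names -/
def leafTest (L : List Chart) (nb : List Nb) (m : Nat) (B : Bx) : Bool :=
  match nb[m]? with
  | none => false
  | some e => e.a.into B (getC L e.c).K

/-- the pair condition -/
def pairTest (L : List Chart) (U : Bx) (e f : Nb) : Bool :=
  ((U.inter (e.a.pre (getC L e.c).U)).inter (f.a.pre (getC L f.c).U)).empty ||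
    hasC (getC L e.c).nb f.c e.a f.a

/-- conditions on one transition of the chart `j` -/
def nbTest (L : List Chart) (j : Nat) (U : Bx) (e : Nb) : Bool :=
  e.a.ok && decide (e.c < L.length) && hasC (getC L e.c).nb j e.a Mp.one &&
    (!(Nat.beq e.c j) || (e.a.eqb Mp.one || e.a.free U))

/-- all conditions of the chart `j` -/
def checkChart (L : List Chart) (j : Nat) : Bool :=
  let C := getC L j
  C.K.strict C.U && (C.nb.any fun e => Nat.beq e.c j && Mp.one.eqb e.a) &&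
    C.nb.all (nbTest L j C.U) && C.nb.all (fun e => C.nb.all (pairTest L C.U e)) &&
    C.tree.check (leafTest L C.nb) C.U

/-- the result of `checkChart` in words -/
structure ChartOk (L : List Chart) (j : Nat) : Prop where
  K : (getC L j).K.strict (getC L j).U = true
  refl : ∃ e ∈ (getC L j).nb, e.c = j ∧ Mp.one.eqb e.a = true
  nb : ∀ e ∈ (getC L j).nb, e.a.ok = true ∧ e.c < L.length ∧
    hasC (getC L e.c).nb j e.a Mp.one = true ∧
    (e.c = j → e.a.eqb Mp.one = true ∨ e.a.free (getC L j).U = true)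
  pair : ∀ e ∈ (getC L j).nb, ∀ f ∈ (getC L j).nb, pairTest L (getC L j).U e f = true
  tree : (getC L j).tree.check (leafTest L (getC L j).nb) (getC L j).U = true

theorem chartOk_of_check {L : List Chart} {j : Nat} (h : checkChart L j = true) : ChartOk L j := by
  simp only [checkChart, Bool.and_eq_true, List.any_eq_true, List.all_eq_true, nbTest,
    decide_eq_true_eq, Bool.or_eq_true, Bool.not_eq_true', Nat.beq_eq] at h
  obtain ⟨⟨⟨⟨h1, h2⟩, h3⟩, h4⟩, h5⟩ := h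
  refine ⟨h1, ?_, ?_, h4, h5⟩
  · obtain ⟨e, he, h6, h7⟩ := h2
    exact ⟨e, he, h6, h7⟩
  · intro e he
    obtain ⟨⟨⟨h6, h7⟩, h8⟩, h9⟩ := h3 e he
    refine ⟨h6, h7, h8, fun hc => ?_⟩
    rcases h9 with h9 | h9
    · rw [hc] at h9
      simp at h9
    · exact h9

/-- the transitions -/
def Phi (D : Nat) (L : List Chart) (i j : Nat) : Set (E 3 ≃ᵃ[ℝ] E 3) :=
  {φ | ∃ e ∈ (getC L i).nb, e.c = j ∧ e.a.Is D φ}

theorem hasC_sound {nb : List Nb} {k : Nat} {a b : Mp} (h : hasC nb k a b = true) :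
    ∃ e ∈ nb, e.c = k ∧ (e.a.comp a).eqb b = true := by
  simp only [hasC, List.any_eq_true, Bool.and_eq_true, Nat.beq_eq] at h
  exact h

variable {D : Nat} {L : List Chart}

theorem Phi_symm (hD : 0 < D) (hL : ∀ j < L.length, ChartOk L j) {i j : Nat} (hi : i < L.length)
    {φ : E 3 ≃ᵃ[ℝ] E 3} (hφ : φ ∈ Phi D L i j) : φ.symm ∈ Phi D L j i := by
  obtain ⟨e, he, rfl, h⟩ := hφ
  obtain ⟨h1, h2, h3, -⟩ := (hL i hi).nb e he
  obtain ⟨f, hf, h4, h5⟩ := hasC_sound h3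
  refine ⟨f, hf, h4, ?_⟩
  exact Mp.comp_is hD (Mp.ok_iff h1).1 h5 h (Mp.one_is D) Nat.one_pos
    (AffineEquiv.self_trans_symm φ).symm

theorem Phi_trans (hD : 0 < D) (hL : ∀ j < L.length, ChartOk L j) {i j k : Nat}
    (hi : i < L.length) {φ ψ : E 3 ≃ᵃ[ℝ] E 3} (hφ : φ ∈ Phi D L i j) (hψ : ψ ∈ Phi D L j k)
    {x : E 3} (hx : x ∈ oBox D (getC L i).U) (hφx : φ x ∈ oBox D (getC L j).U)
    (hψx : ψ (φ x) ∈ oBox D (getC L k).U) : φ.trans ψ ∈ Phi D L i k := by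
  have hj : j < L.length := by
    obtain ⟨e, he, rfl, -⟩ := hφ
    exact ((hL i hi).nb e he).2.1
  obtain ⟨e, he, rfl, h⟩ := Phi_symm hD hL hi hφ
  obtain ⟨f, hf, rfl, h'⟩ := hψ
  have h1 := (hL j hj).pair e he f hf
  rw [pairTest, Bool.or_eq_true] at h1
  obtain ⟨e1, -, -, -⟩ := (hL j hj).nb e he
  obtain ⟨f1, -, -, -⟩ := (hL j hj).nb f hf
  rcases h1 with h1 | h1
  · exfalso
    have h2 : φ x ∈ oBox D (e.a.pre (getC L e.c).U) := by
      refine Mp.pre_sound e1 h ?_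
      rw [AffineEquiv.symm_apply_apply]
      exact hx
    have h3 : φ x ∈ oBox D (f.a.pre (getC L f.c).U) := Mp.pre_sound f1 h' hψx
    exact Bx.empty_sound h1 (Bx.inter_open (Bx.inter_open hφx h2) h3)
  · obtain ⟨g, hg, h2, h3⟩ := hasC_sound h1
    refine ⟨g, hg, h2, ?_⟩
    refine Mp.comp_is hD (Mp.ok_iff e1).1 h3 h h' (Mp.ok_iff f1).1 ?_
    ext1 y
    simp

theorem Phi_finite (hD : 0 < D) (hL : ∀ j < L.length, ChartOk L j) {i : Nat} (hi : i < L.length)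
    (j : Nat) : (Phi D L i j).Finite := by
  have h1 : Phi D L i j ⊆ ⋃ e ∈ {e : Nb | e ∈ (getC L i).nb},
      {φ : E 3 ≃ᵃ[ℝ] E 3 | e.a.ok = true ∧ e.a.Is D φ} := by
    rintro φ ⟨e, he, -, h⟩
    exact Set.mem_biUnion (show e ∈ {e : Nb | e ∈ (getC L i).nb} from he)
      ⟨((hL i hi).nb e he).1, h⟩
  refine Set.Finite.subset (Set.Finite.biUnion (List.finite_toSet _) fun e _ => ?_) h1
  refine Set.Subsingleton.finite ?_
  rintro φ ⟨h2, h3⟩ ψ ⟨-, h4⟩
  exact h3.unique hD (Mp.ok_iff h2).1 h4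

/-- the gluing data -/
def glueOf (hD : 0 < D) (hL : ∀ j < L.length, ChartOk L j) : GlueL 3 where
  I := Fin L.length
  finI := inferInstance
  U i := oBox D (getC L i).U
  Φ i j := Phi D L i j
  U_open i := isOpen_oBox D _
  Φ_fin i j := Phi_finite hD hL i.2 j
  Φ_det i j φ hφ := by
    obtain ⟨e, he, -, h⟩ := hφ
    exact h.det hD ((hL i i.2).nb e he).1
  Φ_refl i := by
    obtain ⟨e, he, h1, h2⟩ := (hL i i.2).refl
    exact ⟨e, he, h1, Mp.eqb_is Nat.one_pos h2 (Mp.one_is D)⟩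
  Φ_symm i j φ hφ := Phi_symm hD hL i.2 hφ
  Φ_trans i j k φ hφ ψ hψ x hx h1 h2 := Phi_trans hD hL i.2 hφ hψ hx h1 h2
  Φ_free i φ hφ x hx hfix := by
    obtain ⟨e, he, h1, h⟩ := hφ
    rcases ((hL i i.2).nb e he).2.2.2 h1 with h2 | h2
    · exact Mp.Is.unique hD Nat.one_pos
        (Mp.eqb_is (Mp.ok_iff ((hL i i.2).nb e he).1).1 h2 h) (Mp.one_is D)
    · exact (Mp.free_sound h h2 (Bx.open_subset D _ hx) hfix).elim
  K i := cBox D (getC L i).K
  K_comp i := isCompact_cBox hD _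
  K_sub i := fun x hx => Bx.strict_sound (hL i i.2).K hx
  K_cover i x hx := by
    have h1 := KTree.check_sound (D := D) (test := leafTest L (getC L i).nb)
      (Q := fun m (y : Fin 3 → ℝ) => ∃ e ∈ (getC L i).nb, ∀ φ : E 3 ≃ᵃ[ℝ] E 3, e.a.Is D φ →
        ∀ z : E 3, (fun k => z k) = y → φ z ∈ cBox D (getC L e.c).K) (by
        intro m B hB y hy
        unfold leafTest at hB
        cases hm : (getC L i).nb[m]? with
        | none => rw [hm] at hB; exact absurd hB (by simp)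
        | some e =>
          rw [hm] at hB
          have he : e ∈ (getC L i).nb := List.mem_of_getElem? hm
          refine ⟨e, he, fun φ hφ z hz => ?_⟩
          refine Mp.into_sound (Mp.ok_iff ((hL i i.2).nb e he).1).1 hφ hB ?_
          change (fun k => z k) ∈ B.real D
          rw [hz]
          exact hy) _ _ (hL i i.2).tree (fun k => x k) (Bx.open_subset D _ hx)
    obtain ⟨m, e, he, h2⟩ := h1
    obtain ⟨h3, h4, -⟩ := (hL i i.2).nb e he
    obtain ⟨φ, hφ⟩ := Mp.exists_is hD h3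
    exact ⟨⟨e.c, h4⟩, φ, ⟨e, he, rfl, hφ⟩, h2 φ hφ x rfl⟩

/-! ### The closed path -/

/-- the map has a fixed coordinate between `l` and `u` -/
def fix1 (d : Nat) (n m l u : Int) : Bool :=
  (decide (0 < ((d : Int) - n) * l - m) && decide (((d : Int) - n) * u - m < 0)) ||
    (decide (((d : Int) - n) * l - m < 0) && decide (0 < ((d : Int) - n) * u - m))

theorem fix1_sound {d : Nat} {n m l u : Int} (hlu : l < u) (hc : fix1 d n m l u = true) :
    ∃ x : ℝ, ((l : ℝ) < x ∧ x < (u : ℝ)) ∧ (d : ℝ) * x = n * x + m := by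
  simp only [fix1, Bool.and_eq_true, Bool.or_eq_true, decide_eq_true_eq] at hc
  have hlu' : (l : ℝ) < u := by exact_mod_cast hlu
  have key : ∀ t : ℝ, ((0 < t * l - m ∧ t * u - m < 0) ∨ (t * l - m < 0 ∧ 0 < t * u - m)) →
      ∃ x : ℝ, ((l : ℝ) < x ∧ x < (u : ℝ)) ∧ t * x = m := by
    intro t ht
    have ht0 : t ≠ 0 := by
      rintro rfl
      rcases ht with ⟨h1, h2⟩ | ⟨h1, h2⟩ <;> linarith
    refine ⟨m / t, ⟨?_, ?_⟩, mul_div_cancel₀ _ ht0⟩
    · by_contra h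
      rw [not_lt] at h
      have e : t * (m / t) = m := mul_div_cancel₀ _ ht0
      rcases ht with ⟨h1, h2⟩ | ⟨h1, h2⟩
      · rcases le_total 0 t with h3 | h3
        · nlinarith
        · nlinarith
      · rcases le_total 0 t with h3 | h3
        · nlinarith
        · nlinarith
    · by_contra h
      rw [not_lt] at h
      have e : t * (m / t) = m := mul_div_cancel₀ _ ht0
      rcases ht with ⟨h1, h2⟩ | ⟨h1, h2⟩
      · rcases le_total 0 t with h3 | h3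
        · nlinarith
        · nlinarith
      · rcases le_total 0 t with h3 | h3
        · nlinarith
        · nlinarith
  obtain ⟨x, hx, h1⟩ := key ((d : ℝ) - n) (by
    rcases hc with ⟨h1, h2⟩ | ⟨h1, h2⟩
    · exact Or.inl ⟨by exact_mod_cast h1, by exact_mod_cast h2⟩
    · exact Or.inr ⟨by exact_mod_cast h1, by exact_mod_cast h2⟩)
  exact ⟨x, hx, by linarith⟩

/-- the map expands, and `h` and its preimage are in the interval -/
def exp1 (d : Nat) (n m l u h : Int) : Bool :=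
  decide ((d : Int) < n) && (decide (l < h) && decide (h < u)) &&
    (decide (n * l < d * h - m) && decide (d * h - m < n * u)) &&
    (decide (d * h - m < n * h) || decide (n * h < d * h - m))

theorem exp1_sound {d : Nat} (hd : 0 < d) {n m l u h : Int} (hc : exp1 d n m l u h = true) :
    1 < (n : ℝ) / d ∧ ((l : ℝ) < h ∧ (h : ℝ) < u) ∧
      ∃ x : ℝ, ((l : ℝ) < x ∧ x < (u : ℝ)) ∧ x ≠ h ∧ (d : ℝ) * h = n * x + m := by
  simp only [exp1, Bool.and_eq_true, Bool.or_eq_true, decide_eq_true_eq] at hc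
  obtain ⟨⟨⟨h1, h2, h3⟩, h4, h5⟩, h6⟩ := hc
  have hd' : (0 : ℝ) < d := by exact_mod_cast hd
  have h1' : (d : ℝ) < n := by exact_mod_cast h1
  have hn : (0 : ℝ) < n := hd'.trans h1'
  have h4' : (n : ℝ) * l < d * h - m := by exact_mod_cast h4
  have h5' : (d : ℝ) * h - m < n * u := by exact_mod_cast h5
  have e : (n : ℝ) * ((d * h - m) / n) = d * h - m := mul_div_cancel₀ _ hn.ne'
  refine ⟨(one_lt_div hd').2 h1', ⟨by exact_mod_cast h2, by exact_mod_cast h3⟩,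
    ((d : ℝ) * h - m) / n, ⟨?_, ?_⟩, ?_, by linarith⟩
  · rw [lt_div_iff₀ hn]
    linarith
  · rw [div_lt_iff₀ hn]
    linarith
  · intro h7
    rw [h7] at e
    rcases h6 with h6 | h6
    · have : (d : ℝ) * h - m < n * h := by exact_mod_cast h6
      linarith
    · have : (n : ℝ) * h < d * h - m := by exact_mod_cast h6
      linarith

/-- the loop test: coordinate `0`, `1` or `2` is expanded -/
def Mp.loop (a : Mp) (U : Bx) (h : Int) : Nat → Bool
  | 0 => exp1 a.d a.n0 a.m0 U.l0 U.h0 h && (fix1 a.d a.n1 a.m1 U.l1 U.h1 &&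
      fix1 a.d a.n2 a.m2 U.l2 U.h2)
  | 1 => exp1 a.d a.n1 a.m1 U.l1 U.h1 h && (fix1 a.d a.n0 a.m0 U.l0 U.h0 &&
      fix1 a.d a.n2 a.m2 U.l2 U.h2)
  | _ => exp1 a.d a.n2 a.m2 U.l2 U.h2 h && (fix1 a.d a.n0 a.m0 U.l0 U.h0 &&
      fix1 a.d a.n1 a.m1 U.l1 U.h1)

/-- the point with given coordinates over `D` -/
noncomputable def pt (D : Nat) (x y z : ℝ) : E 3 := WithLp.toLp 2 ![x / D, y / D, z / D]

theorem pt_coord {D : Nat} (hD : 0 < D) (x y z : ℝ) :
    (D : ℝ) * pt D x y z 0 = x ∧ (D : ℝ) * pt D x y z 1 = y ∧ (D : ℝ) * pt D x y z 2 = z := by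
  have hD' : (D : ℝ) ≠ 0 := by exact_mod_cast hD.ne'
  refine ⟨?_, ?_, ?_⟩
  · exact mul_div_cancel₀ _ hD'
  · exact mul_div_cancel₀ _ hD'
  · exact mul_div_cancel₀ _ hD'

theorem mem_oBox_pt {D : Nat} (hD : 0 < D) {B : Bx} {x y z : ℝ}
    (h0 : (B.l0 : ℝ) < x ∧ x < (B.h0 : ℝ)) (h1 : (B.l1 : ℝ) < y ∧ y < (B.h1 : ℝ))
    (h2 : (B.l2 : ℝ) < z ∧ z < (B.h2 : ℝ)) : pt D x y z ∈ oBox D B := by
  obtain ⟨e0, e1, e2⟩ := pt_coord hD x y z
  refine Bx.mem_open.2 ⟨?_, ?_, ?_⟩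
  · rw [e0]; exact h0
  · rw [e1]; exact h1
  · rw [e2]; exact h2

/-- open boxes are convex -/
theorem segment_oBox {D : Nat} {B : Bx} {x y : E 3} (hx : x ∈ oBox D B) (hy : y ∈ oBox D B)
    {r : ℝ} (h0 : 0 ≤ r) (h1 : r ≤ 1) : x + r • (y - x) ∈ oBox D B := by
  have key : ∀ (l h u v : ℝ), l < u → u < h → l < v → v < h →
      l < u + r * (v - u) ∧ u + r * (v - u) < h := by
    intro l h u v a b c d
    have e1 : u + r * (v - u) - l = (1 - r) * (u - l) + r * (v - l) := by ring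
    have e2 : h - (u + r * (v - u)) = (1 - r) * (h - u) + r * (h - v) := by ring
    rcases h0.eq_or_lt with h2 | h2
    · rw [← h2]
      constructor <;> linarith
    · have p1 : 0 < r * (v - l) := mul_pos h2 (by linarith)
      have p2 : 0 < r * (h - v) := mul_pos h2 (by linarith)
      have p3 : 0 ≤ (1 - r) * (u - l) := mul_nonneg (by linarith) (by linarith)
      have p4 : 0 ≤ (1 - r) * (h - u) := mul_nonneg (by linarith) (by linarith)
      constructor <;> linarith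
  obtain ⟨⟨a0, b0⟩, ⟨a1, b1⟩, a2, b2⟩ := Bx.mem_open.1 hx
  obtain ⟨⟨c0, d0⟩, ⟨c1, d1⟩, c2, d2⟩ := Bx.mem_open.1 hy
  have e : ∀ k, (D : ℝ) * (x + r • (y - x)) k = D * x k + r * (D * y k - D * x k) := by
    intro k
    have : (x + r • (y - x)) k = x k + r * (y k - x k) := rfl
    rw [this]
    ring
  refine Bx.mem_open.2 ⟨?_, ?_, ?_⟩
  · rw [e]; exact key _ _ _ _ a0 b0 c0 d0
  · rw [e]; exact key _ _ _ _ a1 b1 c1 d1
  · rw [e]; exact key _ _ _ _ a2 b2 c2 d2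

/-- a loop of one step -/
theorem steps_of {G : GlueL 3} {i : G.I} {φ : E 3 ≃ᵃ[ℝ] E 3} (hφ : φ ∈ G.Φ i i) {y₀ y₁ : E 3}
    (h0 : y₀ ∈ G.U i) (h1 : φ y₁ = y₀) {lam : ℝ} (h2 : φ.linear (y₁ - y₀) = lam • (y₁ - y₀))
    (hseg : ∀ r : ℝ, 0 ≤ r → r ≤ 1 → y₀ + r • (y₁ - y₀) ∈ G.U i) :
    G.Steps i y₀ (y₁ - y₀) (1 + 0) i y₀ (lam • (y₁ - y₀)) := by
  have e : φ (y₀ + (1 : ℝ) • (y₁ - y₀)) = y₀ := by
    rw [one_smul, add_sub_cancel, h1]
  have h3 : G.Steps i (φ (y₀ + (1 : ℝ) • (y₁ - y₀))) (φ.linear (y₁ - y₀)) 0 i y₀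
      (lam • (y₁ - y₀)) := by
    rw [e, h2]
    exact GlueL.Steps.nil i y₀ _
  exact GlueL.Steps.cons φ zero_le_one hseg hφ (by rw [e]; exact h0) h3

theorem loop_points {D : Nat} (hD : 0 < D) {a : Mp} (ha : a.ok = true) {φ : E 3 ≃ᵃ[ℝ] E 3}
    (hφ : a.Is D φ) {U : Bx} (hU : U.l0 < U.h0 ∧ U.l1 < U.h1 ∧ U.l2 < U.h2) {h : Int} {k : Nat}
    (hc : a.loop U h k = true) :
    ∃ (y₀ y₁ : E 3) (lam : ℝ), y₀ ∈ oBox D U ∧ y₁ ∈ oBox D U ∧ φ y₁ = y₀ ∧ y₁ - y₀ ≠ 0 ∧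
      1 < lam ∧ φ.linear (y₁ - y₀) = lam • (y₁ - y₀) := by
  obtain ⟨hd, -⟩ := Mp.ok_iff ha
  have hD' : (0 : ℝ) < D := by exact_mod_cast hD
  have hd' : (0 : ℝ) < a.d := by exact_mod_cast hd
  have canc : ∀ u v : ℝ, (a.d : ℝ) * (D * u) = a.d * (D * v) → u = v := fun u v h =>
    mul_left_cancel₀ hD'.ne' (mul_left_cancel₀ hd'.ne' h)
  have hzero : ∀ u v : ℝ, (D : ℝ) * u = D * v → u - v = 0 := fun u v h => by
    rw [mul_left_cancel₀ hD'.ne' h, sub_self]
  obtain ⟨hU0, hU1, hU2⟩ := hU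
  match k, hc with
  | 0, hc =>
    simp only [Mp.loop, Bool.and_eq_true] at hc
    obtain ⟨c0, c1, c2⟩ := hc
    obtain ⟨hlam, hh, x, hx, hxh, ex⟩ := exp1_sound hd c0
    obtain ⟨y, hy, ey⟩ := fix1_sound hU1 c1
    obtain ⟨z, hz, ez⟩ := fix1_sound hU2 c2
    obtain ⟨p0, p1, p2⟩ := pt_coord hD h y z
    obtain ⟨q0, q1, q2⟩ := pt_coord hD x y z
    obtain ⟨f0, f1, f2⟩ := hφ (pt D x y z)
    have z1 : (pt D x y z - pt D h y z) 1 = 0 := hzero _ _ (q1.trans p1.symm)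
    have z2 : (pt D x y z - pt D h y z) 2 = 0 := hzero _ _ (q2.trans p2.symm)
    refine ⟨pt D h y z, pt D x y z, (a.n0 : ℝ) / a.d, mem_oBox_pt hD hh hy hz,
      mem_oBox_pt hD hx hy hz, ?_, ?_, hlam, ?_⟩
    · refine E3_ext (canc _ _ ?_) (canc _ _ ?_) (canc _ _ ?_)
      · rw [f0, q0, p0, ← ex]
      · rw [f1, q1, p1, ← ey]
      · rw [f2, q2, p2, ← ez]
    · intro h7
      apply hxh
      have h8 : (pt D x y z - pt D h y z) 0 = 0 := by rw [h7]; rfl
      have h9 : pt D x y z 0 - pt D h y z 0 = 0 := h8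
      rw [← q0, ← p0, sub_eq_zero.1 h9]
    · refine E3_ext ?_ ?_ ?_
      · exact hφ.linear hD hd _ 0
      · rw [hφ.linear hD hd _ 1]
        change _ = (a.n0 : ℝ) / a.d * (pt D x y z - pt D h y z) 1
        rw [z1, mul_zero, mul_zero]
      · rw [hφ.linear hD hd _ 2]
        change _ = (a.n0 : ℝ) / a.d * (pt D x y z - pt D h y z) 2
        rw [z2, mul_zero, mul_zero]
  | 1, hc =>
    simp only [Mp.loop, Bool.and_eq_true] at hc
    obtain ⟨c0, c1, c2⟩ := hc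
    obtain ⟨hlam, hh, x, hx, hxh, ex⟩ := exp1_sound hd c0
    obtain ⟨y, hy, ey⟩ := fix1_sound hU0 c1
    obtain ⟨z, hz, ez⟩ := fix1_sound hU2 c2
    obtain ⟨p0, p1, p2⟩ := pt_coord hD y h z
    obtain ⟨q0, q1, q2⟩ := pt_coord hD y x z
    obtain ⟨f0, f1, f2⟩ := hφ (pt D y x z)
    have z1 : (pt D y x z - pt D y h z) 0 = 0 := hzero _ _ (q0.trans p0.symm)
    have z2 : (pt D y x z - pt D y h z) 2 = 0 := hzero _ _ (q2.trans p2.symm)
    refine ⟨pt D y h z, pt D y x z, (a.n1 : ℝ) / a.d, mem_oBox_pt hD hy hh hz,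
      mem_oBox_pt hD hy hx hz, ?_, ?_, hlam, ?_⟩
    · refine E3_ext (canc _ _ ?_) (canc _ _ ?_) (canc _ _ ?_)
      · rw [f0, q0, p0, ← ey]
      · rw [f1, q1, p1, ← ex]
      · rw [f2, q2, p2, ← ez]
    · intro h7
      apply hxh
      have h8 : (pt D y x z - pt D y h z) 1 = 0 := by rw [h7]; rfl
      have h9 : pt D y x z 1 - pt D y h z 1 = 0 := h8
      rw [← q1, ← p1, sub_eq_zero.1 h9]
    · refine E3_ext ?_ ?_ ?_
      · rw [hφ.linear hD hd _ 0]
        change _ = (a.n1 : ℝ) / a.d * (pt D y x z - pt D y h z) 0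
        rw [z1, mul_zero, mul_zero]
      · exact hφ.linear hD hd _ 1
      · rw [hφ.linear hD hd _ 2]
        change _ = (a.n1 : ℝ) / a.d * (pt D y x z - pt D y h z) 2
        rw [z2, mul_zero, mul_zero]
  | k + 2, hc =>
    simp only [Mp.loop, Bool.and_eq_true] at hc
    obtain ⟨c0, c1, c2⟩ := hc
    obtain ⟨hlam, hh, x, hx, hxh, ex⟩ := exp1_sound hd c0
    obtain ⟨y, hy, ey⟩ := fix1_sound hU0 c1
    obtain ⟨z, hz, ez⟩ := fix1_sound hU1 c2
    obtain ⟨p0, p1, p2⟩ := pt_coord hD y z h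
    obtain ⟨q0, q1, q2⟩ := pt_coord hD y z x
    obtain ⟨f0, f1, f2⟩ := hφ (pt D y z x)
    have z1 : (pt D y z x - pt D y z h) 0 = 0 := hzero _ _ (q0.trans p0.symm)
    have z2 : (pt D y z x - pt D y z h) 1 = 0 := hzero _ _ (q1.trans p1.symm)
    refine ⟨pt D y z h, pt D y z x, (a.n2 : ℝ) / a.d, mem_oBox_pt hD hy hz hh,
      mem_oBox_pt hD hy hz hx, ?_, ?_, hlam, ?_⟩
    · refine E3_ext (canc _ _ ?_) (canc _ _ ?_) (canc _ _ ?_)
      · rw [f0, q0, p0, ← ey]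
      · rw [f1, q1, p1, ← ez]
      · rw [f2, q2, p2, ← ex]
    · intro h7
      apply hxh
      have h8 : (pt D y z x - pt D y z h) 2 = 0 := by rw [h7]; rfl
      have h9 : pt D y z x 2 - pt D y z h 2 = 0 := h8
      rw [← q2, ← p2, sub_eq_zero.1 h9]
    · refine E3_ext ?_ ?_ ?_
      · rw [hφ.linear hD hd _ 0]
        change _ = (a.n2 : ℝ) / a.d * (pt D y z x - pt D y z h) 0
        rw [z1, mul_zero, mul_zero]
      · rw [hφ.linear hD hd _ 1]
        change _ = (a.n2 : ℝ) / a.d * (pt D y z x - pt D y z h) 1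
        rw [z2, mul_zero, mul_zero]
      · exact hφ.linear hD hd _ 2

/-- the loop test for the chart `i`, with the transition number `m` -/
def checkLoop (L : List Chart) (i m k : Nat) (h : Int) : Bool :=
  let C := getC L i
  decide (i < L.length) && (decide (C.U.l0 < C.U.h0) && (decide (C.U.l1 < C.U.h1) &&
    decide (C.U.l2 < C.U.h2))) &&
    match C.nb[m]? with
    | none => false
    | some e => Nat.beq e.c i && e.a.loop C.U h k

/-- **The conclusion**: exact box data which pass all checks give a closed unimodular affine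
3-manifold which is not complete, so the negated frozen statement holds. -/
theorem not_complete_of_check {D : Nat} (hD : 0 < D) {L : List Chart}
    (hL : ∀ j < L.length, checkChart L j = true) {i m k : Nat} {h : Int}
    (hloop : checkLoop L i m k h = true) :
    ¬ (∀ (n : ℕ) (M : Type) [TopologicalSpace M] [T2Space M] [CompactSpace M]
      [ChartedSpace (EuclideanSpace ℝ (Fin n)) M],
      (∀ e ∈ atlas (EuclideanSpace ℝ (Fin n)) M, ∀ e' ∈ atlas (EuclideanSpace ℝ (Fin n)) M,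
        ∀ y ∈ (e.symm.trans e').source,
          ∃ A : EuclideanSpace ℝ (Fin n) ≃ᵃ[ℝ] EuclideanSpace ℝ (Fin n),
            LinearMap.det (A.linear : EuclideanSpace ℝ (Fin n) →ₗ[ℝ] EuclideanSpace ℝ (Fin n)) = 1 ∧
            ∀ᶠ z in nhds y, (e.symm.trans e') z = A z) →
      ∀ (x : M) (v : EuclideanSpace ℝ (Fin n)),
        ∃ γ : ℝ → M, Continuous γ ∧ γ 0 = x ∧
          (∀ᶠ s in nhds (0 : ℝ),
            γ s ∈ (chartAt (EuclideanSpace ℝ (Fin n)) x).source ∧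
            chartAt (EuclideanSpace ℝ (Fin n)) x (γ s)
              = chartAt (EuclideanSpace ℝ (Fin n)) x x + s • v) ∧
          ∀ t : ℝ, ∃ p w : EuclideanSpace ℝ (Fin n),
            ∀ᶠ s in nhds t,
              γ s ∈ (chartAt (EuclideanSpace ℝ (Fin n)) (γ t)).source ∧
              chartAt (EuclideanSpace ℝ (Fin n)) (γ t) (γ s) = p + s • w) := by
  have hL' : ∀ j < L.length, ChartOk L j := fun j hj => chartOk_of_check (hL j hj)
  simp only [checkLoop, Bool.and_eq_true, decide_eq_true_eq] at hloop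
  obtain ⟨⟨hi, hU⟩, h1⟩ := hloop
  cases hm : (getC L i).nb[m]? with
  | none => rw [hm] at h1; exact absurd h1 (by simp)
  | some e =>
    rw [hm] at h1
    simp only [Bool.and_eq_true, Nat.beq_eq] at h1
    obtain ⟨h2, h3⟩ := h1
    have he : e ∈ (getC L i).nb := List.mem_of_getElem? hm
    have h4 := ((hL' i hi).nb e he).1
    obtain ⟨φ, hφ⟩ := Mp.exists_is hD h4
    obtain ⟨y₀, y₁, lam, g0, g1, g2, g3, g4, g5⟩ := loop_points hD h4 hφ hU h3
    exact GlueL.not_complete (glueOf hD hL') (i₀ := ⟨i, hi⟩) g0 g3 g4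
      (steps_of (G := glueOf hD hL') (i := ⟨i, hi⟩) ⟨e, he, h2, hφ⟩ g0 g2 g5
        fun r h0 h1 => segment_oBox g0 g1 h0 h1)

end Pool.Agent.MkC
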