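import Pool.Agent.MkC.Box

/-!
# A faster form of the checks of `Box.lean`

The overlaps of a chart with its neighbours are computed once, as boxes of natural numbers, and
only unordered pairs of transitions are compared.
-/

set_option autoImplicit false

open Set

namespace Pool.Agent.MkC

/-- evaluate a number, then continue -/
def fN (n : Nat) (k : Nat → Bool) : Bool :=
  match n with
  | 0 => k 0
  | m + 1 => k (Nat.succ m)

theorem fN_eq (n : Nat) (k : Nat → Bool) : fN n k = k n := by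
  cases n <;> rfl

/-- A box relative to the lower corner of a chart. -/
structure NBx where
  a0 : Nat
  b0 : Nat
  a1 : Nat
  b1 : Nat
  a2 : Nat
  b2 : Nat

/-- the part of `U` in the box `P`, relative to the lower corner of `U` -/
def clipN (U P : Bx) : NBx where
  a0 := (P.l0 - U.l0).toNat
  b0 := min (P.h0 - U.l0).toNat (U.h0 - U.l0).toNat
  a1 := (P.l1 - U.l1).toNat
  b1 := min (P.h1 - U.l1).toNat (U.h1 - U.l1).toNat
  a2 := (P.l2 - U.l2).toNat
  b2 := min (P.h2 - U.l2).toNat (U.h2 - U.l2).toNat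

/-- evaluate a box, then continue -/
def fB (B : NBx) (k : NBx → Bool) : Bool :=
  fN B.a0 fun a0 => fN B.b0 fun b0 => fN B.a1 fun a1 => fN B.b1 fun b1 =>
    fN B.a2 fun a2 => fN B.b2 fun b2 => k ⟨a0, b0, a1, b1, a2, b2⟩

theorem fB_eq (B : NBx) (k : NBx → Bool) : fB B k = k B := by
  simp only [fB, fN_eq]

/-- the open boxes do not meet -/
def NBx.disj (A B : NBx) : Bool :=
  Nat.ble A.b0 B.a0 || (Nat.ble B.b0 A.a0 || (Nat.ble A.b1 B.a1 || (Nat.ble B.b1 A.a1 ||
    (Nat.ble A.b2 B.a2 || Nat.ble B.b2 A.a2))))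

theorem clip1_sound {l h p q : Int} {x : ℝ} (h1 : (l : ℝ) < x) (h2 : x < (h : ℝ))
    (h3 : (p : ℝ) < x) (h4 : x < (q : ℝ)) :
    (((p - l).toNat : Nat) : ℝ) < x - l ∧ x - l < ((min (q - l).toNat (h - l).toNat : Nat) : ℝ) := by
  have e : ∀ z : Int, (((z - l).toNat : Nat) : ℝ) = max ((z : ℝ) - l) 0 := by
    intro z
    have h5 : (((z - l).toNat : Nat) : Int) = max (z - l) 0 := Int.toNat_eq_max _
    have h6 : ((((z - l).toNat : Nat) : Int) : ℝ) = ((max (z - l) 0 : Int) : ℝ) := by rw [h5]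
    rw [Int.cast_natCast] at h6
    rw [h6]
    push_cast
    rfl
  rw [Nat.cast_min, e, e, e]
  refine ⟨max_lt (by linarith) (by linarith), lt_min ?_ ?_⟩
  · exact lt_max_of_lt_left (by linarith)
  · exact lt_max_of_lt_left (by linarith)

theorem disj_sound {D : Nat} {U P Q : Bx} (h : (clipN U P).disj (clipN U Q) = true) {x : E 3}
    (hU : x ∈ oBox D U) (hP : x ∈ oBox D P) (hQ : x ∈ oBox D Q) : False := by
  obtain ⟨⟨u0, v0⟩, ⟨u1, v1⟩, u2, v2⟩ := Bx.mem_open.1 hU
  obtain ⟨⟨p0, q0⟩, ⟨p1, q1⟩, p2, q2⟩ := Bx.mem_open.1 hP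
  obtain ⟨⟨r0, s0⟩, ⟨r1, s1⟩, r2, s2⟩ := Bx.mem_open.1 hQ
  have a0 := clip1_sound u0 v0 p0 q0
  have a1 := clip1_sound u1 v1 p1 q1
  have a2 := clip1_sound u2 v2 p2 q2
  have b0 := clip1_sound u0 v0 r0 s0
  have b1 := clip1_sound u1 v1 r1 s1
  have b2 := clip1_sound u2 v2 r2 s2
  simp only [NBx.disj, Bool.or_eq_true, Nat.ble_eq, clipN] at h
  rcases h with h | h | h | h | h | h
  · have h' : ((min (P.h0 - U.l0).toNat (U.h0 - U.l0).toNat : Nat) : ℝ) ≤
        (((Q.l0 - U.l0).toNat : Nat) : ℝ) := by exact_mod_cast h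
    linarith [a0.2, b0.1]
  · have h' : ((min (Q.h0 - U.l0).toNat (U.h0 - U.l0).toNat : Nat) : ℝ) ≤
        (((P.l0 - U.l0).toNat : Nat) : ℝ) := by exact_mod_cast h
    linarith [b0.2, a0.1]
  · have h' : ((min (P.h1 - U.l1).toNat (U.h1 - U.l1).toNat : Nat) : ℝ) ≤
        (((Q.l1 - U.l1).toNat : Nat) : ℝ) := by exact_mod_cast h
    linarith [a1.2, b1.1]
  · have h' : ((min (Q.h1 - U.l1).toNat (U.h1 - U.l1).toNat : Nat) : ℝ) ≤
        (((P.l1 - U.l1).toNat : Nat) : ℝ) := by exact_mod_cast h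
    linarith [b1.2, a1.1]
  · have h' : ((min (P.h2 - U.l2).toNat (U.h2 - U.l2).toNat : Nat) : ℝ) ≤
        (((Q.l2 - U.l2).toNat : Nat) : ℝ) := by exact_mod_cast h
    linarith [a2.2, b2.1]
  · have h' : ((min (Q.h2 - U.l2).toNat (U.h2 - U.l2).toNat : Nat) : ℝ) ≤
        (((P.l2 - U.l2).toNat : Nat) : ℝ) := by exact_mod_cast h
    linarith [b2.2, a2.1]

/-- a transition with its overlap -/
structure NbB where
  e : Nb
  B : NBx

/-- compute all overlaps, then continue -/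
def boxes (L : List Chart) (U : Bx) : List Nb → (List NbB → Bool) → Bool
  | [], k => k []
  | e :: t, k => fB (clipN U (e.a.pre (getC L e.c).U)) fun B =>
      boxes L U t fun l => k (⟨e, B⟩ :: l)

theorem boxes_eq (L : List Chart) (U : Bx) : ∀ (nb : List Nb) (k : List NbB → Bool),
    boxes L U nb k = k (nb.map fun e => ⟨e, clipN U (e.a.pre (getC L e.c).U)⟩)
  | [], k => rfl
  | e :: t, k => by
    rw [boxes, fB_eq, boxes_eq L U t]
    rfl

/-- one transition against a list -/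
def pairRow (N : List Nb) (p : NbB) : List NbB → Bool
  | [] => true
  | q :: t => (p.B.disj q.B || hasC N q.e.c p.e.a q.e.a) && pairRow N p t

/-- all pairs -/
def pairsOk (L : List Chart) : List NbB → Bool
  | [] => true
  | p :: t => pairRow (getC L p.e.c).nb p t && pairsOk L t

/-- all conditions of the chart `j`, fast form -/
def checkFast (L : List Chart) (j : Nat) : Bool :=
  let C := getC L j
  C.K.strict C.U && (C.nb.any fun e => Nat.beq e.c j && Mp.one.eqb e.a) &&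
    C.nb.all (nbTest L j C.U) && boxes L C.U C.nb (pairsOk L) &&
    C.tree.check (leafTest L C.nb) C.U

/-- the pair condition -/
def PairP (L : List Chart) (U : Bx) (e f : Nb) : Prop :=
  (clipN U (e.a.pre (getC L e.c).U)).disj (clipN U (f.a.pre (getC L f.c).U)) = true ∨
    hasC (getC L e.c).nb f.c e.a f.a = true

theorem pairRow_sound {N : List Nb} {p : NbB} : ∀ {l : List NbB}, pairRow N p l = true →
    ∀ q ∈ l, p.B.disj q.B = true ∨ hasC N q.e.c p.e.a q.e.a = true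
  | [], _, q, hq => by simp at hq
  | r :: t, h, q, hq => by
    simp only [pairRow, Bool.and_eq_true, Bool.or_eq_true] at h
    rcases List.mem_cons.1 hq with rfl | hq
    · exact h.1
    · exact pairRow_sound h.2 q hq

theorem pairsOk_sound {L : List Chart} {U : Bx} : ∀ {nb : List Nb},
    pairsOk L (nb.map fun e => ⟨e, clipN U (e.a.pre (getC L e.c).U)⟩) = true →
    nb.Pairwise (PairP L U)
  | [], _ => List.Pairwise.nil
  | e :: t, h => by
    simp only [List.map_cons, pairsOk, Bool.and_eq_true] at h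
    refine List.Pairwise.cons ?_ (pairsOk_sound h.2)
    intro f hf
    exact pairRow_sound h.1 ⟨f, clipN U (f.a.pre (getC L f.c).U)⟩
      (List.mem_map.2 ⟨f, hf, rfl⟩)

/-- the result of `checkFast` in words -/
structure ChartOkF (L : List Chart) (j : Nat) : Prop where
  K : (getC L j).K.strict (getC L j).U = true
  refl : ∃ e ∈ (getC L j).nb, e.c = j ∧ Mp.one.eqb e.a = true
  nb : ∀ e ∈ (getC L j).nb, e.a.ok = true ∧ e.c < L.length ∧
    hasC (getC L e.c).nb j e.a Mp.one = true ∧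
    (e.c = j → e.a.eqb Mp.one = true ∨ e.a.free (getC L j).U = true)
  pair : (getC L j).nb.Pairwise (PairP L (getC L j).U)
  tree : (getC L j).tree.check (leafTest L (getC L j).nb) (getC L j).U = true

theorem chartOkF_of_check {L : List Chart} {j : Nat} (h : checkFast L j = true) :
    ChartOkF L j := by
  simp only [checkFast, boxes_eq, Bool.and_eq_true, List.any_eq_true, List.all_eq_true, nbTest,
    decide_eq_true_eq, Bool.or_eq_true, Bool.not_eq_true', Nat.beq_eq] at h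
  obtain ⟨⟨⟨⟨h1, h2⟩, h3⟩, h4⟩, h5⟩ := h
  refine ⟨h1, ?_, ?_, pairsOk_sound h4, h5⟩
  · obtain ⟨e, he, h6, h7⟩ := h2
    exact ⟨e, he, h6, h7⟩
  · intro e he
    obtain ⟨⟨⟨h6, h7⟩, h8⟩, h9⟩ := h3 e he
    refine ⟨h6, h7, h8, fun hc => ?_⟩
    rcases h9 with h9 | h9
    · rw [hc] at h9
      simp at h9
    · exact h9

variable {D : Nat} {L : List Chart}

theorem PhiF_symm (hD : 0 < D) (hL : ∀ j < L.length, ChartOkF L j) {i j : Nat} (hi : i < L.length)
    {φ : E 3 ≃ᵃ[ℝ] E 3} (hφ : φ ∈ Phi D L i j) : φ.symm ∈ Phi D L j i := by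
  obtain ⟨e, he, rfl, h⟩ := hφ
  obtain ⟨h1, h2, h3, -⟩ := (hL i hi).nb e he
  obtain ⟨f, hf, h4, h5⟩ := hasC_sound h3
  refine ⟨f, hf, h4, ?_⟩
  exact Mp.comp_is hD (Mp.ok_iff h1).1 h5 h (Mp.one_is D) Nat.one_pos
    (AffineEquiv.self_trans_symm φ).symm

/-- the meaning of the pair condition -/
def PairS (D : Nat) (L : List Chart) (j : Nat) (e f : Nb) : Prop :=
  ∀ α β : E 3 ≃ᵃ[ℝ] E 3, e.a.Is D α → f.a.Is D β → ∀ x ∈ oBox D (getC L j).U,
    α x ∈ oBox D (getC L e.c).U → β x ∈ oBox D (getC L f.c).U →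
      α.symm.trans β ∈ Phi D L e.c f.c ∧ β.symm.trans α ∈ Phi D L f.c e.c

theorem pairS_of (hD : 0 < D) (hL : ∀ j < L.length, ChartOkF L j) {j : Nat} (hj : j < L.length)
    {e f : Nb} (he : e ∈ (getC L j).nb) (hf : f ∈ (getC L j).nb)
    (h : PairP L (getC L j).U e f) : PairS D L j e f := by
  intro α β hα hβ x hx hαx hβx
  obtain ⟨e1, e2, -, -⟩ := (hL j hj).nb e he
  obtain ⟨f1, f2, -, -⟩ := (hL j hj).nb f hf
  rcases h with h | h
  · exact (disj_sound h hx (Mp.pre_sound e1 hα hαx) (Mp.pre_sound f1 hβ hβx)).elim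
  · obtain ⟨g, hg, h2, h3⟩ := hasC_sound h
    have h4 : α.symm.trans β ∈ Phi D L e.c f.c := by
      refine ⟨g, hg, h2, ?_⟩
      refine Mp.comp_is hD (Mp.ok_iff e1).1 h3 hα hβ (Mp.ok_iff f1).1 ?_
      ext1 y
      simp
    refine ⟨h4, ?_⟩
    have h5 := PhiF_symm hD hL e2 h4
    have h6 : (α.symm.trans β).symm = β.symm.trans α := by
      ext1 y
      rfl
    rwa [h6] at h5

theorem PhiF_refl {D : Nat} {i : Nat} (hL : ChartOkF L i) :
    AffineEquiv.refl ℝ (E 3) ∈ Phi D L i i := by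
  obtain ⟨e, he, h1, h2⟩ := hL.refl
  exact ⟨e, he, h1, Mp.eqb_is Nat.one_pos h2 (Mp.one_is D)⟩

theorem pairS_all (hD : 0 < D) (hL : ∀ j < L.length, ChartOkF L j) {j : Nat} (hj : j < L.length) :
    ∀ e ∈ (getC L j).nb, ∀ f ∈ (getC L j).nb, PairS D L j e f := by
  have h0 : (getC L j).nb.Pairwise (PairS D L j) := by
    refine List.Pairwise.imp_of_mem ?_ (hL j hj).pair
    intro e f he hf h
    exact pairS_of hD hL hj he hf h
  have hs : Std.Symm (PairS D L j) :=
    ⟨fun e f h α β hα hβ x hx h1 h2 => (h β α hβ hα x hx h2 h1).symm⟩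
  intro e he f hf
  refine List.Pairwise.forall_of_forall (R := PairS D L j) ?_ h0 he hf
  · intro e he α β hα hβ x hx h1 h2
    obtain ⟨e1, e2, -, -⟩ := (hL j hj).nb e he
    have h3 : α = β := hα.unique hD (Mp.ok_iff e1).1 hβ
    subst h3
    rw [AffineEquiv.symm_trans_self]
    exact ⟨PhiF_refl (hL _ e2), PhiF_refl (hL _ e2)⟩

theorem PhiF_trans (hD : 0 < D) (hL : ∀ j < L.length, ChartOkF L j) {i j k : Nat}
    (hi : i < L.length) {φ ψ : E 3 ≃ᵃ[ℝ] E 3} (hφ : φ ∈ Phi D L i j) (hψ : ψ ∈ Phi D L j k)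
    {x : E 3} (hx : x ∈ oBox D (getC L i).U) (hφx : φ x ∈ oBox D (getC L j).U)
    (hψx : ψ (φ x) ∈ oBox D (getC L k).U) : φ.trans ψ ∈ Phi D L i k := by
  have hj : j < L.length := by
    obtain ⟨e, he, rfl, -⟩ := hφ
    exact ((hL i hi).nb e he).2.1
  obtain ⟨e, he, rfl, h⟩ := PhiF_symm hD hL hi hφ
  obtain ⟨f, hf, rfl, h'⟩ := hψ
  have h1 := (pairS_all hD hL hj e he f hf φ.symm ψ h h' (φ x) hφx
    (by rw [AffineEquiv.symm_apply_apply]; exact hx) hψx).1
  have h2 : φ.symm.symm.trans ψ = φ.trans ψ := by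
    ext1 y
    rfl
  rwa [h2] at h1

theorem PhiF_finite (hD : 0 < D) (hL : ∀ j < L.length, ChartOkF L j) {i : Nat}
    (hi : i < L.length) (j : Nat) : (Phi D L i j).Finite := by
  have h1 : Phi D L i j ⊆ ⋃ e ∈ {e : Nb | e ∈ (getC L i).nb},
      {φ : E 3 ≃ᵃ[ℝ] E 3 | e.a.ok = true ∧ e.a.Is D φ} := by
    rintro φ ⟨e, he, -, h⟩
    exact Set.mem_biUnion (show e ∈ {e : Nb | e ∈ (getC L i).nb} from he)
      ⟨((hL i hi).nb e he).1, h⟩
  refine Set.Finite.subset (Set.Finite.biUnion (List.finite_toSet _) fun e _ => ?_) h1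
  refine Set.Subsingleton.finite ?_
  rintro φ ⟨h2, h3⟩ ψ ⟨-, h4⟩
  exact h3.unique hD (Mp.ok_iff h2).1 h4

/-- the gluing data -/
def glueF (hD : 0 < D) (hL : ∀ j < L.length, ChartOkF L j) : GlueL 3 where
  I := Fin L.length
  finI := inferInstance
  U i := oBox D (getC L i).U
  Φ i j := Phi D L i j
  U_open i := isOpen_oBox D _
  Φ_fin i j := PhiF_finite hD hL i.2 j
  Φ_det i j φ hφ := by
    obtain ⟨e, he, -, h⟩ := hφ
    exact h.det hD ((hL i i.2).nb e he).1
  Φ_refl i := PhiF_refl (hL i i.2)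
  Φ_symm i j φ hφ := PhiF_symm hD hL i.2 hφ
  Φ_trans i j k φ hφ ψ hψ x hx h1 h2 := PhiF_trans hD hL i.2 hφ hψ hx h1 h2
  Φ_free i φ hφ x hx hfix := by
    obtain ⟨e, he, h1, h⟩ := hφ
    rcases ((hL i i.2).nb e he).2.2.2 h1 with h2 | h2
    · exact Mp.Is.unique hD Nat.one_pos
        (Mp.eqb_is (Mp.ok_iff ((hL i i.2).nb e he).1).1 h2 h) (Mp.one_is D)
    · exact (Mp.free_sound h h2 (Bx.open_subset D _ hx) hfix).elim
  K i := cBox D (getC L i).K
  K_comp i := isCompact_cBox hD _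
  K_sub i := fun x hx => Bx.strict_sound (hL i i.2).K hx
  K_cover i x hx := by
    have h1 := KTree.check_sound (D := D) (test := leafTest L (getC L i).nb)
      (Q := fun m (y : Fin 3 → ℝ) => ∃ e ∈ (getC L i).nb, ∀ φ : E 3 ≃ᵃ[ℝ] E 3, e.a.Is D φ →
        ∀ z : E 3, (fun k => z k) = y → φ z ∈ cBox D (getC L e.c).K) (by
        intro m B hB y hy
        unfold leafTest at hB
        cases hm : (getC L i).nb[m]? with
        | none => rw [hm] at hB; exact absurd hB (by simp)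
        | some e =>
          rw [hm] at hB
          have he : e ∈ (getC L i).nb := List.mem_of_getElem? hm
          refine ⟨e, he, fun φ hφ z hz => ?_⟩
          refine Mp.into_sound (Mp.ok_iff ((hL i i.2).nb e he).1).1 hφ hB ?_
          change (fun k => z k) ∈ B.real D
          rw [hz]
          exact hy) _ _ (hL i i.2).tree (fun k => x k) (Bx.open_subset D _ hx)
    obtain ⟨m, e, he, h2⟩ := h1
    obtain ⟨h3, h4, -⟩ := (hL i i.2).nb e he
    obtain ⟨φ, hφ⟩ := Mp.exists_is hD h3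
    exact ⟨⟨e.c, h4⟩, φ, ⟨e, he, rfl, hφ⟩, h2 φ hφ x rfl⟩

/-- The same conclusion from the fast checks. -/
theorem not_complete_of_fast {D : Nat} (hD : 0 < D) {L : List Chart}
    (hL : ∀ j < L.length, checkFast L j = true) {i m k : Nat} {h : Int}
    (hloop : checkLoop L i m k h = true) :
    ¬ (∀ (n : ℕ) (M : Type) [TopologicalSpace M] [T2Space M] [CompactSpace M]
      [ChartedSpace (EuclideanSpace ℝ (Fin n)) M],
      (∀ e ∈ atlas (EuclideanSpace ℝ (Fin n)) M, ∀ e' ∈ atlas (EuclideanSpace ℝ (Fin n)) M,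
        ∀ y ∈ (e.symm.trans e').source,
          ∃ A : EuclideanSpace ℝ (Fin n) ≃ᵃ[ℝ] EuclideanSpace ℝ (Fin n),
            LinearMap.det (A.linear : EuclideanSpace ℝ (Fin n) →ₗ[ℝ] EuclideanSpace ℝ (Fin n)) = 1 ∧
            ∀ᶠ z in nhds y, (e.symm.trans e') z = A z) →
      ∀ (x : M) (v : EuclideanSpace ℝ (Fin n)),
        ∃ γ : ℝ → M, Continuous γ ∧ γ 0 = x ∧
          (∀ᶠ s in nhds (0 : ℝ),
            γ s ∈ (chartAt (EuclideanSpace ℝ (Fin n)) x).source ∧
            chartAt (EuclideanSpace ℝ (Fin n)) x (γ s)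
              = chartAt (EuclideanSpace ℝ (Fin n)) x x + s • v) ∧
          ∀ t : ℝ, ∃ p w : EuclideanSpace ℝ (Fin n),
            ∀ᶠ s in nhds t,
              γ s ∈ (chartAt (EuclideanSpace ℝ (Fin n)) (γ t)).source ∧
              chartAt (EuclideanSpace ℝ (Fin n)) (γ t) (γ s) = p + s • w) := by
  have hL' : ∀ j < L.length, ChartOkF L j := fun j hj => chartOkF_of_check (hL j hj)
  simp only [checkLoop, Bool.and_eq_true, decide_eq_true_eq] at hloop
  obtain ⟨⟨hi, hU⟩, h1⟩ := hloop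
  cases hm : (getC L i).nb[m]? with
  | none => rw [hm] at h1; exact absurd h1 (by simp)
  | some e =>
    rw [hm] at h1
    simp only [Bool.and_eq_true, Nat.beq_eq] at h1
    obtain ⟨h2, h3⟩ := h1
    have he : e ∈ (getC L i).nb := List.mem_of_getElem? hm
    have h4 := ((hL' i hi).nb e he).1
    obtain ⟨φ, hφ⟩ := Mp.exists_is hD h4
    obtain ⟨y₀, y₁, lam, g0, g1, g2, g3, g4, g5⟩ := loop_points hD h4 hφ hU h3
    exact GlueL.not_complete (glueF hD hL') (i₀ := ⟨i, hi⟩) g0 g3 g4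
      (steps_of (G := glueF hD hL') (i := ⟨i, hi⟩) ⟨e, he, h2, hφ⟩ g0 g2 g5
        fun r h0 h1 => segment_oBox g0 g1 h0 h1)

end Pool.Agent.MkC
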