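import Pool.Agent.MkC.ProdL

/-!
# Closed incomplete geodesics

A straight path in a glued manifold which returns to its starting point with a larger velocity
gives a geodesic `γ : (-∞, 1) → M` with `γ (1 - (1 - t) / lam) = γ t`, which has no limit at the
time `1`, and no geodesic which is defined for all times agrees with it near the time `0`.
-/

set_option autoImplicit false

open Set Topology Filter

namespace Pool.Agent.MkC

variable {n : ℕ}

namespace Glue

variable {D : Glue n}

theorem secondCountable (D : Glue n) : SecondCountableTopology D.M := by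
  have := D.finI
  have h : SecondCountableTopology D.X := inferInstance
  exact D.isOpenQuotientMap_pr.isQuotientMap.secondCountableTopology D.isOpenMap_pr

theorem At.congr {γ δ : ℝ → D.M} {t : ℝ} {i : D.I} {y u : E n} (h : D.At δ t i y u)
    (e : γ =ᶠ[𝓝 t] δ) : D.At γ t i y u := by
  change ∀ᶠ s in 𝓝 t, _
  filter_upwards [h, e] with s h1 h2
  rw [h2]
  exact h1

theorem At.shift {γ : ℝ → D.M} {t : ℝ} {i : D.I} {y u : E n} (h : D.At γ t i y u) (s : ℝ) :
    D.At (fun r => γ (r - s)) (s + t) i y u := by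
  have hc : Tendsto (fun r : ℝ => r - s) (𝓝 (s + t)) (𝓝 t) := by
    have h1 : Continuous fun r : ℝ => r - s := by fun_prop
    have h2 := h1.tendsto (s + t)
    rwa [add_sub_cancel_left] at h2
  change ∀ᶠ r in 𝓝 (s + t), _
  filter_upwards [hc.eventually h] with r h1
  refine ⟨h1.1, ?_⟩
  rw [h1.2]
  congr 2
  ring

/-- a linear change of the time -/
theorem At.linear {γ : ℝ → D.M} {t : ℝ} {i : D.I} {y u : E n} {a c : ℝ}
    (h : D.At γ (a + c * t) i y u) : D.At (fun r => γ (a + c * r)) t i y (c • u) := by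
  have h1 : Continuous fun r : ℝ => a + c * r := by fun_prop
  change ∀ᶠ r in 𝓝 t, _
  filter_upwards [(h1.tendsto t).eventually h] with r h2
  refine ⟨h2.1, ?_⟩
  rw [h2.2, smul_smul]
  congr 2
  ring

/-- the straight line in a piece -/
theorem at_line {i : D.I} {y u : E n} {t : ℝ} (h : y + t • u ∈ D.U i) :
    D.At (fun r => (D.chart i).symm (y + r • u)) t i (y + t • u) u := by
  have hc : ContinuousAt (fun s : ℝ => y + s • u) t := by fun_prop
  change ∀ᶠ r in 𝓝 t, _
  filter_upwards [hc.eventually ((D.U_open i).mem_nhds h)] with r hr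
  have hr' : y + r • u ∈ (D.chart i).target := by rw [chart_target]; exact hr
  refine ⟨(D.chart i).map_target hr', ?_⟩
  rw [(D.chart i).right_inv hr', add_assoc, ← add_smul]
  congr 2
  ring

theorem At.eventuallyEq {γ δ : ℝ → D.M} {t : ℝ} {i : D.I} {y u : E n} (h : D.At γ t i y u)
    (h' : D.At δ t i y u) : γ =ᶠ[𝓝 t] δ := by
  change ∀ᶠ s in 𝓝 t, _
  filter_upwards [h, h'] with s h1 h2
  rw [← (D.chart i).left_inv h1.1, ← (D.chart i).left_inv h2.1, h1.2, h2.2]

theorem At.geoAt {γ : ℝ → D.M} {t : ℝ} {i : D.I} {y u : E n} (h : D.At γ t i y u) (hy : y ∈ D.U i) :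
    D.GeoAt γ t := by
  obtain ⟨k, hk⟩ := D.chartAt_eq (γ t)
  have hks : γ t ∈ (D.chart k).source := by
    rw [← hk]
    exact mem_chart_source _ _
  have htr : y ∈ ((D.chart i).symm.trans (D.chart k)).source := by
    rw [OpenPartialHomeomorph.trans_source, OpenPartialHomeomorph.symm_source, chart_target]
    refine ⟨hy, ?_⟩
    rw [mem_preimage, D.chart_symm i hy, ← h.eq_f hy]
    exact hks
  obtain ⟨φ, hφ, -, hφk, -⟩ := D.transition i k htr
  have h2 := h.change hφ hy hφk
  refine ⟨φ y - t • φ.linear u, φ.linear u, ?_⟩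
  rw [hk]
  filter_upwards [h2] with s hs
  refine ⟨hs.1, ?_⟩
  rw [hs.2, sub_smul]
  abel

theorem At.velocity {γ : ℝ → D.M} {t : ℝ} {i : D.I} {y y' u u' : E n} (h : D.At γ t i y u)
    (h' : D.At γ t i y' u') : u = u' := by
  have h1 : ∀ᶠ s in 𝓝 t, (y - t • u) + s • u = (y' - t • u') + s • u' := by
    filter_upwards [h, h'] with s h1 h2
    have h3 := h1.2.symm.trans h2.2
    rw [sub_smul, sub_smul] at h3
    calc y - t • u + s • u = y + (s • u - t • u) := by abel
      _ = y' + (s • u' - t • u') := h3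
      _ = _ := by abel
  exact (affine_eq h1).2

theorem Steps.nonneg {i k : D.I} {y u z w : E n} {t : ℝ} (h : D.Steps i y u t k z w) : 0 ≤ t := by
  induction h with
  | nil => exact le_rfl
  | cons φ hs hseg hφ hj h ih => exact add_nonneg hs ih

/-- the geodesic along a straight path -/
theorem exists_path {i k : D.I} {y u z w : E n} {t : ℝ} (h : D.Steps i y u t k z w)
    (hy : y ∈ D.U i) : ∃ γ : ℝ → D.M, D.At γ 0 i y u ∧ D.At γ t k z w ∧
      ∀ s : ℝ, 0 ≤ s → s ≤ t → ∃ j x v, x ∈ D.U j ∧ D.At γ s j x v := by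
  induction h with
  | nil i y u =>
    have h0 : y + (0 : ℝ) • u ∈ D.U i := by simpa using hy
    have h1 := at_line h0
    rw [zero_smul, add_zero] at h1
    refine ⟨_, h1, h1, fun s hs hs' => ?_⟩
    obtain rfl : s = 0 := le_antisymm hs' hs
    exact ⟨i, y, u, hy, h1⟩
  | @cons i j k y u z w s t φ hs hseg hφ hj h ih =>
    obtain ⟨δ, hd0, hdt, hd⟩ := ih hj
    set ℓ : ℝ → D.M := fun r => (D.chart i).symm (y + r • u) with hℓ
    have hline : ∀ r : ℝ, 0 ≤ r → r ≤ s → D.At ℓ r i (y + r • u) u :=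
      fun r h0 h1 => at_line (hseg r h0 h1)
    have hshift := hd0.shift s
    rw [add_zero] at hshift
    have hagree : ℓ =ᶠ[𝓝 s] fun r => δ (r - s) :=
      ((hline s hs le_rfl).change hφ (hseg s hs le_rfl) hj).eventuallyEq hshift
    set γ : ℝ → D.M := fun r => if r ≤ s then ℓ r else δ (r - s) with hγ
    have e1 : ∀ r : ℝ, r ≤ s → γ =ᶠ[𝓝 r] ℓ := by
      intro r hr
      rcases hr.lt_or_eq with h1 | h1
      · filter_upwards [Iio_mem_nhds h1] with q hq
        exact if_pos (le_of_lt hq)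
      · rw [h1]
        filter_upwards [hagree] with q hq
        change (if q ≤ s then ℓ q else δ (q - s)) = ℓ q
        split_ifs
        · rfl
        · exact hq.symm
    have e2 : ∀ r : ℝ, s ≤ r → γ =ᶠ[𝓝 r] fun q => δ (q - s) := by
      intro r hr
      rcases hr.lt_or_eq with h1 | h1
      · filter_upwards [Ioi_mem_nhds h1] with q hq
        exact if_neg (not_le_of_gt hq)
      · rw [← h1]
        filter_upwards [hagree] with q hq
        change (if q ≤ s then ℓ q else δ (q - s)) = δ (q - s)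
        split_ifs
        · exact hq
        · rfl
    have ht0 : 0 ≤ t := h.nonneg
    refine ⟨γ, ?_, ?_, ?_⟩
    · have h1 := (hline 0 le_rfl hs).congr (e1 0 hs)
      rwa [zero_smul, add_zero] at h1
    · exact (hdt.shift s).congr (e2 (s + t) (by linarith))
    · intro r h0 h1
      rcases le_total r s with h2 | h2
      · exact ⟨i, _, u, hseg r h0 h2, (hline r h0 h2).congr (e1 r h2)⟩
      · obtain ⟨j', x, v, hx, hv⟩ := hd (r - s) (by linarith) (by linarith)
        refine ⟨j', x, v, hx, ?_⟩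
        have h3 := hv.shift s
        rw [add_sub_cancel] at h3
        exact h3.congr (e2 r h2)

/-- a self-similar function from a function on `[1, lam]` -/
theorem exists_selfsimilar {α : Type*} {lam : ℝ} (hlam : 1 < lam) (g₀ : ℝ → α)
    (h : ∀ᶠ q in 𝓝 (1 : ℝ), g₀ (lam * q) = g₀ q) : ∃ g : ℝ → α,
    (∀ q : ℝ, 0 < q → g (lam * q) = g q) ∧ (∀ᶠ q in 𝓝 (1 : ℝ), g q = g₀ q) ∧
    ∀ q : ℝ, 0 < q → ∃ c : ℝ, 0 < c ∧ 1 ≤ c * q ∧ c * q ≤ lam ∧
      ∀ᶠ r in 𝓝 q, g r = g₀ (c * r) := by
  have hlam0 : 0 < lam := by linarith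
  have hlog : 0 < Real.log lam := Real.log_pos hlam
  set e : ℝ → ℤ := fun q => ⌊Real.log q / Real.log lam⌋ with he
  -- the interval of the exponent
  have he1 : ∀ q : ℝ, 0 < q → ∀ k : ℤ, lam ^ k ≤ q → q < lam ^ (k + 1) → e q = k := by
    intro q hq k h1 h2
    rw [he]
    refine Int.floor_eq_iff.2 ⟨?_, ?_⟩
    · rw [le_div_iff₀ hlog, ← Real.log_zpow]
      exact Real.log_le_log (zpow_pos hlam0 _) h1
    · rw [div_lt_iff₀ hlog]
      have h3 := Real.log_lt_log hq h2
      rw [Real.log_zpow] at h3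
      push_cast at h3
      exact h3
  have he2 : ∀ q : ℝ, 0 < q → lam ^ (e q) ≤ q ∧ q < lam ^ (e q + 1) := by
    intro q hq
    constructor
    · have h1 := Int.floor_le (Real.log q / Real.log lam)
      rw [le_div_iff₀ hlog, ← Real.log_zpow] at h1
      exact (Real.log_le_log_iff (zpow_pos hlam0 _) hq).1 h1
    · have h1 := Int.lt_floor_add_one (Real.log q / Real.log lam)
      rw [div_lt_iff₀ hlog] at h1
      refine (Real.log_lt_log_iff hq (zpow_pos hlam0 _)).1 ?_
      rw [Real.log_zpow]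
      push_cast
      exact h1
  set g : ℝ → α := fun q => g₀ (lam ^ (-(e q)) * q) with hg
  -- the value for a given exponent
  have key : ∀ q : ℝ, 0 < q → ∀ k : ℤ, lam ^ k ≤ q → q < lam ^ (k + 1) →
      ∀ᶠ r in 𝓝 q, g r = g₀ (lam ^ (-k) * r) := by
    intro q hq k h1 h2
    rcases h1.lt_or_eq with h3 | h3
    · filter_upwards [Ioo_mem_nhds h3 h2] with r hr
      rw [hg]
      change g₀ (lam ^ (-(e r)) * r) = _
      rw [he1 r (lt_trans (zpow_pos hlam0 _) hr.1) k hr.1.le hr.2]
    · -- at an endpoint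
      have h4 : lam ^ (k - 1) < q := by
        rw [← h3]
        exact zpow_lt_zpow_right₀ hlam (by linarith)
      have hc : Tendsto (fun r : ℝ => lam ^ (-k) * r) (𝓝 q) (𝓝 1) := by
        have h5 : Continuous fun r : ℝ => lam ^ (-k) * r := by fun_prop
        have h6 := h5.tendsto q
        have h7 : lam ^ (-k) * q = 1 := by
          rw [← h3, zpow_neg, inv_mul_cancel₀ (zpow_pos hlam0 k).ne']
        rwa [h7] at h6
      filter_upwards [Ioo_mem_nhds h4 h2, hc.eventually h] with r hr hr'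
      have hr0 : 0 < r := lt_trans (zpow_pos hlam0 _) hr.1
      rcases lt_or_ge r q with h5 | h5
      · have h6 : e r = k - 1 := he1 r hr0 (k - 1) hr.1.le (by
          rw [sub_add_cancel, h3]; exact h5)
        change g₀ (lam ^ (-(e r)) * r) = _
        rw [h6, ← hr', ← mul_assoc, ← zpow_one_add₀ hlam0.ne']
        congr 3
        ring
      · change g₀ (lam ^ (-(e r)) * r) = _
        rw [he1 r hr0 k (by rw [h3]; exact h5) hr.2]
  refine ⟨g, ?_, ?_, ?_⟩
  · intro q hq
    have h1 : e (lam * q) = e q + 1 := by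
      obtain ⟨h2, h3⟩ := he2 q hq
      refine he1 _ (by positivity) _ ?_ ?_
      · rw [zpow_add_one₀ hlam0.ne', mul_comm]
        exact mul_le_mul_of_nonneg_left h2 hlam0.le
      · rw [zpow_add_one₀ hlam0.ne', mul_comm]
        exact mul_lt_mul_of_pos_right h3 hlam0
    change g₀ (lam ^ (-(e (lam * q))) * (lam * q)) = g₀ (lam ^ (-(e q)) * q)
    rw [h1, ← mul_assoc, ← zpow_add_one₀ hlam0.ne']
    congr 3
    ring
  · have h1 := key 1 one_pos 0 (by simp) (by simpa using hlam)
    filter_upwards [h1] with q hq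
    rw [hq]
    simp
  · intro q hq
    obtain ⟨h2, h3⟩ := he2 q hq
    refine ⟨lam ^ (-(e q)), zpow_pos hlam0 _, ?_, ?_, key q hq _ h2 h3⟩
    · rw [zpow_neg, ← div_eq_inv_mul, le_div_iff₀ (zpow_pos hlam0 _), one_mul]
      exact h2
    · rw [zpow_neg, ← div_eq_inv_mul, div_le_iff₀ (zpow_pos hlam0 _), mul_comm,
        ← zpow_add_one₀ hlam0.ne']
      exact h3.le

/-- **The closed incomplete geodesic.** -/
theorem exists_closed (D : Glue n) {i₀ : D.I} {y₀ u₀ : E n} {T lam : ℝ} (hy₀ : y₀ ∈ D.U i₀)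
    (hu₀ : u₀ ≠ 0) (hlam : 1 < lam) (hloop : D.Steps i₀ y₀ u₀ T i₀ y₀ (lam • u₀)) :
    ∃ γ : ℝ → D.M, (∀ t : ℝ, t < 1 → D.GeoAt γ t) ∧
      (∀ t : ℝ, t < 1 → γ (1 - (1 - t) / lam) = γ t) ∧
      (¬ ∃ m : D.M, Tendsto γ (𝓝[<] 1) (𝓝 m)) ∧
      ¬ ∃ δ : ℝ → D.M, (∀ t : ℝ, D.GeoAt δ t) ∧ ∀ᶠ t in 𝓝 (0 : ℝ), δ t = γ t := by
  have hlam0 : 0 < lam := by linarith
  obtain ⟨β, hb0, hbT, hb⟩ := exists_path hloop hy₀
  -- the length is positive
  have hT : 0 < T := by
    rcases hloop.nonneg.lt_or_eq with h | h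
    · exact h
    · exfalso
      rw [← h] at hbT
      have h1 := hb0.velocity hbT
      have h2 : (lam - 1) • u₀ = 0 := by
        rw [sub_smul, one_smul, ← h1, sub_self]
      rcases smul_eq_zero.1 h2 with h3 | h3
      · linarith
      · exact hu₀ h3
  set b : ℝ := T * lam / (lam - 1) with hb'
  have hlam1 : 0 < lam - 1 := by linarith
  have hbpos : 0 < b := by positivity
  have hbT' : b * (1 - lam⁻¹) = T := by
    rw [hb']
    field_simp
  -- the function of `q = (b - t) / b`, in `[1, lam]`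
  set g₀ : ℝ → D.M := fun q => β (b + (-(b / lam)) * q) with hg₀
  have h0 : D.At g₀ lam i₀ y₀ ((-(b / lam)) • u₀) := by
    refine At.linear ?_
    have e : b + -(b / lam) * lam = 0 := by
      field_simp
      ring
    rw [e]
    exact hb0
  have h1 : D.At g₀ 1 i₀ y₀ ((-(b / lam)) • (lam • u₀)) := by
    refine At.linear ?_
    have e : b + -(b / lam) * 1 = T := by
      rw [← hbT']
      field_simp
      ring
    rw [e]
    exact hbT
  have hper : ∀ᶠ q in 𝓝 (1 : ℝ), g₀ (lam * q) = g₀ q := by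
    have h2 : D.At (fun q => g₀ (0 + lam * q)) 1 i₀ y₀ (lam • ((-(b / lam)) • u₀)) := by
      refine At.linear ?_
      rw [zero_add, mul_one]
      exact h0
    rw [smul_comm] at h2
    filter_upwards [h2.eventuallyEq h1] with q hq
    rw [← hq, zero_add]
  obtain ⟨g, hg1, hg2, hg3⟩ := exists_selfsimilar hlam g₀ hper
  set γ : ℝ → D.M := fun t => g (1 + (-1) * t) with hγ
  have hgat : ∀ q : ℝ, 0 < q → ∃ j x v, x ∈ D.U j ∧ D.At g q j x v := by
    intro q hq
    obtain ⟨c, hc, hc1, hc2, hc3⟩ := hg3 q hq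
    obtain ⟨j, x, v, hx, hv⟩ := hb (b + (-(b / lam)) * (c * q)) (by
      have h2 : b / lam * (c * q) ≤ b / lam * lam :=
        mul_le_mul_of_nonneg_left hc2 (by positivity)
      rw [div_mul_cancel₀ _ hlam0.ne'] at h2
      linarith) (by
      have h2 : b / lam * 1 ≤ b / lam * (c * q) :=
        mul_le_mul_of_nonneg_left hc1 (by positivity)
      rw [← hbT', mul_sub, ← div_eq_mul_inv]
      linarith)
    have h2 : D.At g₀ (c * q) j x ((-(b / lam)) • v) := At.linear hv
    rw [← zero_add (c * q)] at h2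
    have h3 : D.At (fun r => g₀ (0 + c * r)) q j x (c • ((-(b / lam)) • v)) := At.linear h2
    refine ⟨j, x, _, hx, h3.congr ?_⟩
    filter_upwards [hc3] with r hr
    rw [hr, zero_add]
  have hγat : ∀ t : ℝ, t < 1 → ∃ j x v, x ∈ D.U j ∧ D.At γ t j x v := by
    intro t ht
    obtain ⟨j, x, v, hx, hv⟩ := hgat (1 + (-1) * t) (by linarith)
    exact ⟨j, x, _, hx, At.linear hv⟩
  have hγ0 : D.At γ 0 i₀ y₀ (b • u₀) := by
    have h2 : D.At g 1 i₀ y₀ ((-(b / lam)) • (lam • u₀)) := h1.congr hg2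
    have h3 : D.At γ 0 i₀ y₀ ((-1 : ℝ) • ((-(b / lam)) • (lam • u₀))) := by
      refine At.linear ?_
      rw [mul_zero, add_zero]
      exact h2
    rw [smul_smul, smul_smul] at h3
    have e : -1 * -(b / lam) * lam = b := by
      field_simp
    rwa [e] at h3
  have hselfs : ∀ t : ℝ, t < 1 → γ (1 - (1 - t) / lam) = γ t := by
    intro t ht
    have h2 := hg1 ((1 - t) / lam) (div_pos (by linarith) hlam0)
    rw [mul_div_cancel₀ _ hlam0.ne'] at h2
    change g (1 + -1 * (1 - (1 - t) / lam)) = g (1 + -1 * t)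
    rw [show 1 + -1 * (1 - (1 - t) / lam) = (1 - t) / lam by ring,
      show 1 + -1 * t = 1 - t by ring]
    exact h2.symm
  have hbu : b • u₀ ≠ 0 := smul_ne_zero hbpos.ne' hu₀
  refine ⟨γ, ?_, hselfs, ?_, ?_⟩
  · intro t ht
    obtain ⟨j, x, v, hx, hv⟩ := hγat t ht
    exact hv.geoAt hx
  · rintro ⟨m, hm⟩
    -- all values are the limit
    have hconst : ∀ q : ℝ, 0 < q → γ (1 - q) = m := by
      intro q hq
      have h2 : ∀ k : ℕ, γ (1 - q / lam ^ k) = γ (1 - q) := by
        intro k
        induction k with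
        | zero => rw [pow_zero, div_one]
        | succ k ih =>
          rw [← ih, ← hselfs (1 - q / lam ^ k) (by
            have : 0 < q / lam ^ k := by positivity
            linarith)]
          congr 1
          rw [pow_succ, ← div_div]
          ring
      have h3 : Tendsto (fun k : ℕ => 1 - q / lam ^ k) atTop (𝓝[<] 1) := by
        refine tendsto_nhdsWithin_iff.2 ⟨?_, Eventually.of_forall fun k => ?_⟩
        · have h4 : Tendsto (fun k : ℕ => (lam⁻¹) ^ k) atTop (𝓝 0) :=
            tendsto_pow_atTop_nhds_zero_of_lt_one (inv_nonneg.2 hlam0.le)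
              (inv_lt_one_of_one_lt₀ hlam)
          have h5 := (h4.const_mul q).const_sub 1
          rw [mul_zero, sub_zero] at h5
          refine h5.congr fun k => ?_
          rw [inv_pow, div_eq_mul_inv]
        · have : 0 < q / lam ^ k := by positivity
          change 1 - q / lam ^ k < 1
          linarith
      have h4 := hm.comp h3
      have h5 : (γ ∘ fun k : ℕ => 1 - q / lam ^ k) = fun _ => γ (1 - q) := funext h2
      rw [h5] at h4
      exact tendsto_nhds_unique tendsto_const_nhds h4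
    -- the chart
    have h2 : ∀ᶠ s in 𝓝 (0 : ℝ), y₀ + s • (b • u₀) = y₀ := by
      have h3 : ∀ᶠ s in 𝓝 (0 : ℝ), s < 1 := Iio_mem_nhds one_pos
      have h4 := hγ0.self_of_nhds
      filter_upwards [hγ0, h3] with s hs hs1
      have h5 : γ s = γ 0 := by
        have h6 := hconst (1 - s) (by linarith)
        have h7 := hconst 1 one_pos
        rw [sub_sub_cancel] at h6
        rw [sub_self] at h7
        rw [h6, h7]
      rw [sub_zero] at hs
      rw [sub_zero, zero_smul, add_zero] at h4
      rw [← hs.2, h5, h4.2]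
    have h3 : ∀ᶠ s in 𝓝 (0 : ℝ), y₀ + s • (b • u₀) = y₀ + s • (0 : E n) := by
      filter_upwards [h2] with s hs
      rw [hs, smul_zero, add_zero]
    exact hbu (affine_eq h3).2
  · rintro ⟨δ, hδ, hδ0⟩
    have hcont : Continuous δ := by
      rw [continuous_iff_continuousAt]
      intro t
      obtain ⟨p, w, hpw⟩ := hδ t
      set c := chartAt (E n) (δ t) with hc
      have h2 : δ =ᶠ[𝓝 t] fun s => c.symm (p + s • w) := by
        filter_upwards [hpw] with s hs
        rw [← hs.2, c.left_inv hs.1]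
      have h3 : p + t • w ∈ c.target := by
        rw [← hpw.self_of_nhds.2]
        exact c.map_source hpw.self_of_nhds.1
      have h4 : ContinuousAt (fun s : ℝ => c.symm (p + s • w)) t :=
        ContinuousAt.comp (f := fun s : ℝ => p + s • w) (c.continuousAt_symm h3) (by fun_prop)
      exact h4.congr h2.symm
    have h2 := hloop.scale hbpos
    rw [smul_comm] at h2
    exact D.no_geodesic hy₀ hbu hlam h2 hcont hδ (hγ0.congr hδ0)

end Glue

end Pool.Agent.MkC
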