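import Pool.Agent.MkC.ProdL

/-!
# Connectedness of the glued manifold

If the pieces are preconnected and the overlap graph of the pieces is connected, then the manifold
of the refined gluing data is connected.
-/

set_option autoImplicit false

open Set Topology Filter

namespace Pool.Agent.MkC

namespace GlueL

variable {n : ℕ} {D : GlueL n}


section Refine

variable (T : D.I → Finset (E n)) (hT : ∀ i, ∀ x ∈ T i, x ∈ D.U i)
  (hK : ∀ i, ∀ y ∈ D.K i, ∃ x ∈ T i, dist y x < D.rad i x / 2)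

/-- the class does not depend on the choices -/
theorem refine_pr_eq {i j j' : D.I} {x : E n} (hx : x ∈ D.U i) {φ φ' : E n ≃ᵃ[ℝ] E n}
    (hφ : φ ∈ D.Φ i j) (hφ' : φ' ∈ D.Φ i j') (c : T j) (c' : T j')
    (h : φ x ∈ Metric.ball (c : E n) (D.rad j c))
    (h' : φ' x ∈ Metric.ball (c' : E n) (D.rad j' c')) :
    (D.refine T hT hK).pr ⟨⟨j, c⟩, ⟨φ x, h⟩⟩ = (D.refine T hT hK).pr ⟨⟨j', c'⟩, ⟨φ' x, h'⟩⟩ := by
  refine ((D.refine T hT hK).pr_eq).2 ⟨φ.symm.trans φ', ?_, ?_⟩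
  · refine D.Φ_trans j i j' φ.symm (D.Φ_symm _ _ φ hφ) φ' hφ' (φ x)
      (D.rad_sub j (hT _ _ c.2) h) ?_ ?_
    · rwa [AffineEquiv.symm_apply_apply]
    · rw [AffineEquiv.symm_apply_apply]
      exact D.rad_sub j' (hT _ _ c'.2) h'
  · change (φ.symm.trans φ') (φ x) = φ' x
    rw [AffineEquiv.trans_apply, AffineEquiv.symm_apply_apply]

include hK in
theorem refine_rep {i : D.I} {x : E n} (hx : x ∈ D.U i) : ∃ (j : D.I) (φ : E n ≃ᵃ[ℝ] E n)
    (c : T j), φ ∈ D.Φ i j ∧ φ x ∈ Metric.ball (c : E n) (D.rad j c) := by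
  obtain ⟨j, φ, hφ, h⟩ := D.K_cover i x hx
  obtain ⟨c, hc, hd⟩ := hK j _ h
  exact ⟨j, φ, ⟨c, hc⟩, hφ, lt_trans hd (half_lt_self (D.rad_pos j c))⟩

/-- the map of a piece to the refined manifold -/
noncomputable def qm (i : D.I) (x : D.U i) : (D.refine T hT hK).M :=
  (D.refine T hT hK).pr ⟨⟨(refine_rep T hK x.2).choose,
    (refine_rep T hK x.2).choose_spec.choose_spec.choose⟩,
    ⟨(refine_rep T hK x.2).choose_spec.choose (x : E n),
      (refine_rep T hK x.2).choose_spec.choose_spec.choose_spec.2⟩⟩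

theorem qm_eq (i : D.I) (x : D.U i) {j : D.I} {φ : E n ≃ᵃ[ℝ] E n} (hφ : φ ∈ D.Φ i j) (c : T j)
    (h : φ (x : E n) ∈ Metric.ball (c : E n) (D.rad j c)) :
    qm T hT hK i x = (D.refine T hT hK).pr ⟨⟨j, c⟩, ⟨φ x, h⟩⟩ :=
  refine_pr_eq T hT hK x.2 (refine_rep T hK x.2).choose_spec.choose_spec.choose_spec.1 hφ
    (refine_rep T hK x.2).choose_spec.choose_spec.choose c
    (refine_rep T hK x.2).choose_spec.choose_spec.choose_spec.2 h

theorem continuous_qm (i : D.I) : Continuous (qm T hT hK i) := by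
  rw [continuous_iff_continuousAt]
  intro x
  obtain ⟨j, φ, c, hφ, h⟩ := refine_rep T hK x.2
  have hc : Continuous fun y : D.U i => φ (y : E n) :=
    φ.toContinuousAffineEquiv.continuous.comp continuous_subtype_val
  set s : Set (D.U i) := {y | φ (y : E n) ∈ Metric.ball (c : E n) (D.rad j c)} with hs
  have hso : IsOpen s := Metric.isOpen_ball.preimage hc
  refine ContinuousOn.continuousAt (s := s) ?_ (hso.mem_nhds h)
  rw [continuousOn_iff_continuous_domRestrict]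
  have h1 : s.domRestrict (qm T hT hK i) = fun y : s =>
      (D.refine T hT hK).f ⟨j, c⟩ ⟨φ ((y : D.U i) : E n), y.2⟩ := by
    funext y
    exact qm_eq T hT hK i y hφ c y.2
  rw [h1]
  exact ((D.refine T hT hK).isOpenEmbedding_f ⟨j, c⟩).continuous.comp
    ((hc.comp continuous_subtype_val).subtype_mk _)

/-- **Connectedness.** -/
theorem refine_preconnected (hU : ∀ i, IsPreconnected (D.U i))
    (hG : ∀ i j, Relation.ReflTransGen D.Adj i j) : PreconnectedSpace (D.refine T hT hK).M := by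
  have h1 : ∀ i, IsPreconnected (range (qm T hT hK i)) := by
    intro i
    have : PreconnectedSpace (D.U i) := isPreconnected_iff_preconnectedSpace.1 (hU i)
    exact isPreconnected_range (continuous_qm T hT hK i)
  have h2 : ∀ i j, D.Adj i j → (range (qm T hT hK i) ∩ range (qm T hT hK j)).Nonempty := by
    rintro i j ⟨φ, hφ, x, hx, hφx⟩
    obtain ⟨k, ψ, c, hψ, h⟩ := refine_rep T hK hφx
    refine ⟨qm T hT hK j ⟨φ x, hφx⟩, ⟨⟨x, hx⟩, ?_⟩, mem_range_self _⟩
    have h3 : φ.trans ψ ∈ D.Φ i k := D.Φ_trans i j k φ hφ ψ hψ x hx hφx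
      (D.rad_sub k (hT _ _ c.2) h)
    rw [qm_eq T hT hK j ⟨φ x, hφx⟩ hψ c h,
      qm_eq T hT hK i ⟨x, hx⟩ h3 c (by rw [AffineEquiv.trans_apply]; exact h)]
    rfl
  have h3 : IsPreconnected (⋃ i, range (qm T hT hK i)) := by
    refine IsPreconnected.iUnion_of_reflTransGen h1 fun i j => ?_
    exact Relation.ReflTransGen.mono (fun i j h => h2 i j h) i j (hG i j)
  have h4 : (⋃ i, range (qm T hT hK i)) = univ := by
    refine eq_univ_of_forall fun m => ?_
    obtain ⟨⟨⟨i, c⟩, ⟨x, hx⟩⟩, rfl⟩ := (D.refine T hT hK).pr_surj m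
    rw [mem_iUnion]
    have hxU : x ∈ D.U i := D.rad_sub i (hT _ _ c.2) hx
    refine ⟨i, ⟨x, hxU⟩, ?_⟩
    exact qm_eq T hT hK i ⟨x, hxU⟩ (D.Φ_refl i) c hx
  rw [h4] at h3
  exact ⟨h3⟩

theorem refine_connected [Nonempty D.I] (hne : ∀ i, (D.U i).Nonempty)
    (hU : ∀ i, IsPreconnected (D.U i))
    (hG : ∀ i j, Relation.ReflTransGen D.Adj i j) : ConnectedSpace (D.refine T hT hK).M := by
  have := refine_preconnected T hT hK hU hG
  obtain ⟨i⟩ := ‹Nonempty D.I›
  obtain ⟨x, hx⟩ := hne i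
  exact { toNonempty := ⟨qm T hT hK i ⟨x, hx⟩⟩ }

end Refine

end GlueL

end Pool.Agent.MkC
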