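import Pool.Agent.MkC.ProdL

/-!
# Connectedness of the glued manifold
-/

set_option autoImplicit false

open Set Topology Filter

namespace Pool.Agent.MkC

variable {n : ℕ}

namespace GlueL

/-- the glued manifold of a refinement is connected if the pieces are preconnected and the overlap
graph is connected -/
theorem refine_connectedSpace (D : GlueL n) (S : D.I → Finset (E n))
    (hS : ∀ i, ∀ x ∈ S i, x ∈ D.U i)
    (hK : ∀ i, ∀ y ∈ D.K i, ∃ x ∈ S i, dist y x < D.rad i x / 2)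
    (hpre : ∀ i, IsPreconnected (D.U i)) (hgraph : ∀ i j, Relation.ReflTransGen D.Adj i j)
    (hne : Nonempty (D.refine S hS hK).I) : ConnectedSpace (D.refine S hS hK).M := by
  set G := D.refine S hS hK with hG
  -- the point of the glued manifold
  have h0 : ∀ i (y : D.U i), ∃ (p : G.X) (φ : E n ≃ᵃ[ℝ] E n), φ ∈ D.Φ i p.1.1 ∧
      φ (y : E n) = p.2 := by
    intro i y
    obtain ⟨j, φ, hφ, h1⟩ := D.K_cover i y y.2
    obtain ⟨c, hc, h2⟩ := hK j _ h1
    exact ⟨⟨⟨j, ⟨c, hc⟩⟩, ⟨φ y, lt_trans h2 (half_lt_self (D.rad_pos j c))⟩⟩, φ, hφ, rfl⟩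
  choose P φ hφ hP using h0
  -- it does not depend on the choices
  have hmem : ∀ p : G.X, (p.2 : E n) ∈ D.U p.1.1 :=
    fun p => D.rad_sub p.1.1 (hS _ _ p.1.2.2) p.2.2
  have key : ∀ i (y : D.U i) (j : D.I) (z : D.U j) (ψ : E n ≃ᵃ[ℝ] E n), ψ ∈ D.Φ i j →
      ψ (y : E n) = z → ∀ (p : G.X) (χ : E n ≃ᵃ[ℝ] E n), χ ∈ D.Φ j p.1.1 → χ (z : E n) = p.2 →
      G.pr (P i y) = G.pr p := by
    intro i y j z ψ hψ hyz p χ hχ hzp
    refine G.pr_eq.2 ⟨(φ i y).symm.trans (ψ.trans χ), ?_, ?_⟩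
    · refine D.Φ_trans _ i _ _ (D.Φ_symm _ _ _ (hφ i y)) _ ?_ ((P i y).2 : E n) (hmem _) ?_ ?_
      · refine D.Φ_trans _ j _ _ hψ _ hχ y y.2 (by rw [hyz]; exact z.2) ?_
        rw [hyz, hzp]
        exact hmem p
      · rw [← hP i y, AffineEquiv.symm_apply_apply]
        exact y.2
      · rw [← hP i y, AffineEquiv.symm_apply_apply, AffineEquiv.trans_apply, hyz, hzp]
        exact hmem p
    · rw [← hP i y, AffineEquiv.trans_apply, AffineEquiv.symm_apply_apply,
        AffineEquiv.trans_apply, hyz, hzp]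
  set F : ∀ i, D.U i → G.M := fun i y => G.pr (P i y) with hF
  have hcont : ∀ i, Continuous (F i) := by
    intro i
    rw [continuous_iff_continuousAt]
    intro y
    set p := P i y with hp
    have h1 : Continuous fun z : D.U i => φ i y (z : E n) :=
      (φ i y).toContinuousAffineEquiv.continuous.comp continuous_subtype_val
    have h2 : ∀ᶠ z : D.U i in 𝓝 y, φ i y (z : E n) ∈ G.U p.1 :=
      h1.continuousAt.eventually ((G.U_open p.1).mem_nhds (by
        change φ i y (y : E n) ∈ G.U p.1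
        rw [hP i y]
        exact p.2.2))
    have h3 : ContinuousAt (fun z : D.U i => (G.chart p.1).symm (φ i y (z : E n))) y := by
      have h4 : ContinuousAt (G.chart p.1).symm (φ i y (y : E n)) := by
        refine (G.chart p.1).continuousAt_symm ?_
        rw [G.chart_target, hP i y]
        exact p.2.2
      exact ContinuousAt.comp (f := fun z : D.U i => φ i y (z : E n)) h4 h1.continuousAt
    refine h3.congr ?_
    filter_upwards [h2] with z hz
    rw [G.chart_symm p.1 hz]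
    refine (key i z i z (AffineEquiv.refl ℝ (E n)) (D.Φ_refl i) rfl ⟨p.1, ⟨_, hz⟩⟩ (φ i y)
      (hφ i y) rfl).symm
  have hpre' : ∀ i, IsPreconnected (range (F i)) := by
    intro i
    have : PreconnectedSpace (D.U i) := isPreconnected_iff_preconnectedSpace.1 (hpre i)
    exact isPreconnected_range (hcont i)
  have hadj : ∀ i j, D.Adj i j → (range (F i) ∩ range (F j)).Nonempty := by
    rintro i j ⟨ψ, hψ, x, hx, hx'⟩
    refine ⟨F i ⟨x, hx⟩, mem_range_self _, ⟨ψ x, hx'⟩, ?_⟩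
    exact (key i ⟨x, hx⟩ j ⟨ψ x, hx'⟩ ψ hψ rfl _ _ (hφ j ⟨ψ x, hx'⟩) (hP j _)).symm
  have huniv : (⋃ i, range (F i)) = univ := by
    refine eq_univ_of_forall fun m => ?_
    obtain ⟨p, rfl⟩ := G.pr_surj m
    rw [mem_iUnion]
    exact ⟨p.1.1, ⟨p.2, hmem p⟩, key p.1.1 ⟨p.2, hmem p⟩ p.1.1 ⟨p.2, hmem p⟩
      (AffineEquiv.refl ℝ (E n)) (D.Φ_refl _) rfl p (AffineEquiv.refl ℝ (E n)) (D.Φ_refl _) rfl⟩
  have hconn : IsPreconnected (univ : Set G.M) := by
    rw [← huniv]
    refine IsPreconnected.iUnion_of_reflTransGen hpre' fun i j => ?_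
    exact Relation.ReflTransGen.mono (fun a b h => hadj a b h) i j (hgraph i j)
  obtain ⟨i⟩ := hne
  exact { isPreconnected_univ := hconn, toNonempty := ⟨G.pr ⟨i, (G.U_ne i).to_subtype.some⟩⟩ }

end GlueL

end Pool.Agent.MkC
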