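import Mathlib

set_option autoImplicit false

/-! Geodesics of affine manifolds (charts with locally affine chart changes): uniqueness, continuation
along chains of charts, and the incompleteness criterion (a closed geodesic whose velocity is multiplied
by `lam ≠ 1` does not extend to all times). -/

namespace Pool.Agent.MkC

set_option linter.unusedSectionVars false

open Set Filter Topology

/-- Chart changes are locally affine. -/
def AffAtlas (E : Type*) [NormedAddCommGroup E] [NormedSpace ℝ E] (M : Type*) [TopologicalSpace M]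
    [ChartedSpace E M] : Prop :=
  ∀ e ∈ atlas E M, ∀ e' ∈ atlas E M, ∀ y ∈ (e.symm.trans e').source,
    ∃ A : E ≃ᵃ[ℝ] E, ∀ᶠ z in 𝓝 y, (e.symm.trans e') z = A z

section

variable {E : Type*} [NormedAddCommGroup E] [NormedSpace ℝ E]
variable {M : Type*} [TopologicalSpace M] [ChartedSpace E M]

/-- `γ` is straight near the time `t` in the chart `e`, with position `y` and velocity `u` at time `t`. -/
def Str (e : OpenPartialHomeomorph M E) (γ : ℝ → M) (t : ℝ) (y u : E) : Prop :=
  ∀ᶠ s in 𝓝 t, γ s ∈ e.source ∧ e (γ s) = y + (s - t) • u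

/-- `γ` is straight near `t` in some chart of the atlas. -/
def SG (E : Type*) [NormedAddCommGroup E] [NormedSpace ℝ E] {M : Type*} [TopologicalSpace M]
    [ChartedSpace E M] (γ : ℝ → M) (t : ℝ) : Prop :=
  ∃ e ∈ atlas E M, ∃ y u : E, Str e γ t y u

theorem Str.mem {e : OpenPartialHomeomorph M E} {γ : ℝ → M} {t : ℝ} {y u : E} (h : Str e γ t y u) :
    γ t ∈ e.source := h.self_of_nhds.1

theorem Str.pos {e : OpenPartialHomeomorph M E} {γ : ℝ → M} {t : ℝ} {y u : E} (h : Str e γ t y u) :
    e (γ t) = y := by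
  have := h.self_of_nhds.2
  simpa using this

theorem Str.mem_target {e : OpenPartialHomeomorph M E} {γ : ℝ → M} {t : ℝ} {y u : E}
    (h : Str e γ t y u) : y ∈ e.target := by
  rw [← h.pos]
  exact e.map_source h.mem

theorem Str.eq_symm {e : OpenPartialHomeomorph M E} {γ : ℝ → M} {t : ℝ} {y u : E}
    (h : Str e γ t y u) : γ =ᶠ[𝓝 t] fun s => e.symm (y + (s - t) • u) := by
  filter_upwards [h] with s hs
  rw [← hs.2, e.left_inv hs.1]

theorem line_tendsto (t : ℝ) (y u : E) :
    Tendsto (fun s : ℝ => y + (s - t) • u) (𝓝 t) (𝓝 y) := by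
  have h : Continuous (fun s : ℝ => y + (s - t) • u) := by fun_prop
  have := h.tendsto t
  simpa using this

theorem Str.continuousAt {e : OpenPartialHomeomorph M E} {γ : ℝ → M} {t : ℝ} {y u : E}
    (h : Str e γ t y u) : ContinuousAt γ t := by
  have h1 : ContinuousAt (fun s : ℝ => e.symm (y + (s - t) • u)) t := by
    have h2 : ContinuousAt e.symm y := e.symm.continuousAt h.mem_target
    have h3 : Tendsto (fun s : ℝ => e.symm (y + (s - t) • u)) (𝓝 t) (𝓝 (e.symm y)) :=
      h2.tendsto.comp (line_tendsto t y u)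
    have h4 : e.symm (y + (t - t) • u) = e.symm y := by simp
    rw [ContinuousAt, h4]
    exact h3
  exact h1.congr h.eq_symm.symm

theorem SG.continuousAt {γ : ℝ → M} {t : ℝ} (h : SG E γ t) : ContinuousAt γ t := by
  obtain ⟨e, _, y, u, hs⟩ := h
  exact hs.continuousAt

/-- Change of chart. -/
theorem Str.change {e e' : OpenPartialHomeomorph M E} {γ : ℝ → M} {t : ℝ} {y u : E}
    (h : Str e γ t y u) (h' : γ t ∈ e'.source) (A : E ≃ᵃ[ℝ] E)
    (hA : ∀ᶠ z in 𝓝 y, (e.symm.trans e') z = A z) : Str e' γ t (A y) (A.linear u) := by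
  have h1 : ∀ᶠ s in 𝓝 t, γ s ∈ e'.source :=
    h.continuousAt.eventually_mem (e'.open_source.mem_nhds h')
  have h2 : ∀ᶠ s in 𝓝 t, (e.symm.trans e') (y + (s - t) • u) = A (y + (s - t) • u) :=
    (line_tendsto t y u).eventually hA
  filter_upwards [h, h1, h2] with s hs hs1 hs2
  refine ⟨hs1, ?_⟩
  rw [← hs.2] at hs2
  have h3 : (e.symm.trans e') (e (γ s)) = e' (γ s) := by
    simp [e.left_inv hs.1]
  rw [h3, hs.2] at hs2
  rw [hs2]
  have h4 : y + (s - t) • u = (s - t) • u +ᵥ y := by
    rw [vadd_eq_add, add_comm]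
  rw [h4, AffineEquiv.map_vadd, vadd_eq_add, add_comm]
  congr 1
  exact map_smul _ _ _

theorem trans_source_mem {e e' : OpenPartialHomeomorph M E} {x : M} (h : x ∈ e.source)
    (h' : x ∈ e'.source) : e x ∈ (e.symm.trans e').source := by
  simp only [OpenPartialHomeomorph.trans_source, OpenPartialHomeomorph.symm_source, mem_inter_iff,
    mem_preimage]
  exact ⟨e.map_source h, by rw [e.left_inv h]; exact h'⟩

theorem SG.str (hM : AffAtlas E M) {γ : ℝ → M} {t : ℝ} (h : SG E γ t) {e : OpenPartialHomeomorph M E}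
    (he : e ∈ atlas E M) (h' : γ t ∈ e.source) : ∃ y u : E, Str e γ t y u := by
  obtain ⟨e1, he1, y, u, hs⟩ := h
  obtain ⟨A, hA⟩ := hM e1 he1 e he (e1 (γ t)) (trans_source_mem hs.mem h')
  rw [hs.pos] at hA
  exact ⟨A y, A.linear u, hs.change h' A hA⟩

/-- The geodesic `s ↦ e.symm (y + (s - t) u)` is straight. -/
theorem str_symm {e : OpenPartialHomeomorph M E} {t r : ℝ} {y u : E}
    (h : y + (r - t) • u ∈ e.target) :
    Str e (fun s => e.symm (y + (s - t) • u)) r (y + (r - t) • u) u := by
  have h1 : Continuous (fun s : ℝ => y + (s - t) • u) := by fun_prop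
  have h2 : ∀ᶠ s in 𝓝 r, y + (s - t) • u ∈ e.target :=
    h1.continuousAt.eventually_mem (e.open_target.mem_nhds h)
  filter_upwards [h2] with s hs
  refine ⟨e.map_target hs, ?_⟩
  rw [e.right_inv hs, add_assoc, ← add_smul]
  congr 2
  ring

theorem eq_zero_of_eventually {s t : ℝ} {d : E} (h : ∀ᶠ r in 𝓝 s, (r - t) • d = 0) : d = 0 := by
  obtain ⟨ε, hε, hb⟩ := Metric.eventually_nhds_iff.1 h
  have h1 := hb (show dist s s < ε by simpa using hε)
  have h2 := hb (show dist (s + ε / 2) s < ε by
    rw [Real.dist_eq, add_sub_cancel_left, abs_of_pos (by linarith)]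
    linarith)
  have h3 : (ε / 2) • d = 0 := by
    have : (ε / 2) • d = (s + ε / 2 - t) • d - (s - t) • d := by
      rw [← sub_smul]
      congr 1
      ring
    rw [this, h1, h2, sub_zero]
  rcases smul_eq_zero.1 h3 with h4 | h4
  · linarith
  · exact h4

/-- Two geodesics that agree near one time agree on every preconnected set of times. -/
theorem geo_unique [T2Space M] (hM : AffAtlas E M) {J : Set ℝ} (hJ : IsPreconnected J)
    {α β : ℝ → M} (hα : ∀ t ∈ J, SG E α t) (hβ : ∀ t ∈ J, SG E β t) {t0 : ℝ} (ht0 : t0 ∈ J)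
    (h0 : α =ᶠ[𝓝 t0] β) : ∀ t ∈ J, α =ᶠ[𝓝 t] β := by
  have hopen : IsOpen {t : ℝ | α =ᶠ[𝓝 t] β} := isOpen_setOfPred_eventually_nhds
  have hsub : J ⊆ {t : ℝ | α =ᶠ[𝓝 t] β} := by
    refine hJ.subset_of_closure_inter_subset hopen ⟨t0, ht0, h0⟩ ?_
    rintro t ⟨htc, htJ⟩
    have hfr : ∃ᶠ s in 𝓝 t, s ∈ {t : ℝ | α =ᶠ[𝓝 t] β} := mem_closure_iff_frequently.1 htc
    have hfr2 : ∃ᶠ s in 𝓝 t, α s = β s := hfr.mono fun s hs => hs.self_of_nhds
    have hat : α t = β t :=
      tendsto_nhds_unique_of_frequently_eq (hα t htJ).continuousAt (hβ t htJ).continuousAt hfr2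
    obtain ⟨e, he, y, u, hs⟩ := hα t htJ
    obtain ⟨y', u', hs'⟩ := (hβ t htJ).str hM he (by rw [← hat]; exact hs.mem)
    have hyy : y = y' := by rw [← hs.pos, ← hs'.pos, hat]
    subst hyy
    have hboth : ∀ᶠ s in 𝓝 t, ∀ᶠ r in 𝓝 s, (α r ∈ e.source ∧ e (α r) = y + (r - t) • u) ∧
        (β r ∈ e.source ∧ e (β r) = y + (r - t) • u') := eventually_eventually_nhds.2 (hs.and hs')
    obtain ⟨s, hsS, hsb⟩ := (hfr.and_eventually hboth).exists
    have hz : ∀ᶠ r in 𝓝 s, (r - t) • (u - u') = 0 := by
      filter_upwards [hsS, hsb] with r hr1 hr2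
      have h1 := hr2.1.2
      have h2 := hr2.2.2
      rw [hr1, h2] at h1
      rw [smul_sub, ← add_left_cancel h1, sub_self]
    have huu : u = u' := sub_eq_zero.1 (eq_zero_of_eventually hz)
    subst huu
    exact hs.eq_symm.trans hs'.eq_symm.symm
  exact hsub

/-- Continuation of a geodesic along a segment inside one chart. -/
theorem Str.advance [T2Space M] (hM : AffAtlas E M) {e : OpenPartialHomeomorph M E}
    (he : e ∈ atlas E M) {γ : ℝ → M} (hγ : ∀ t, SG E γ t) {t : ℝ} {y u : E} (h : Str e γ t y u)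
    {s : ℝ} (hs : 0 ≤ s) (hseg : ∀ r, 0 ≤ r → r ≤ s → y + r • u ∈ e.target) :
    Str e γ (t + s) (y + s • u) u := by
  have hmem : ∀ r ∈ Icc t (t + s), y + (r - t) • u ∈ e.target := fun r hr =>
    hseg (r - t) (by linarith [hr.1]) (by linarith [hr.2])
  have huniq := geo_unique hM (isPreconnected_Icc (a := t) (b := t + s)) (fun r _ => hγ r)
    (β := fun r => e.symm (y + (r - t) • u))
    (fun r hr => ⟨e, he, _, _, str_symm (hmem r hr)⟩) (t0 := t) ⟨le_rfl, by linarith⟩ h.eq_symm
    (t + s) ⟨by linarith, le_rfl⟩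
  have h1 : Str e (fun r => e.symm (y + (r - t) • u)) (t + s) (y + s • u) u := by
    have := str_symm (e := e) (t := t) (r := t + s) (y := y) (u := u)
      (hmem (t + s) ⟨by linarith, le_rfl⟩)
    simpa using this
  unfold Str at h1 ⊢
  filter_upwards [h1, huniq] with r hr1 hr2
  rw [hr2]
  exact hr1

/-- Chains of charts along a geodesic: from the position `y` and the velocity `u` in the chart `e`
one arrives after the time `t` at the position `z` and the velocity `w` in the chart `e'`. -/
inductive Path : OpenPartialHomeomorph M E → E → E → ℝ → OpenPartialHomeomorph M E → E → E → Prop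
  | nil (e : OpenPartialHomeomorph M E) (y u : E) : Path e y u 0 e y u
  | cons (e e' e'' : OpenPartialHomeomorph M E) (y u z w : E) (s t : ℝ) (A : E ≃ᵃ[ℝ] E)
      (hs : 0 ≤ s) (he' : e' ∈ atlas E M) (hseg : ∀ r, 0 ≤ r → r ≤ s → y + r • u ∈ e.target)
      (hmem : e.symm (y + s • u) ∈ e'.source)
      (hA : ∀ᶠ z in 𝓝 (y + s • u), (e.symm.trans e') z = A z)
      (hp : Path e' (A (y + s • u)) (A.linear u) t e'' z w) : Path e y u (s + t) e'' z w

theorem Path.str [T2Space M] (hM : AffAtlas E M) {γ : ℝ → M} (hγ : ∀ t, SG E γ t)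
    {e e' : OpenPartialHomeomorph M E} {y u z w : E} {T : ℝ} (hp : Path e y u T e' z w) :
    e ∈ atlas E M → ∀ t : ℝ, Str e γ t y u → Str e' γ (t + T) z w := by
  induction hp with
  | nil e y u =>
      intro _ t h
      simpa using h
  | cons e e' e'' y u z w s T A hs he' hseg hmem hA hp ih =>
      intro he t h
      have h1 := h.advance hM he hγ hs hseg
      have h2 : γ (t + s) ∈ e'.source := by
        have h3 : γ (t + s) = e.symm (y + s • u) := by
          rw [← h1.pos, e.left_inv h1.mem]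
        rw [h3]
        exact hmem
      have h4 := h1.change h2 A hA
      have h5 := ih he' (t + s) h4
      rw [← add_assoc]
      exact h5

theorem SG.comp_affine {γ : ℝ → M} {a b t : ℝ} (h : SG E γ (a * t + b)) :
    SG E (fun s => γ (a * s + b)) t := by
  obtain ⟨e, he, y, u, hs⟩ := h
  refine ⟨e, he, y, a • u, ?_⟩
  have hc : Tendsto (fun s : ℝ => a * s + b) (𝓝 t) (𝓝 (a * t + b)) := by
    have : Continuous (fun s : ℝ => a * s + b) := by fun_prop
    exact this.tendsto t
  have := hc.eventually hs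
  filter_upwards [this] with s hs1
  refine ⟨hs1.1, ?_⟩
  rw [hs1.2, smul_smul]
  congr 2
  ring

/-- A closed geodesic whose velocity is multiplied by `lam ≠ 1` does not extend to all times. -/
theorem no_complete_aux [T2Space M] (hM : AffAtlas E M) {e : OpenPartialHomeomorph M E}
    (he : e ∈ atlas E M) {y u : E} (hu : u ≠ 0) {lam T : ℝ} (hlam : lam ≠ 1)
    (hp : Path e y u T e y (lam • u)) {γ : ℝ → M} (hγ : ∀ t, SG E γ t) (h0 : Str e γ 0 y u) :
    False := by
  have hT : Str e γ T y (lam • u) := by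
    have := hp.str hM hγ he 0 h0
    simpa using this
  have hkey : (fun s => γ (1 * s + T)) =ᶠ[𝓝 0] fun s => γ (lam * s + 0) := by
    have h1 : Tendsto (fun s : ℝ => 1 * s + T) (𝓝 0) (𝓝 T) := by
      have : Continuous (fun s : ℝ => 1 * s + T) := by fun_prop
      have := this.tendsto 0
      simpa using this
    have h2 : Tendsto (fun s : ℝ => lam * s + 0) (𝓝 0) (𝓝 0) := by
      have : Continuous (fun s : ℝ => lam * s + 0) := by fun_prop
      have := this.tendsto 0
      simpa using this
    filter_upwards [h1.eventually hT.eq_symm, h2.eventually h0.eq_symm] with s hs1 hs2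
    rw [hs1, hs2]
    congr 1
    rw [smul_smul]
    congr 2
    ring
  have hall := geo_unique hM (J := univ) isPreconnected_univ
    (α := fun s => γ (1 * s + T)) (β := fun s => γ (lam * s + 0))
    (fun t _ => SG.comp_affine (hγ _)) (fun t _ => SG.comp_affine (hγ _)) (mem_univ 0) hkey
  have heq : ∀ s : ℝ, γ (s + T) = γ (lam * s) := by
    intro s
    have := (hall s (mem_univ s)).self_of_nhds
    simpa using this
  have hl : lam - 1 ≠ 0 := sub_ne_zero.2 hlam
  set c : ℝ := T / (lam - 1) + T with hc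
  have hc2 : lam * (T / (lam - 1)) = c := by
    rw [hc]
    field_simp
    ring
  obtain ⟨e1, he1, y1, u1, hs1⟩ := hγ c
  have hloc : ∀ᶠ r in 𝓝 (0 : ℝ), (r - 0) • ((lam - 1) • u1) = 0 := by
    have h1 : Tendsto (fun r : ℝ => c + r) (𝓝 0) (𝓝 c) := by
      have : Continuous (fun r : ℝ => c + r) := by fun_prop
      have := this.tendsto 0
      simpa using this
    have h2 : Tendsto (fun r : ℝ => c + lam * r) (𝓝 0) (𝓝 c) := by
      have : Continuous (fun r : ℝ => c + lam * r) := by fun_prop
      have := this.tendsto 0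
      simpa using this
    filter_upwards [h1.eventually hs1, h2.eventually hs1] with r hr1 hr2
    have h3 : γ (c + r) = γ (c + lam * r) := by
      have := heq (T / (lam - 1) + r)
      rw [mul_add, hc2] at this
      rw [← this]
      congr 1
      rw [hc]
      ring
    have h4 := hr1.2
    rw [h3, hr2.2] at h4
    have h5 := add_left_cancel h4
    have h6 : (c + lam * r - c) • u1 - (c + r - c) • u1 = 0 := by rw [h5, sub_self]
    rw [← sub_smul] at h6
    rw [smul_smul]
    have h7 : (r - 0) * (lam - 1) = c + lam * r - c - (c + r - c) := by ring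
    rw [h7]
    exact h6
  have hu1 : u1 = 0 := by
    have := eq_zero_of_eventually hloc
    rcases smul_eq_zero.1 this with h | h
    · exact absurd h hl
    · exact h
  subst hu1
  have hconst : γ =ᶠ[𝓝 c] fun _ => e1.symm y1 := by
    filter_upwards [hs1.eq_symm] with s hs
    rw [hs]
    simp
  have hy1 : e1.symm y1 ∈ e1.source := e1.map_target hs1.mem_target
  have hcg : ∀ t : ℝ, SG E (fun _ : ℝ => e1.symm y1) t := by
    intro t
    refine ⟨e1, he1, y1, 0, ?_⟩
    refine Eventually.of_forall fun s => ⟨hy1, ?_⟩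
    simp [e1.right_inv hs1.mem_target]
  have hall2 := geo_unique hM (J := univ) isPreconnected_univ (fun t _ => hγ t)
    (fun t _ => hcg t) (mem_univ c) hconst 0 (mem_univ 0)
  have hfin : ∀ᶠ r in 𝓝 (0 : ℝ), (r - 0) • u = 0 := by
    have h1 : γ 0 = e1.symm y1 := hall2.self_of_nhds
    filter_upwards [h0, hall2] with r hr1 hr2
    have h2 := hr1.2
    rw [hr2, ← h1, h0.pos] at h2
    have h3 : y + (0 : E) = y + (r - 0) • u := by rw [add_zero]; exact h2
    exact (add_left_cancel h3).symm
  exact hu (eq_zero_of_eventually hfin)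

/-- The incompleteness criterion in the form of the frozen statement. -/
theorem no_complete [T2Space M] (hM : AffAtlas E M) {e : OpenPartialHomeomorph M E}
    (he : e ∈ atlas E M) {y u : E} (hy : y ∈ e.target) (hu : u ≠ 0) {lam T : ℝ} (hlam : lam ≠ 1)
    (hp : Path e y u T e y (lam • u)) :
    ¬ ∀ (x : M) (v : E), ∃ γ : ℝ → M, Continuous γ ∧ γ 0 = x ∧
        (∀ᶠ s in nhds (0 : ℝ), γ s ∈ (chartAt E x).source ∧
          chartAt E x (γ s) = chartAt E x x + s • v) ∧
        ∀ t : ℝ, ∃ p w : E, ∀ᶠ s in nhds t,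
          γ s ∈ (chartAt E (γ t)).source ∧ chartAt E (γ t) (γ s) = p + s • w := by
  intro hall
  set x : M := e.symm y with hx
  have hxe : x ∈ e.source := e.map_target hy
  have hxc : x ∈ (chartAt E x).source := mem_chart_source E x
  obtain ⟨B, hB⟩ := hM (chartAt E x) (chart_mem_atlas E x) e he (chartAt E x x)
    (trans_source_mem hxc hxe)
  obtain ⟨γ, hcont, h0, hini, hgeo⟩ := hall x (B.linear.symm u)
  have hγ : ∀ t, SG E γ t := by
    intro t
    obtain ⟨p, w, hpw⟩ := hgeo t
    refine ⟨chartAt E (γ t), chart_mem_atlas E _, p + t • w, w, ?_⟩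
    filter_upwards [hpw] with s hs
    refine ⟨hs.1, ?_⟩
    rw [hs.2, add_assoc, ← add_smul]
    congr 2
    ring
  have hstr : Str (chartAt E x) γ 0 (chartAt E x x) (B.linear.symm u) := by
    filter_upwards [hini] with s hs
    refine ⟨hs.1, ?_⟩
    rw [hs.2, sub_zero]
  have hstr2 := hstr.change (e' := e) (by rw [h0]; exact hxe) B hB
  have h1 : B (chartAt E x x) = y := by
    have := hstr2.pos
    rw [h0, hx, e.right_inv hy] at this
    exact this.symm
  have h2 : B.linear (B.linear.symm u) = u := B.linear.apply_symm_apply u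
  rw [h1, h2] at hstr2
  exact no_complete_aux hM he hu hlam hp hγ hstr2

end

end Pool.Agent.MkC
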