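import Pool.Agent.MkC.Loc

/-!
# The product with a circle

From gluing data in dimension `n` one gets gluing data in dimension `n + 1`: the pieces are
`U i × (0, 2)` and the maps are `φ × (s ↦ s + t)` with `t ∈ {-1, 0, 1}`.  Straight paths,
diagonality of the maps and connectedness are inherited.
-/

set_option autoImplicit false

open Set Topology Filter

namespace Pool.Agent.MkC

variable {n : ℕ}

/-- the first `n` coordinates -/
noncomputable def ini (x : E (n + 1)) : E n := WithLp.toLp 2 fun i => x i.castSucc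

/-- the last coordinate -/
def lst (x : E (n + 1)) : ℝ := x (Fin.last n)

/-- the point with given first coordinates and last coordinate -/
noncomputable def join (y : E n) (s : ℝ) : E (n + 1) :=
  WithLp.toLp 2 (Fin.snoc (α := fun _ => ℝ) (fun i => y i) s)

theorem join_castSucc (y : E n) (s : ℝ) (i : Fin n) : join y s i.castSucc = y i := by
  simp [join]

theorem join_last (y : E n) (s : ℝ) : join y s (Fin.last n) = s := by
  simp [join]

theorem ini_join (y : E n) (s : ℝ) : ini (join y s) = y := by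
  ext i
  exact join_castSucc y s i

theorem lst_join (y : E n) (s : ℝ) : lst (join y s) = s := join_last y s

theorem ext_last {x y : E (n + 1)} (h : ini x = ini y) (h' : lst x = lst y) : x = y := by
  ext k
  refine Fin.lastCases h' (fun i => ?_) k
  exact congrFun (congrArg WithLp.ofLp h) i

theorem join_ini_lst (x : E (n + 1)) : join (ini x) (lst x) = x :=
  ext_last (ini_join _ _) (lst_join _ _)

theorem ini_add (x y : E (n + 1)) : ini (x + y) = ini x + ini y := rfl
theorem lst_add (x y : E (n + 1)) : lst (x + y) = lst x + lst y := rfl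
theorem ini_smul (c : ℝ) (x : E (n + 1)) : ini (c • x) = c • ini x := rfl
theorem lst_smul (c : ℝ) (x : E (n + 1)) : lst (c • x) = c * lst x := rfl

theorem join_add (y z : E n) (s t : ℝ) : join (y + z) (s + t) = join y s + join z t :=
  ext_last (by rw [ini_add, ini_join, ini_join, ini_join])
    (by rw [lst_add, lst_join, lst_join, lst_join])

theorem join_smul (c : ℝ) (y : E n) (s : ℝ) : join (c • y) (c * s) = c • join y s :=
  ext_last (by rw [ini_smul, ini_join, ini_join])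
    (by rw [lst_smul, lst_join, lst_join])

/-- the splitting of the last coordinate -/
noncomputable def splitE (n : ℕ) : E (n + 1) ≃ₗ[ℝ] E n × ℝ where
  toFun x := (ini x, lst x)
  invFun p := join p.1 p.2
  map_add' _ _ := rfl
  map_smul' _ _ := rfl
  left_inv x := join_ini_lst x
  right_inv _ := Prod.ext (ini_join _ _) (lst_join _ _)

theorem continuous_ini : Continuous (ini : E (n + 1) → E n) :=
  (continuous_fst.comp (splitE n).toContinuousLinearEquiv.continuous :
    Continuous fun x => ((splitE n) x).1)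

theorem continuous_lst : Continuous (lst : E (n + 1) → ℝ) :=
  (continuous_snd.comp (splitE n).toContinuousLinearEquiv.continuous :
    Continuous fun x => ((splitE n) x).2)

theorem continuous_join : Continuous fun p : E n × ℝ => join p.1 p.2 :=
  ((splitE n).symm.toContinuousLinearEquiv.continuous : Continuous fun p => (splitE n).symm p)

/-! ### Maps -/

/-- the map `φ × (s ↦ s + t)` -/
noncomputable def lift (φ : E n ≃ᵃ[ℝ] E n) (t : ℝ) : E (n + 1) ≃ᵃ[ℝ] E (n + 1) where
  toFun x := join (φ (ini x)) (lst x + t)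
  invFun x := join (φ.symm (ini x)) (lst x - t)
  left_inv x := ext_last (by rw [ini_join, ini_join, AffineEquiv.symm_apply_apply])
    (by rw [lst_join, lst_join, add_sub_cancel_right])
  right_inv x := ext_last (by rw [ini_join, ini_join, AffineEquiv.apply_symm_apply])
    (by rw [lst_join, lst_join, sub_add_cancel])
  linear := ((splitE n).trans (φ.linear.prodCongr (LinearEquiv.refl ℝ ℝ))).trans (splitE n).symm
  map_vadd' x v := by
    change join (φ (ini (v + x))) (lst (v + x) + t)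
      = join (φ.linear (ini v)) (lst v) + join (φ (ini x)) (lst x + t)
    rw [ini_add, lst_add, ← join_add, add_assoc]
    congr 1
    exact φ.map_vadd (ini x) (ini v)

theorem lift_apply (φ : E n ≃ᵃ[ℝ] E n) (t : ℝ) (x : E (n + 1)) :
    lift φ t x = join (φ (ini x)) (lst x + t) := rfl

theorem lift_join (φ : E n ≃ᵃ[ℝ] E n) (t : ℝ) (y : E n) (s : ℝ) :
    lift φ t (join y s) = join (φ y) (s + t) := by
  rw [lift_apply, ini_join, lst_join]

theorem ini_lift (φ : E n ≃ᵃ[ℝ] E n) (t : ℝ) (x : E (n + 1)) : ini (lift φ t x) = φ (ini x) := by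
  rw [lift_apply, ini_join]

theorem lst_lift (φ : E n ≃ᵃ[ℝ] E n) (t : ℝ) (x : E (n + 1)) : lst (lift φ t x) = lst x + t := by
  rw [lift_apply, lst_join]

theorem lift_linear (φ : E n ≃ᵃ[ℝ] E n) (t : ℝ) (v : E (n + 1)) :
    (lift φ t).linear v = join (φ.linear (ini v)) (lst v) := rfl

theorem lift_linear_join (φ : E n ≃ᵃ[ℝ] E n) (t : ℝ) (v : E n) (s : ℝ) :
    (lift φ t).linear (join v s) = join (φ.linear v) s := by
  rw [lift_linear, ini_join, lst_join]

theorem lift_refl : lift (AffineEquiv.refl ℝ (E n)) 0 = AffineEquiv.refl ℝ (E (n + 1)) := by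
  ext1 x
  rw [lift_apply, AffineEquiv.refl_apply, AffineEquiv.refl_apply, add_zero, join_ini_lst]

theorem lift_trans (φ ψ : E n ≃ᵃ[ℝ] E n) (s t : ℝ) :
    (lift φ s).trans (lift ψ t) = lift (φ.trans ψ) (s + t) := by
  ext1 x
  rw [AffineEquiv.trans_apply, lift_apply φ, lift_join, lift_apply, AffineEquiv.trans_apply,
    add_assoc]

theorem lift_symm (φ : E n ≃ᵃ[ℝ] E n) (t : ℝ) : (lift φ t).symm = lift φ.symm (-t) := by
  ext1 x
  change join (φ.symm (ini x)) (lst x - t) = join (φ.symm (ini x)) (lst x + -t)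
  rw [sub_eq_add_neg]

theorem det_lift (φ : E n ≃ᵃ[ℝ] E n) (t : ℝ) :
    LinearMap.det ((lift φ t).linear : E (n + 1) →ₗ[ℝ] E (n + 1))
      = LinearMap.det (φ.linear : E n →ₗ[ℝ] E n) := by
  have h1 : ((lift φ t).linear : E (n + 1) →ₗ[ℝ] E (n + 1)) =
      ((splitE n).symm : E n × ℝ →ₗ[ℝ] E (n + 1)) ∘ₗ
        ((φ.linear : E n →ₗ[ℝ] E n).prodMap LinearMap.id) ∘ₗ
        ((splitE n).symm.symm : E (n + 1) →ₗ[ℝ] E n × ℝ) := rfl
  rw [h1, LinearMap.det_conj, LinearMap.det_prodMap, LinearMap.det_id, mul_one]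

/-- the linear part is diagonal -/
def IsDiag (φ : E n ≃ᵃ[ℝ] E n) : Prop := ∃ a : Fin n → ℝ, ∀ v k, φ.linear v k = a k * v k

theorem IsDiag.lift {φ : E n ≃ᵃ[ℝ] E n} (h : IsDiag φ) (t : ℝ) : IsDiag (lift φ t) := by
  obtain ⟨a, ha⟩ := h
  refine ⟨Fin.snoc (α := fun _ => ℝ) a 1, fun v k => ?_⟩
  rw [lift_linear]
  refine Fin.lastCases ?_ (fun i => ?_) k
  · rw [join_last, Fin.snoc_last, one_mul]
    rfl
  · rw [join_castSucc, Fin.snoc_castSucc, ha]
    rfl

namespace GlueL

/-! ### The product -/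

/-- the product with a circle of length one -/
noncomputable def prod (D : GlueL n) : GlueL (n + 1) where
  I := D.I
  finI := D.finI
  U i := {x | ini x ∈ D.U i ∧ lst x ∈ Ioo (0 : ℝ) 2}
  Φ i j := image2 MkC.lift (D.Φ i j) {-1, 0, 1}
  U_open i := ((D.U_open i).preimage continuous_ini).inter (isOpen_Ioo.preimage continuous_lst)
  Φ_fin i j := (D.Φ_fin i j).image2 _ (by simp)
  Φ_det i j := by
    rintro _ ⟨φ, hφ, t, -, rfl⟩
    rw [det_lift]
    exact D.Φ_det i j φ hφ
  Φ_refl i := ⟨_, D.Φ_refl i, 0, by simp, lift_refl⟩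
  Φ_symm i j := by
    rintro _ ⟨φ, hφ, t, ht, rfl⟩
    refine ⟨φ.symm, D.Φ_symm i j φ hφ, -t, ?_, (lift_symm φ t).symm⟩
    rcases ht with rfl | rfl | rfl <;> simp
  Φ_trans i j k := by
    rintro _ ⟨φ, hφ, s, hs, rfl⟩ _ ⟨ψ, hψ, t, ht, rfl⟩ x ⟨h1, h2⟩ ⟨h3, h4⟩ ⟨h5, h6⟩
    rw [ini_lift] at h3
    rw [ini_lift, ini_lift] at h5
    rw [lst_lift, lst_lift] at h6
    refine ⟨φ.trans ψ, D.Φ_trans i j k φ hφ ψ hψ _ h1 h3 h5, s + t, ?_, (lift_trans _ _ _ _).symm⟩
    obtain ⟨a1, a2⟩ := h2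
    obtain ⟨a3, a4⟩ := h6
    rcases hs with rfl | rfl | rfl <;> rcases ht with rfl | rfl | rfl <;> norm_num <;> linarith
  Φ_free i := by
    rintro _ ⟨φ, hφ, t, ht, rfl⟩ x ⟨h1, -⟩ hx
    have e1 : φ (ini x) = ini x := by rw [← ini_lift φ t, hx]
    have e2 : t = 0 := by
      have := lst_lift φ t x
      rw [hx] at this
      linarith
    rw [D.Φ_free i φ hφ _ h1 e1, e2, lift_refl]
  K i := (fun p : E n × ℝ => join p.1 p.2) '' (D.K i ×ˢ Icc (1 / 2 : ℝ) (3 / 2))
  K_comp i := ((D.K_comp i).prod isCompact_Icc).image continuous_join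
  K_sub i := by
    rintro _ ⟨⟨y, s⟩, ⟨h1, h2, h3⟩, rfl⟩
    refine ⟨?_, ?_⟩
    · change ini (join y s) ∈ D.U i
      rw [ini_join]
      exact D.K_sub i h1
    · change lst (join y s) ∈ Ioo (0 : ℝ) 2
      rw [lst_join]
      exact ⟨by linarith, by linarith⟩
  K_cover i := by
    rintro x ⟨h1, h2, h3⟩
    obtain ⟨j, φ, hφ, h4⟩ := D.K_cover i _ h1
    obtain ⟨t, ht, h5⟩ : ∃ t : ℝ, t ∈ ({-1, 0, 1} : Set ℝ) ∧ lst x + t ∈ Icc (1 / 2 : ℝ) (3 / 2) := by
      rcases lt_or_ge (lst x) (1 / 2) with h | h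
      · exact ⟨1, by simp, by linarith, by linarith⟩
      · rcases lt_or_ge (3 / 2) (lst x) with h' | h'
        · exact ⟨-1, by simp, by linarith, by linarith⟩
        · exact ⟨0, by simp, by linarith, by linarith⟩
    exact ⟨j, MkC.lift φ t, ⟨φ, hφ, t, ht, rfl⟩, ⟨(φ (ini x), lst x + t), ⟨h4, h5⟩, rfl⟩⟩

variable {D : GlueL n}

theorem mem_prod_U {i : D.I} {y : E n} {s : ℝ} :
    join y s ∈ D.prod.U i ↔ y ∈ D.U i ∧ s ∈ Ioo (0 : ℝ) 2 := by
  change ini (join y s) ∈ D.U i ∧ lst (join y s) ∈ Ioo (0 : ℝ) 2 ↔ _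
  rw [ini_join, lst_join]

theorem one_mem : (1 : ℝ) ∈ Ioo (0 : ℝ) 2 := ⟨one_pos, one_lt_two⟩

theorem join_line (y u : E n) (r : ℝ) : join y 1 + r • join u 0 = join (y + r • u) 1 := by
  rw [← join_smul, ← join_add, mul_zero, add_zero]

theorem lift_mem {i j : D.I} {φ : E n ≃ᵃ[ℝ] E n} (hφ : φ ∈ D.Φ i j) :
    MkC.lift φ 0 ∈ D.prod.Φ i j := ⟨φ, hφ, 0, by simp, rfl⟩

/-- straight paths lift to the product -/
theorem Steps.prod {i k : D.I} {y u z w : E n} {t : ℝ} (h : D.Steps i y u t k z w) :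
    D.prod.Steps i (join y 1) (join u 0) t k (join z 1) (join w 0) := by
  induction h with
  | nil i y u => exact Steps.nil (D := D.prod) i _ _
  | @cons i j k y u z w s t φ hs hseg hφ hj h ih =>
    have e1 : MkC.lift φ 0 (join y 1 + s • join u 0) = join (φ (y + s • u)) 1 := by
      rw [join_line, lift_join, add_zero]
    refine Steps.cons (D := D.prod) (MkC.lift φ 0) hs (fun r h0 h1 => ?_) (lift_mem hφ) ?_ ?_
    · rw [join_line]
      exact mem_prod_U.2 ⟨hseg r h0 h1, one_mem⟩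
    · rw [e1]
      exact mem_prod_U.2 ⟨hj, one_mem⟩
    · rw [e1, lift_linear_join]
      exact ih

theorem join_ne {u : E n} (hu : u ≠ 0) : join u 0 ≠ 0 := by
  intro h
  apply hu
  have h1 : ini (join u 0) = ini (0 : E (n + 1)) := by rw [h]
  rw [ini_join] at h1
  rw [h1]
  rfl

theorem prod_diag (h : ∀ i j, ∀ φ ∈ D.Φ i j, IsDiag φ) (i j : D.prod.I) :
    ∀ φ ∈ D.prod.Φ i j, IsDiag φ := by
  rintro _ ⟨φ, hφ, t, -, rfl⟩
  exact (h i j φ hφ).lift t

theorem prod_preconnected (h : ∀ i, IsPreconnected (D.U i)) (i : D.prod.I) :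
    IsPreconnected (D.prod.U i) := by
  have h1 : D.prod.U i = (fun p : E n × ℝ => join p.1 p.2) '' (D.U i ×ˢ Ioo (0 : ℝ) 2) := by
    ext x
    constructor
    · rintro ⟨h2, h3⟩
      exact ⟨(ini x, lst x), ⟨h2, h3⟩, join_ini_lst x⟩
    · rintro ⟨⟨y, s⟩, ⟨h2, h3⟩, rfl⟩
      exact mem_prod_U.2 ⟨h2, h3⟩
  rw [h1]
  exact ((h i).prod isPreconnected_Ioo).image _ continuous_join.continuousOn

/-- the overlap relation of the pieces -/
def Adj (D : GlueL n) (i j : D.I) : Prop := ∃ φ ∈ D.Φ i j, ∃ x ∈ D.U i, φ x ∈ D.U j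

theorem Adj.prod {i j : D.I} (h : D.Adj i j) : D.prod.Adj i j := by
  obtain ⟨φ, hφ, x, hx, hx'⟩ := h
  refine ⟨MkC.lift φ 0, lift_mem hφ, join x 1, mem_prod_U.2 ⟨hx, one_mem⟩, ?_⟩
  rw [lift_join, add_zero]
  exact mem_prod_U.2 ⟨hx', one_mem⟩

theorem prod_graph (h : ∀ i j, Relation.ReflTransGen D.Adj i j) (i j : D.prod.I) :
    Relation.ReflTransGen D.prod.Adj i j :=
  Relation.ReflTransGen.mono (r := D.Adj) (p := (D.prod.Adj : D.I → D.I → Prop))
    (fun _ _ h' => Adj.prod h') i j (h i j)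

/-! ### Iteration -/

/-- everything that is inherited by products: a closed straight path of increasing velocity,
diagonal maps, connectedness -/
structure Good (D : GlueL n) : Prop where
  diag : ∀ i j, ∀ φ ∈ D.Φ i j, IsDiag φ
  pre : ∀ i, IsPreconnected (D.U i)
  graph : ∀ i j, Relation.ReflTransGen D.Adj i j
  loop : ∃ (i : D.I) (y u : E n) (T lam : ℝ), y ∈ D.U i ∧ u ≠ 0 ∧ 1 < lam ∧
    D.Steps i y u T i y (lam • u)

theorem Good.prod (h : Good D) : Good D.prod where
  diag := prod_diag h.diag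
  pre := prod_preconnected h.pre
  graph := prod_graph h.graph
  loop := by
    obtain ⟨i, y, u, T, lam, h1, h2, h3, h4⟩ := h.loop
    refine ⟨i, join y 1, join u 0, T, lam, mem_prod_U.2 ⟨h1, one_mem⟩, join_ne h2, h3, ?_⟩
    have h5 := h4.prod
    rwa [show join (lam • u) (0 : ℝ) = lam • join u 0 by rw [← join_smul, mul_zero]] at h5

/-- good gluing data in dimension `m` give good gluing data in all higher dimensions -/
theorem exists_good {m : ℕ} (D : GlueL m) (h : Good D) (n : ℕ) (hn : m ≤ n) :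
    ∃ D' : GlueL n, Good D' := by
  induction n, hn using Nat.le_induction with
  | base => exact ⟨D, h⟩
  | succ n _ ih =>
    obtain ⟨D', h'⟩ := ih
    exact ⟨D'.prod, h'.prod⟩

end GlueL

end Pool.Agent.MkC
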