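import Pool.Agent.MkC.Fast
import Pool.Agent.MkC.ProdL

/-!
# Checked box data are good gluing data

`good_of_chartOkF`: exact box data which pass the checks of `Box.lean` satisfy the structure
`GlueL.Good`: the maps are diagonal, the pieces are preconnected and there is a closed straight
path of increasing velocity.  The overlap graph is a hypothesis here.
-/

set_option autoImplicit false

open Set

namespace Pool.Agent.MkC

theorem convex_oBox (D : Nat) (B : Bx) : Convex ℝ (oBox D B) := by
  intro x hx y hy a b ha hb hab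
  have h1 : a • x + b • y = x + b • (y - x) := by
    have h2 : a = 1 - b := by linarith
    rw [h2, sub_smul, one_smul, smul_sub]
    abel
  rw [h1]
  exact segment_oBox hx hy hb (by linarith)

theorem isPreconnected_oBox (D : Nat) (B : Bx) : IsPreconnected (oBox D B) :=
  (convex_oBox D B).isPreconnected

theorem Mp.Is.isDiag {D : Nat} (hD : 0 < D) {a : Mp} (h : 0 < a.d) {φ : E 3 ≃ᵃ[ℝ] E 3}
    (hφ : a.Is D φ) : IsDiag φ :=
  ⟨_, fun v k => hφ.linear hD h v k⟩

theorem glueF_diag {D : Nat} (hD : 0 < D) {L : List Chart} (hL : ∀ j < L.length, ChartOkF L j)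
    (i j : (glueF hD hL).I) : ∀ φ ∈ (glueF hD hL).Φ i j, IsDiag φ := by
  rintro φ ⟨e, he, -, h⟩
  have h1 := (hL (i : Fin L.length).1 (i : Fin L.length).2).nb e he
  exact h.isDiag hD (Mp.ok_iff h1.1).1

theorem glueF_pre {D : Nat} (hD : 0 < D) {L : List Chart} (hL : ∀ j < L.length, ChartOkF L j)
    (i : (glueF hD hL).I) : IsPreconnected ((glueF hD hL).U i) :=
  isPreconnected_oBox D _

theorem glueF_loop {D : Nat} (hD : 0 < D) {L : List Chart} (hL : ∀ j < L.length, ChartOkF L j)
    {i m k : Nat} {h : Int} (hloop : checkLoop L i m k h = true) :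
    ∃ (i : (glueF hD hL).I) (y u : E 3) (T lam : ℝ), y ∈ (glueF hD hL).U i ∧ u ≠ 0 ∧ 1 < lam ∧
      (glueF hD hL).Steps i y u T i y (lam • u) := by
  simp only [checkLoop, Bool.and_eq_true, decide_eq_true_eq] at hloop
  obtain ⟨⟨hi, hU⟩, h1⟩ := hloop
  cases hm : (getC L i).nb[m]? with
  | none => rw [hm] at h1; exact absurd h1 (by simp)
  | some e =>
    rw [hm] at h1
    simp only [Bool.and_eq_true, Nat.beq_eq] at h1
    obtain ⟨h2, h3⟩ := h1
    have he : e ∈ (getC L i).nb := List.mem_of_getElem? hm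
    have h4 := ((hL i hi).nb e he).1
    obtain ⟨φ, hφ⟩ := Mp.exists_is hD h4
    obtain ⟨y₀, y₁, lam, g0, g1, g2, g3, g4, g5⟩ := loop_points hD h4 hφ hU h3
    exact ⟨⟨i, hi⟩, y₀, y₁ - y₀, 1 + 0, lam, g0, g3, g4,
      steps_of (G := glueF hD hL) (i := ⟨i, hi⟩) ⟨e, he, h2, hφ⟩ g0 g2 g5
        fun r h0 h1 => segment_oBox g0 g1 h0 h1⟩

/-- box data which pass the checks, with a connected overlap graph, are good -/
theorem good_of_chartOkF {D : Nat} (hD : 0 < D) {L : List Chart}
    (hL : ∀ j < L.length, ChartOkF L j) {i m k : Nat} {h : Int}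
    (hloop : checkLoop L i m k h = true)
    (hG : ∀ i j, Relation.ReflTransGen (glueF hD hL).Adj i j) : (glueF hD hL).Good where
  diag := glueF_diag hD hL
  pre := glueF_pre hD hL
  graph := hG
  loop := glueF_loop hD hL hloop

end Pool.Agent.MkC
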