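import Pool.Agent.MkC.GoodA
import Pool.Agent.MkC.CertA.AllF

/-!
# Connectedness of the overlap graph, and good gluing data in every dimension

`connCheck` is a decidable check of the connectedness of the overlap graph of box data.
`exists_goodA` is good gluing data in dimension three, `exists_good_dim` in every dimension
at least three.
-/

set_option autoImplicit false

open Set

namespace Pool.Agent.MkC

/-- `l < x < h`, and the image of `x` under `x ↦ (n x + m) / d` is in `(lo, hi)` -/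
def hit1 (d : Nat) (n m l h lo hi x : Int) : Bool :=
  decide (l < x) && decide (x < h) &&
    (decide ((d : Int) * lo < n * x + m) && decide (n * x + m < d * hi))

theorem hit1_sound {d : Nat} (hd : 0 < d) {n m l h lo hi x : Int}
    (hc : hit1 d n m l h lo hi x = true) :
    ((l : ℝ) < x ∧ (x : ℝ) < h) ∧
      ∀ y : ℝ, (d : ℝ) * y = n * x + m → (lo : ℝ) < y ∧ y < (hi : ℝ) := by
  simp only [hit1, Bool.and_eq_true, decide_eq_true_eq] at hc
  obtain ⟨⟨h1, h2⟩, h3, h4⟩ := hc
  have hd' : (0 : ℝ) < d := by exact_mod_cast hd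
  have h3' : (d : ℝ) * lo < n * x + m := by exact_mod_cast h3
  have h4' : (n : ℝ) * x + m < d * hi := by exact_mod_cast h4
  refine ⟨⟨by exact_mod_cast h1, by exact_mod_cast h2⟩, fun y hy => ?_⟩
  rw [← hy] at h3' h4'
  exact ⟨lt_of_mul_lt_mul_left h3' hd'.le, lt_of_mul_lt_mul_left h4' hd'.le⟩

/-- the point is in `U` and its image is in `V` -/
def Mp.hit (a : Mp) (U V : Bx) (x0 x1 x2 : Int) : Bool :=
  hit1 a.d a.n0 a.m0 U.l0 U.h0 V.l0 V.h0 x0 && (hit1 a.d a.n1 a.m1 U.l1 U.h1 V.l1 V.h1 x1 &&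
    hit1 a.d a.n2 a.m2 U.l2 U.h2 V.l2 V.h2 x2)

theorem Mp.hit_sound {D : Nat} (hD : 0 < D) {a : Mp} (ha : 0 < a.d) {φ : E 3 ≃ᵃ[ℝ] E 3}
    (hφ : a.Is D φ) {U V : Bx} {x0 x1 x2 : Int} (h : a.hit U V x0 x1 x2 = true) :
    pt D x0 x1 x2 ∈ oBox D U ∧ φ (pt D x0 x1 x2) ∈ oBox D V := by
  simp only [Mp.hit, Bool.and_eq_true] at h
  obtain ⟨h0, h1, h2⟩ := h
  obtain ⟨a0, b0⟩ := hit1_sound ha h0
  obtain ⟨a1, b1⟩ := hit1_sound ha h1
  obtain ⟨a2, b2⟩ := hit1_sound ha h2
  obtain ⟨e0, e1, e2⟩ := pt_coord hD (x0 : ℝ) x1 x2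
  obtain ⟨f0, f1, f2⟩ := hφ (pt D x0 x1 x2)
  rw [e0] at f0
  rw [e1] at f1
  rw [e2] at f2
  exact ⟨mem_oBox_pt hD a0 a1 a2, Bx.mem_open.2 ⟨b0 _ f0, b1 _ f1, b2 _ f2⟩⟩

/-- an edge of the overlap graph: chart `i`, transition number `m`, an integer point -/
structure Edge where
  i : Nat
  m : Nat
  x0 : Int
  x1 : Int
  x2 : Int

/-- all charts are reached from the list `R` along the edges -/
def conn (L : List Chart) (R : List Nat) : List Edge → Bool
  | [] => (List.range L.length).all fun i => R.any (Nat.beq i)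
  | g :: es =>
    match (getC L g.i).nb[g.m]? with
    | none => false
    | some e => decide (g.i < L.length) && (R.any (Nat.beq e.c)) &&
        e.a.hit (getC L g.i).U (getC L e.c).U g.x0 g.x1 g.x2 && conn L (g.i :: R) es

/-- the overlap graph is connected -/
def connCheck (L : List Chart) (es : List Edge) : Bool :=
  decide (0 < L.length) && conn L [0] es

theorem GlueL.Adj.symm {n : ℕ} {D : GlueL n} {i j : D.I} (h : D.Adj i j) : D.Adj j i := by
  obtain ⟨φ, hφ, x, hx, hx'⟩ := h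
  refine ⟨φ.symm, D.Φ_symm i j φ hφ, φ x, hx', ?_⟩
  rw [AffineEquiv.symm_apply_apply]
  exact hx

variable {D : Nat} {L : List Chart}

theorem adj_of_hit (hD : 0 < D) (hL : ∀ j < L.length, ChartOkF L j) {g : Edge} {e : Nb}
    (hi : g.i < L.length) (he : (getC L g.i).nb[g.m]? = some e)
    (hh : e.a.hit (getC L g.i).U (getC L e.c).U g.x0 g.x1 g.x2 = true) (hc : e.c < L.length) :
    (glueF hD hL).Adj (⟨g.i, hi⟩ : Fin L.length) (⟨e.c, hc⟩ : Fin L.length) := by
  have he' : e ∈ (getC L g.i).nb := List.mem_of_getElem? he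
  have h4 := ((hL g.i hi).nb e he').1
  obtain ⟨φ, hφ⟩ := Mp.exists_is hD h4
  obtain ⟨h5, h6⟩ := Mp.hit_sound hD (Mp.ok_iff h4).1 hφ hh
  exact ⟨φ, ⟨e, he', rfl, hφ⟩, _, h5, h6⟩

theorem conn_sound (hD : 0 < D) (hL : ∀ j < L.length, ChartOkF L j) (i₀ : Fin L.length) :
    ∀ (es : List Edge) (R : List Nat), (∀ r ∈ R, ∃ hr : r < L.length,
      Relation.ReflTransGen (glueF hD hL).Adj (⟨r, hr⟩ : Fin L.length) i₀ ∧
      Relation.ReflTransGen (glueF hD hL).Adj i₀ (⟨r, hr⟩ : Fin L.length)) →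
      conn L R es = true → ∀ i : Fin L.length,
        Relation.ReflTransGen (glueF hD hL).Adj i i₀ ∧
        Relation.ReflTransGen (glueF hD hL).Adj i₀ i := by
  intro es
  induction es with
  | nil =>
    intro R hR hc i
    simp only [conn, List.all_eq_true, List.mem_range, List.any_eq_true, Nat.beq_eq] at hc
    obtain ⟨r, hr, h1⟩ := hc i.1 i.2
    obtain ⟨h2, h3⟩ := hR r hr
    subst h1
    exact h3
  | cons g es ih =>
    intro R hR hc
    unfold conn at hc
    cases hm : (getC L g.i).nb[g.m]? with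
    | none => rw [hm] at hc; exact absurd hc (by simp)
    | some e =>
      rw [hm] at hc
      simp only [Bool.and_eq_true, decide_eq_true_eq, List.any_eq_true, Nat.beq_eq] at hc
      obtain ⟨⟨⟨hi, r, hr, hre⟩, hh⟩, hc⟩ := hc
      refine ih (g.i :: R) (fun s hs => ?_) hc
      rcases List.mem_cons.1 hs with rfl | hs
      · subst hre
        obtain ⟨h2, h3, h4⟩ := hR _ hr
        have h5 := adj_of_hit hD hL hi hm hh h2
        exact ⟨hi, Relation.ReflTransGen.head h5 h3, Relation.ReflTransGen.tail h4 h5.symm⟩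
      · exact hR s hs

theorem graph_of_connCheck (hD : 0 < D) (hL : ∀ j < L.length, ChartOkF L j) {es : List Edge}
    (h : connCheck L es = true) (i j : (glueF hD hL).I) :
    Relation.ReflTransGen (glueF hD hL).Adj i j := by
  simp only [connCheck, Bool.and_eq_true, decide_eq_true_eq] at h
  obtain ⟨h0, h1⟩ := h
  have h2 := conn_sound hD hL (⟨0, h0⟩ : Fin L.length) es [0] (by
    intro r hr
    rw [List.mem_singleton] at hr
    subst hr
    exact ⟨h0, Relation.ReflTransGen.refl, Relation.ReflTransGen.refl⟩) h1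
  exact (h2 i).1.trans (h2 j).2

/-- **Checked box data are good gluing data.** -/
theorem good_of_check (hD : 0 < D) (hL : ∀ j < L.length, checkFast L j = true) {i m k : Nat}
    {h : Int} (hloop : checkLoop L i m k h = true) {es : List Edge} (hes : connCheck L es = true) :
    (glueF hD fun j hj => chartOkF_of_check (hL j hj)).Good :=
  good_of_chartOkF hD _ hloop (graph_of_connCheck hD _ hes)

/-- the edges: all charts overlap with chart 0 -/
def edgesA : List Edge :=
  [⟨1, 0, -6144, -6144, -6144⟩, ⟨2, 0, 512, 7168, 13824⟩, ⟨3, 0, 544, -7200, -13824⟩,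
   ⟨4, 0, 512, 14848, 4608⟩, ⟨5, 0, 736, -14848, -4608⟩, ⟨6, 0, 13824, 512, 7168⟩,
   ⟨7, 0, -13824, 544, -7200⟩, ⟨8, 0, 4608, 512, 14848⟩, ⟨9, 0, -4608, 736, -14848⟩,
   ⟨10, 0, 7168, 13824, 512⟩, ⟨11, 0, -7200, -13824, 544⟩, ⟨12, 0, 14848, 4608, 512⟩,
   ⟨13, 0, -14848, -4608, 736⟩, ⟨14, 0, 7168, 7168, 7168⟩, ⟨15, 0, 17408, 17408, 17408⟩,
   ⟨16, 0, 576, 14048, 7680⟩, ⟨17, 0, 544, 14912, 7680⟩, ⟨18, 0, 7680, 576, 14048⟩,
   ⟨19, 0, 7680, 544, 14912⟩, ⟨20, 0, 14048, 7680, 576⟩, ⟨21, 0, 14912, 7680, 544⟩]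

theorem connA : connCheck CertA.charts edgesA = true := by decide +kernel

/-- good gluing data in dimension three -/
theorem exists_goodA : ∃ G : GlueL 3, G.Good :=
  ⟨_, good_of_check (D := 1024) (by norm_num) CertA.all_fast CertA.loop_fast connA⟩

/-- good gluing data in every dimension at least three -/
theorem exists_good_dim (n : ℕ) (hn : 3 ≤ n) : ∃ G : GlueL n, G.Good := by
  obtain ⟨G, hG⟩ := exists_goodA
  exact GlueL.exists_good G hG n hn

end Pool.Agent.MkC
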