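import Pool.Agent.MkC.Num

set_option autoImplicit false

/-!
Number fields: `alpha` is a positive real root of `x ^ d = r 0 + r 1 x + ...` (integer
coefficients, `d` their number) in a rational bracket.  The multiplication table, the
brackets of the powers and the existence of the root are checked by integer arithmetic.
-/

namespace Pool.Agent.MkC

/-- value of the polynomial with coefficients `r` -/
noncomputable def evP : List Int → ℝ → ℝ
  | [], _ => 0
  | x :: r, t => x + t * evP r t

/-- `S ^ d * evP r (u / S)` -/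
def hev : List Int → Int → Int → Int
  | [], _, _ => 0
  | x :: r, u, S => x * S ^ (r.length + 1) + u * hev r u S

theorem hev_eq {S : Int} (hS : S ≠ 0) (u : Int) : ∀ r : List Int,
    ((hev r u S : Int) : ℝ) = (S : ℝ) ^ r.length * evP r ((u : ℝ) / S)
  | [] => by simp [hev, evP]
  | x :: r => by
    have hS' : (S : ℝ) ≠ 0 := by exact_mod_cast hS
    rw [hev, evP, List.length_cons]
    push_cast
    rw [hev_eq hS u r]
    have e : (S : ℝ) ^ (r.length + 1) * ((u : ℝ) / S) = S ^ r.length * u := by
      rw [pow_succ]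
      field_simp
    linear_combination (-(evP r ((u : ℝ) / S))) * e

theorem continuous_evP : ∀ r : List Int, Continuous (evP r)
  | [] => continuous_const
  | _ :: r => continuous_const.add (continuous_id.mul (continuous_evP r))

/-- sign change of `x ^ d - evP r x` between `u / S` and `v / S` -/
def rootCheck (r : List Int) (u v : Int) (S : Nat) : Bool :=
  decide (0 < S) && decide (u ≤ v) &&
    ((decide (u ^ r.length ≤ hev r u S) && decide (hev r v S ≤ v ^ r.length)) ||
     (decide (hev r u S ≤ u ^ r.length) && decide (v ^ r.length ≤ hev r v S)))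

theorem rootCheck_sound {r : List Int} {u v : Int} {S : Nat} (h : rootCheck r u v S = true) :
    ∃ α : ℝ, ((u : ℝ) ≤ S * α ∧ S * α ≤ (v : ℝ)) ∧ α ^ r.length = evP r α := by
  simp only [rootCheck, Bool.and_eq_true, Bool.or_eq_true, decide_eq_true_eq] at h
  obtain ⟨⟨hS, huv⟩, h⟩ := h
  have hS' : (0 : ℝ) < S := by exact_mod_cast hS
  have hSi : ((S : Nat) : Int) ≠ 0 := by exact_mod_cast hS.ne'
  have huv' : (u : ℝ) / S ≤ (v : ℝ) / S := by
    have : (u : ℝ) ≤ v := by exact_mod_cast huv
    gcongr
  have hc : ContinuousOn (fun t : ℝ => t ^ r.length - evP r t) (Set.Icc ((u : ℝ) / S) ((v : ℝ) / S)) :=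
    ((continuous_pow _).sub (continuous_evP r)).continuousOn
  have key : ∀ y : Int, ((y ^ r.length : Int) : ℝ) - ((hev r y (S : Int) : Int) : ℝ) =
      (S : ℝ) ^ r.length * (((y : ℝ) / S) ^ r.length - evP r ((y : ℝ) / S)) := by
    intro y
    have hSp : (S : ℝ) ^ r.length ≠ 0 := by positivity
    rw [hev_eq hSi y r]
    push_cast
    rw [div_pow, mul_sub, mul_div_cancel₀ _ hSp]
  have hp : (0 : ℝ) < (S : ℝ) ^ r.length := by positivity
  have hle : ∀ y : Int, y ^ r.length ≤ hev r y S →
      ((y : ℝ) / S) ^ r.length - evP r ((y : ℝ) / S) ≤ 0 := by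
    intro y hy
    have h1 : ((y ^ r.length : Int) : ℝ) ≤ ((hev r y (S : Int) : Int) : ℝ) := by exact_mod_cast hy
    have h2 := key y
    by_contra h3
    have := mul_pos hp (not_le.1 h3)
    linarith
  have hge : ∀ y : Int, hev r y S ≤ y ^ r.length →
      0 ≤ ((y : ℝ) / S) ^ r.length - evP r ((y : ℝ) / S) := by
    intro y hy
    have h1 : ((hev r y (S : Int) : Int) : ℝ) ≤ ((y ^ r.length : Int) : ℝ) := by exact_mod_cast hy
    have h2 := key y
    by_contra h3
    have := mul_neg_of_pos_of_neg hp (not_le.1 h3)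
    linarith
  have fin : ∀ α ∈ Set.Icc ((u : ℝ) / S) ((v : ℝ) / S), α ^ r.length - evP r α = 0 →
      ∃ α : ℝ, ((u : ℝ) ≤ S * α ∧ S * α ≤ (v : ℝ)) ∧ α ^ r.length = evP r α := by
    intro α hα h0
    refine ⟨α, ⟨?_, ?_⟩, by linarith⟩
    · have := (div_le_iff₀ hS').1 hα.1
      linarith
    · have := (le_div_iff₀ hS').1 hα.2
      linarith
  rcases h with ⟨h1, h2⟩ | ⟨h1, h2⟩
  · obtain ⟨α, hα, h0⟩ := intermediate_value_Icc huv' hc ⟨hle u h1, hge v h2⟩
    exact fin α hα h0
  · obtain ⟨α, hα, h0⟩ := intermediate_value_Icc' huv' hc ⟨hle v h2, hge u h1⟩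
    exact fin α hα h0

/-- multiplication by `x` -/
def shiftL (r a : List Int) : List Int :=
  addL (0 :: a.dropLast) (smulL (a.getLastD 0) r)

/-- basis of the field -/
noncomputable def nfTh (d : Nat) (α : ℝ) : Nat → ℝ := fun i => if i < d then α ^ i else 0

theorem nfTh_ge {d : Nat} {α : ℝ} {i : Nat} (h : d ≤ i) : nfTh d α i = 0 := by
  simp [nfTh, not_lt.2 h]

theorem evL_nf {d : Nat} {α : ℝ} : ∀ (a : List Int) (i : Nat), i + a.length ≤ d →
    evL (nfTh d α) i a = α ^ i * evP a α
  | [], i, _ => by simp [evL, evP]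
  | x :: a, i, h => by
    rw [List.length_cons] at h
    rw [evL, evP, evL_nf a (i + 1) (by omega)]
    have : nfTh d α i = α ^ i := by simp [nfTh, show i < d by omega]
    rw [this]
    ring

theorem evP_last (α : ℝ) : ∀ a : List Int, a ≠ [] →
    evP a α = evP a.dropLast α + (a.getLastD 0 : Int) * α ^ (a.length - 1)
  | [], h => absurd rfl h
  | [x], _ => by simp [evP, List.getLastD]
  | x :: y :: a, _ => by
    have h1 := evP_last α (y :: a) (List.cons_ne_nil _ _)
    rw [List.dropLast_cons_cons, evP, h1, evP]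
    have h2 : (x :: y :: a).getLastD 0 = (y :: a).getLastD 0 := by
      simp
    rw [h2]
    simp only [List.length_cons, Nat.add_sub_cancel]
    ring

theorem evL_shiftL {r a : List Int} {α : ℝ} (hα : α ^ r.length = evP r α)
    (ha : a.length = r.length) (hr : r ≠ []) :
    evL (nfTh r.length α) 0 (shiftL r a) = α * evL (nfTh r.length α) 0 a := by
  have hl : 0 < r.length := List.length_pos_of_ne_nil hr
  have ha0 : a ≠ [] := by
    intro h
    rw [h, List.length_nil] at ha
    omega
  rw [shiftL, evL_addL, evL_smulL, evL_nf r 0 (by omega), evL_nf a 0 (by omega),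
    evL_nf (0 :: a.dropLast) 0 (by simp; omega), evP, evP_last α a ha0, ← hα, ha]
  obtain ⟨k, hk⟩ : ∃ k, r.length = k + 1 := ⟨r.length - 1, by omega⟩
  rw [hk]
  simp only [Nat.add_sub_cancel, Int.cast_zero]
  ring

/-- the check of one row: `row j = shift (prev j)` -/
def rowCheck (r : List Int) : List (List Int) → List (List Int) → Bool
  | [], [] => true
  | p :: ps, q :: qs => decide (p.length = r.length) && decide (q = shiftL r p) && rowCheck r ps qs
  | _, _ => false

/-- consecutive rows -/
def rowsCheck (r : List Int) : List (List (List Int)) → Bool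
  | [] => true
  | [row] => decide (row.length = r.length)
  | row :: row' :: rs => decide (row.length = r.length) && rowCheck r row row' &&
      rowsCheck r (row' :: rs)

/-- unit vectors from the index `i` on -/
def unitRow (d : Nat) : Nat → Nat → List (List Int)
  | 0, _ => []
  | n + 1, i => (List.replicate i 0 ++ 1 :: List.replicate (d - 1 - i) 0) ::
      unitRow d n (i + 1)

/-- the check of the table -/
def tabCheck (r : List Int) (T : List (List (List Int))) : Bool :=
  decide (r ≠ []) && decide (T.length = r.length) && decide (T.head? = some (unitRow r.length r.length 0)) &&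
    rowsCheck r T

/-- the brackets: `w` from the index `i` on, `p` is the previous bracket, `q` the first one -/
def brStep (S : Int) (q : Int × Int) : Int × Int → List (Int × Int) → Bool
  | _, [] => true
  | p, b :: w => decide (0 ≤ b.1) && decide (b.1 * S ≤ p.1 * q.1) && decide (p.2 * q.2 ≤ b.2 * S) &&
      brStep S q b w

/-- the check of the brackets, `(u, v)` the bracket of the root -/
def brCheck (r : List Int) (u v : Int) (S : Nat) (w : List (Int × Int)) : Bool :=
  decide (0 ≤ u) && decide (w.length = r.length) &&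
    match w with
    | [] => true
    | b :: w => decide (0 ≤ b.1) && decide (b.1 ≤ (S : Int)) && decide ((S : Int) ≤ b.2) &&
        brStep S (u, v) b w

theorem rowOk_of {d : Nat} {α t : ℝ} : ∀ (row : List (List Int)) (j : Nat),
    j + row.length = d → (∀ i (h : i < row.length), evL (nfTh d α) 0 row[i] = t * nfTh d α (j + i)) →
    RowOk (nfTh d α) t j row
  | [], j, hj, _ => by
    intro k hk
    rw [nfTh_ge (by simpa using hj.symm.le.trans hk), mul_zero]
  | a :: row, j, hj, h => by
    refine ⟨h 0 (Nat.succ_pos _), rowOk_of row (j + 1) (by simp at hj; omega) ?_⟩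
    intro i hi
    have := h (i + 1) (by simpa using hi)
    simpa [add_assoc, add_comm 1 i] using this

theorem rowOk_shift {r : List Int} {α t : ℝ} (hα : α ^ r.length = evP r α) (hr : r ≠ []) :
    ∀ (row row' : List (List Int)) (j : Nat), rowCheck r row row' = true →
    RowOk (nfTh r.length α) t j row → RowOk (nfTh r.length α) (α * t) j row'
  | [], [], j, _, h => by
    intro k hk
    rw [mul_assoc, h k hk, mul_zero]
  | [], q :: qs, j, hc, _ => by simp [rowCheck] at hc
  | p :: ps, [], j, hc, _ => by simp [rowCheck] at hc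
  | p :: ps, q :: qs, j, hc, h => by
    simp only [rowCheck, Bool.and_eq_true, decide_eq_true_eq] at hc
    obtain ⟨⟨h1, h2⟩, h3⟩ := hc
    refine ⟨?_, rowOk_shift hα hr ps qs (j + 1) h3 h.2⟩
    rw [h2, evL_shiftL hα h1 hr, h.1]
    ring

theorem tabOk_of {r : List Int} {α : ℝ} (hα : α ^ r.length = evP r α) (hr : r ≠ []) :
    ∀ (T : List (List (List Int))) (i : Nat), i + T.length = r.length →
    rowsCheck r T = true →
    (∀ row, T.head? = some row → RowOk (nfTh r.length α) (nfTh r.length α i) 0 row) →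
    TabOk (nfTh r.length α) i T
  | [], i, hi, _, _ => by
    intro k hk
    exact nfTh_ge (by simpa using hi.symm.le.trans hk)
  | [row], i, hi, hc, h => by
    refine ⟨h row rfl, ?_⟩
    intro k hk
    refine nfTh_ge ?_
    simp at hi
    omega
  | row :: row' :: rs, i, hi, hc, h => by
    simp only [rowsCheck, Bool.and_eq_true, decide_eq_true_eq] at hc
    obtain ⟨⟨h1, h2⟩, h3⟩ := hc
    simp only [List.length_cons] at hi
    refine ⟨h row rfl, tabOk_of hα hr (row' :: rs) (i + 1) (by simp; omega) h3 ?_⟩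
    intro q hq
    have hq' : row' = q := by simpa using hq
    rw [← hq']
    have h4 := rowOk_shift hα hr row row' 0 h2 (h row rfl)
    have e : nfTh r.length α (i + 1) = α * nfTh r.length α i := by
      simp only [nfTh, show i < r.length by omega, show i + 1 < r.length by omega, if_true]
      ring
    rw [e]
    exact h4

theorem evP_replicate_append (α : ℝ) (b : List Int) : ∀ i : Nat,
    evP (List.replicate i 0 ++ b) α = α ^ i * evP b α
  | 0 => by simp
  | i + 1 => by
    rw [List.replicate_succ, List.cons_append, evP, evP_replicate_append α b i]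
    push_cast
    ring

theorem evP_replicate (α : ℝ) : ∀ i : Nat, evP (List.replicate i 0) α = 0
  | 0 => rfl
  | i + 1 => by
    rw [List.replicate_succ, evP, evP_replicate α i]
    simp

theorem unitRow_ok {d : Nat} {α : ℝ} : ∀ (n i : Nat), i + n = d →
    RowOk (nfTh d α) 1 i (unitRow d n i)
  | 0, i, h => by
    intro k hk
    rw [nfTh_ge (by omega), mul_zero]
  | n + 1, i, h => by
    refine ⟨?_, unitRow_ok n (i + 1) (by omega)⟩
    rw [evL_nf _ 0 (by simp; omega), evP_replicate_append, evP, evP_replicate]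
    have : nfTh d α i = α ^ i := by simp [nfTh, show i < d by omega]
    rw [this]
    simp

theorem tabCheck_sound {r : List Int} {T : List (List (List Int))} {α : ℝ}
    (hα : α ^ r.length = evP r α) (h : tabCheck r T = true) : TabOk (nfTh r.length α) 0 T := by
  simp only [tabCheck, Bool.and_eq_true, decide_eq_true_eq] at h
  obtain ⟨⟨⟨hr, hl⟩, hh⟩, hc⟩ := h
  refine tabOk_of hα hr T 0 (by omega) hc ?_
  intro row hrow
  rw [hh] at hrow
  have e : unitRow r.length r.length 0 = row := by simpa using hrow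
  rw [← e]
  have h0 : nfTh r.length α 0 = 1 := by
    simp [nfTh, List.length_pos_of_ne_nil hr]
  rw [h0]
  exact unitRow_ok r.length 0 (by omega)

theorem brStep_sound {d : Nat} {α : ℝ} {S : Nat} (hS : 0 < S) {u v : Int} (hu : 0 ≤ u)
    (h1 : (u : ℝ) ≤ S * α) (h2 : S * α ≤ (v : ℝ)) (hα : 0 ≤ α) :
    ∀ (w : List (Int × Int)) (i : Nat) (p : Int × Int), i + 1 + w.length = d →
    0 ≤ p.1 → (p.1 : ℝ) ≤ S * α ^ i → S * α ^ i ≤ (p.2 : ℝ) →
    brStep S (u, v) p w = true → BrOk (nfTh d α) S (i + 1) w
  | [], i, p, hi, _, _, _, _ => by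
    intro k hk
    exact nfTh_ge (by simpa using hi.symm.le.trans hk)
  | b :: w, i, p, hi, hp, hp1, hp2, hc => by
    simp only [brStep, Bool.and_eq_true, decide_eq_true_eq] at hc
    obtain ⟨⟨⟨c0, c1⟩, c2⟩, c3⟩ := hc
    simp only [List.length_cons] at hi
    have hS' : (0 : ℝ) < S := by exact_mod_cast hS
    have c1' : (b.1 : ℝ) * S ≤ p.1 * u := by exact_mod_cast c1
    have c2' : (p.2 : ℝ) * v ≤ b.2 * S := by exact_mod_cast c2
    have hu' : (0 : ℝ) ≤ u := by exact_mod_cast hu
    have hp' : (0 : ℝ) ≤ p.1 := by exact_mod_cast hp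
    have hpow : 0 ≤ (S : ℝ) * α ^ i := by positivity
    have e1 : (b.1 : ℝ) ≤ S * α ^ (i + 1) := by
      have : (b.1 : ℝ) * S ≤ (S * α ^ (i + 1)) * S := by
        calc (b.1 : ℝ) * S ≤ p.1 * u := c1'
          _ ≤ (S * α ^ i) * (S * α) := mul_le_mul hp1 h1 hu' hpow
          _ = (S * α ^ (i + 1)) * S := by ring
      exact le_of_mul_le_mul_right this hS'
    have e2 : S * α ^ (i + 1) ≤ (b.2 : ℝ) := by
      have : (S * α ^ (i + 1)) * S ≤ (b.2 : ℝ) * S := by
        calc (S * α ^ (i + 1)) * S = (S * α ^ i) * (S * α) := by ring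
          _ ≤ p.2 * v := mul_le_mul hp2 h2 (by positivity) (hpow.trans hp2)
          _ ≤ b.2 * S := c2'
      exact le_of_mul_le_mul_right this hS'
    have e3 : nfTh d α (i + 1) = α ^ (i + 1) := by simp [nfTh, show i + 1 < d by omega]
    refine ⟨⟨by rw [e3]; exact e1, by rw [e3]; exact e2⟩, ?_⟩
    exact brStep_sound hS hu h1 h2 hα w (i + 1) b (by omega) c0 e1 e2 c3

theorem brCheck_sound {r : List Int} {α : ℝ} {S : Nat} (hS : 0 < S) {u v : Int}
    {w : List (Int × Int)} (h1 : (u : ℝ) ≤ S * α) (h2 : S * α ≤ (v : ℝ)) (hr : r ≠ [])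
    (h : brCheck r u v S w = true) : BrOk (nfTh r.length α) S 0 w := by
  simp only [brCheck, Bool.and_eq_true, decide_eq_true_eq] at h
  obtain ⟨⟨hu, hl⟩, h⟩ := h
  have hS' : (0 : ℝ) < S := by exact_mod_cast hS
  have hα : 0 ≤ α := by
    have hu' : (0 : ℝ) ≤ u := by exact_mod_cast hu
    exact nonneg_of_mul_nonneg_right (hu'.trans h1) hS'
  have hd : 0 < r.length := List.length_pos_of_ne_nil hr
  match w, hl, h with
  | [], hl, _ =>
    simp at hl
    omega
  | b :: w, hl, h =>
    simp only [Bool.and_eq_true, decide_eq_true_eq] at h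
    obtain ⟨⟨⟨c0, c1⟩, c2⟩, c3⟩ := h
    have c1' : (b.1 : ℝ) ≤ S := by exact_mod_cast c1
    have c2' : (S : ℝ) ≤ b.2 := by exact_mod_cast c2
    have e3 : nfTh r.length α 0 = 1 := by simp [nfTh, hd]
    refine ⟨⟨by rw [e3, mul_one]; exact c1', by rw [e3, mul_one]; exact c2'⟩, ?_⟩
    exact brStep_sound hS hu h1 h2 hα w 0 b (by simp at hl; omega) c0 (by simpa using c1')
      (by simpa using c2') c3

/-- All checks of a number field: `x ^ d = r`, root in `[u / S, v / S]`, table, brackets. -/
def nfCheck (r : List Int) (u v : Int) (S : Nat) (T : List (List (List Int)))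
    (w : List (Int × Int)) : Bool :=
  rootCheck r u v S && tabCheck r T && brCheck r u v S w

theorem nfCheck_sound {r : List Int} {u v : Int} {S : Nat} {T : List (List (List Int))}
    {w : List (Int × Int)} (h : nfCheck r u v S T w = true) :
    ∃ θ : Nat → ℝ, (NuPar.mk T w S).Ok θ := by
  simp only [nfCheck, Bool.and_eq_true] at h
  obtain ⟨⟨h1, h2⟩, h3⟩ := h
  have hr : r ≠ [] := by
    simp only [tabCheck, Bool.and_eq_true, decide_eq_true_eq] at h2
    exact h2.1.1.1
  have hS : 0 < S := by
    simp only [rootCheck, Bool.and_eq_true, decide_eq_true_eq] at h1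
    exact h1.1.1
  obtain ⟨α, ⟨ha, hb⟩, hα⟩ := rootCheck_sound h1
  exact ⟨nfTh r.length α, by simp [nfTh, List.length_pos_of_ne_nil hr], tabCheck_sound hα h2,
    brCheck_sound hS ha hb hr h3, hS⟩

/-- Example: `sqrt 2`. -/
example : nfCheck [2, 0] 1414 1415 1000 [[[1, 0], [0, 1]], [[0, 1], [2, 0]]]
    [(1000, 1000), (1414, 1415)] = true := by decide +kernel

end Pool.Agent.MkC
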