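import Pool.Agent.MkC.Tree

set_option autoImplicit false

/-!
Exact numbers for kernel computations.  `Ops K` is a small computable number system,
`Ops.Sound` says that it computes real numbers.  The instance `Nu` is a finite
dimensional commutative algebra over the rationals given by a multiplication table
`T i j` (coefficients of `θ i * θ j`), with rational brackets for the real numbers
`θ i`; the rationals (one basis element), quadratic fields and number fields are special
cases.
-/

namespace Pool.Agent.MkC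

/-- Computable number system. -/
structure Ops (K : Type) where
  zero : K
  one : K
  add : K → K → K
  mul : K → K → K
  neg : K → K
  eqb : K → K → Bool
  enc : Nat → K → Int × Int

/-- The number system computes real numbers. -/
structure Ops.Sound {K : Type} (O : Ops K) (ev : K → ℝ) : Prop where
  ev_zero : ev O.zero = 0
  ev_one : ev O.one = 1
  ev_add : ∀ a b, ev (O.add a b) = ev a + ev b
  ev_mul : ∀ a b, ev (O.mul a b) = ev a * ev b
  ev_neg : ∀ a, ev (O.neg a) = -ev a
  eqb_sound : ∀ a b, O.eqb a b = true → ev a = ev b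
  enc_lo : ∀ P a, (((O.enc P a).1 : Int) : ℝ) ≤ P * ev a
  enc_hi : ∀ P a, P * ev a ≤ (((O.enc P a).2 : Int) : ℝ)

theorem Ops.Sound.pos {K : Type} {O : Ops K} {ev : K → ℝ} (h : O.Sound ev) {P : Nat}
    (hP : 0 < P) {a : K} (ha : 0 < (O.enc P a).1) : 0 < ev a := by
  have h1 : (0 : ℝ) < (((O.enc P a).1 : Int) : ℝ) := by exact_mod_cast ha
  have h2 := h1.trans_le (h.enc_lo P a)
  have h3 : (0 : ℝ) < P := by exact_mod_cast hP
  exact (pos_iff_pos_of_mul_pos h2).1 h3

/-! ### Integer vectors as lists -/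

/-- sum -/
def addL : List Int → List Int → List Int
  | [], b => b
  | a, [] => a
  | x :: a, y :: b => (x + y) :: addL a b

/-- scalar multiple -/
def smulL (c : Int) : List Int → List Int
  | [] => []
  | x :: a => (c * x) :: smulL c a

/-- linear combination of rows -/
def rowL : List Int → List (List Int) → List Int
  | [], _ => []
  | _, [] => []
  | y :: b, r :: rs => addL (smulL y r) (rowL b rs)

/-- product by a multiplication table -/
def mulL (b : List Int) : List Int → List (List (List Int)) → List Int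
  | [], _ => []
  | _, [] => []
  | x :: a, r :: rs => addL (smulL x (rowL b r)) (mulL b a rs)

/-- equality up to trailing zeros -/
def eqL : List Int → List Int → Bool
  | [], [] => true
  | [], y :: b => decide (y = 0) && eqL [] b
  | x :: a, [] => decide (x = 0) && eqL a []
  | x :: a, y :: b => decide (x = y) && eqL a b

/-- lower value by brackets -/
def loL : List Int → List (Int × Int) → Int
  | [], _ => 0
  | _, [] => 0
  | x :: a, (l, h) :: w => (if 0 ≤ x then x * l else x * h) + loL a w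

/-- upper value by brackets -/
def hiL : List Int → List (Int × Int) → Int
  | [], _ => 0
  | _, [] => 0
  | x :: a, (l, h) :: w => (if 0 ≤ x then x * h else x * l) + hiL a w

/-- the real value of a list, from the index `i` on -/
noncomputable def evL (θ : Nat → ℝ) : Nat → List Int → ℝ
  | _, [] => 0
  | i, x :: a => x * θ i + evL θ (i + 1) a

theorem evL_addL (θ : Nat → ℝ) : ∀ (a b : List Int) (i : Nat),
    evL θ i (addL a b) = evL θ i a + evL θ i b
  | [], b, i => by simp [addL, evL]
  | x :: a, [], i => by simp [addL, evL]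
  | x :: a, y :: b, i => by
    simp only [addL, evL, evL_addL θ a b (i + 1)]
    push_cast
    ring

theorem evL_smulL (θ : Nat → ℝ) (c : Int) : ∀ (a : List Int) (i : Nat),
    evL θ i (smulL c a) = c * evL θ i a
  | [], i => by simp [smulL, evL]
  | x :: a, i => by
    simp only [smulL, evL, evL_smulL θ c a (i + 1)]
    push_cast
    ring

theorem evL_eq_zero {θ : Nat → ℝ} {m : Nat} (h : ∀ i, m ≤ i → θ i = 0) : ∀ (a : List Int) (i : Nat),
    m ≤ i → evL θ i a = 0
  | [], _, _ => rfl
  | x :: a, i, hi => by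
    rw [evL, h i hi, evL_eq_zero h a (i + 1) (by omega), mul_zero, add_zero]

theorem eqL_sound (θ : Nat → ℝ) : ∀ (a b : List Int) (i : Nat), eqL a b = true →
    evL θ i a = evL θ i b
  | [], [], _, _ => rfl
  | [], y :: b, i, h => by
    simp only [eqL, Bool.and_eq_true, decide_eq_true_eq] at h
    rw [evL, evL, h.1, ← eqL_sound θ [] b (i + 1) h.2, evL]
    simp
  | x :: a, [], i, h => by
    simp only [eqL, Bool.and_eq_true, decide_eq_true_eq] at h
    rw [evL, evL, h.1, eqL_sound θ a [] (i + 1) h.2, evL]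
    simp
  | x :: a, y :: b, i, h => by
    simp only [eqL, Bool.and_eq_true, decide_eq_true_eq] at h
    rw [evL, evL, h.1, eqL_sound θ a b (i + 1) h.2]

/-- Rows `r` from the index `j` on are the products with `t`. -/
def RowOk (θ : Nat → ℝ) (t : ℝ) : Nat → List (List Int) → Prop
  | j, [] => ∀ k, j ≤ k → t * θ k = 0
  | j, r :: rs => evL θ 0 r = t * θ j ∧ RowOk θ t (j + 1) rs

/-- The table from the index `i` on is right. -/
def TabOk (θ : Nat → ℝ) : Nat → List (List (List Int)) → Prop
  | i, [] => ∀ k, i ≤ k → θ k = 0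
  | i, r :: rs => RowOk θ (θ i) 0 r ∧ TabOk θ (i + 1) rs

theorem evL_tail_zero {θ : Nat → ℝ} {t : ℝ} : ∀ (b : List Int) (j : Nat),
    (∀ k, j ≤ k → t * θ k = 0) → t * evL θ j b = 0
  | [], _, _ => by simp [evL]
  | y :: b, j, h => by
    rw [evL, mul_add, evL_tail_zero b (j + 1) fun k hk => h k (by omega)]
    linear_combination (y : ℝ) * h j le_rfl

theorem evL_rowL {θ : Nat → ℝ} {t : ℝ} : ∀ (b : List Int) (j : Nat) (r : List (List Int)),
    RowOk θ t j r → evL θ 0 (rowL b r) = t * evL θ j b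
  | [], j, r, _ => by
    cases r <;> simp [rowL, evL]
  | y :: b, j, [], h => by
    rw [evL_tail_zero (y :: b) j h]
    simp [rowL, evL]
  | y :: b, j, r :: rs, h => by
    rw [rowL, evL_addL, evL_smulL, h.1, evL_rowL b (j + 1) rs h.2, evL]
    ring

theorem evL_mulL {θ : Nat → ℝ} (b : List Int) : ∀ (a : List Int) (i : Nat)
    (T : List (List (List Int))), TabOk θ i T → evL θ 0 (mulL b a T) = evL θ i a * evL θ 0 b
  | [], i, T, _ => by
    cases T <;> simp [mulL, evL]
  | x :: a, i, [], h => by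
    rw [evL_eq_zero h (x :: a) i le_rfl]
    simp [mulL, evL]
  | x :: a, i, r :: rs, h => by
    rw [mulL, evL_addL, evL_smulL, evL_rowL b 0 r h.1, evL_mulL b a (i + 1) rs h.2, evL]
    ring

/-- Brackets from the index `i` on, with denominator `S`. -/
def BrOk (θ : Nat → ℝ) (S : Nat) : Nat → List (Int × Int) → Prop
  | i, [] => ∀ k, i ≤ k → θ k = 0
  | i, p :: w => (((p.1 : Int) : ℝ) ≤ S * θ i ∧ S * θ i ≤ ((p.2 : Int) : ℝ)) ∧ BrOk θ S (i + 1) w

theorem loL_le {θ : Nat → ℝ} {S : Nat} : ∀ (a : List Int) (i : Nat) (w : List (Int × Int)),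
    BrOk θ S i w → ((loL a w : Int) : ℝ) ≤ S * evL θ i a
  | [], i, w, _ => by simp [loL, evL]
  | x :: a, i, [], h => by
    rw [evL_eq_zero h (x :: a) i le_rfl]
    simp [loL]
  | x :: a, i, (l, u) :: w, h => by
    have h1 := loL_le a (i + 1) w h.2
    obtain ⟨h2, h3⟩ := h.1
    simp only at h2 h3
    simp only [loL, evL]
    push_cast
    by_cases hx : 0 ≤ x
    · have hx' : (0 : ℝ) ≤ x := by exact_mod_cast hx
      rw [if_pos hx]
      push_cast
      nlinarith [mul_le_mul_of_nonneg_left h2 hx']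
    · have hx' : (x : ℝ) ≤ 0 := by exact_mod_cast (not_le.1 hx).le
      rw [if_neg hx]
      push_cast
      nlinarith [mul_le_mul_of_nonpos_left h3 hx']

theorem le_hiL {θ : Nat → ℝ} {S : Nat} : ∀ (a : List Int) (i : Nat) (w : List (Int × Int)),
    BrOk θ S i w → S * evL θ i a ≤ ((hiL a w : Int) : ℝ)
  | [], i, w, _ => by simp [hiL, evL]
  | x :: a, i, [], h => by
    rw [evL_eq_zero h (x :: a) i le_rfl]
    simp [hiL]
  | x :: a, i, (l, u) :: w, h => by
    have h1 := le_hiL a (i + 1) w h.2
    obtain ⟨h2, h3⟩ := h.1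
    simp only at h2 h3
    simp only [hiL, evL]
    push_cast
    by_cases hx : 0 ≤ x
    · have hx' : (0 : ℝ) ≤ x := by exact_mod_cast hx
      rw [if_pos hx]
      push_cast
      nlinarith [mul_le_mul_of_nonneg_left h3 hx']
    · have hx' : (x : ℝ) ≤ 0 := by exact_mod_cast (not_le.1 hx).le
      rw [if_neg hx]
      push_cast
      nlinarith [mul_le_mul_of_nonpos_left h2 hx']

/-! ### The number system `Nu` -/

/-- `(c 0 θ 0 + c 1 θ 1 + ...) / (n + 1)` -/
structure Nu where
  c : List Int
  n : Nat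

/-- Parameters: multiplication table, brackets and their denominator. -/
structure NuPar where
  T : List (List (List Int))
  w : List (Int × Int)
  S : Nat

/-- value of a number -/
noncomputable def Nu.ev (θ : Nat → ℝ) (a : Nu) : ℝ := evL θ 0 a.c / ((a.n : ℝ) + 1)

/-- The parameters are right for the real numbers `θ`. -/
structure NuPar.Ok (p : NuPar) (θ : Nat → ℝ) : Prop where
  one : θ 0 = 1
  tab : TabOk θ 0 p.T
  br : BrOk θ p.S 0 p.w
  S_pos : 0 < p.S

/-- the operations -/
def NuPar.ops (p : NuPar) : Ops Nu where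
  zero := ⟨[], 0⟩
  one := ⟨[1], 0⟩
  add := fun a b => ⟨addL (smulL ((b.n : Int) + 1) a.c) (smulL ((a.n : Int) + 1) b.c),
    a.n * b.n + a.n + b.n⟩
  mul := fun a b => ⟨mulL b.c a.c p.T, a.n * b.n + a.n + b.n⟩
  neg := fun a => ⟨smulL (-1) a.c, a.n⟩
  eqb := fun a b => eqL (smulL ((b.n : Int) + 1) a.c) (smulL ((a.n : Int) + 1) b.c)
  enc := fun P a =>
    (((P : Int) * loL a.c p.w) / (((a.n : Int) + 1) * (p.S : Int)),
      -((-((P : Int) * hiL a.c p.w)) / (((a.n : Int) + 1) * (p.S : Int))))

theorem NuPar.Ok.sound {p : NuPar} {θ : Nat → ℝ} (h : p.Ok θ) : p.ops.Sound (Nu.ev θ) where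
  ev_zero := by simp [NuPar.ops, Nu.ev, evL]
  ev_one := by simp [NuPar.ops, Nu.ev, evL, h.one]
  ev_add a b := by
    have h1 : ((a.n : ℝ) + 1) ≠ 0 := by positivity
    have h2 : ((b.n : ℝ) + 1) ≠ 0 := by positivity
    simp only [NuPar.ops, Nu.ev, evL_addL, evL_smulL]
    push_cast
    have e : ((a.n : ℝ) * b.n + a.n + b.n + 1) = (a.n + 1) * (b.n + 1) := by ring
    rw [e]
    field_simp
  ev_mul a b := by
    have h1 : ((a.n : ℝ) + 1) ≠ 0 := by positivity
    have h2 : ((b.n : ℝ) + 1) ≠ 0 := by positivity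
    simp only [NuPar.ops, Nu.ev, evL_mulL b.c a.c 0 p.T h.tab]
    push_cast
    have e : ((a.n : ℝ) * b.n + a.n + b.n + 1) = (a.n + 1) * (b.n + 1) := by ring
    rw [e]
    field_simp
  ev_neg a := by
    simp only [NuPar.ops, Nu.ev, evL_smulL]
    push_cast
    ring
  eqb_sound a b hab := by
    have h1 : ((a.n : ℝ) + 1) ≠ 0 := by positivity
    have h2 : ((b.n : ℝ) + 1) ≠ 0 := by positivity
    have h3 := eqL_sound θ _ _ 0 hab
    rw [evL_smulL, evL_smulL] at h3
    push_cast at h3
    simp only [Nu.ev]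
    rw [div_eq_div_iff h1 h2]
    linarith
  enc_lo P a := by
    have hS : (0 : ℝ) < p.S := by exact_mod_cast h.S_pos
    have hn : (0 : ℝ) < (a.n : ℝ) + 1 := by positivity
    have hd : (0 : Int) < ((a.n : Int) + 1) * (p.S : Int) := by
      have := h.S_pos
      positivity
    have h1 := loL_le a.c 0 p.w h.br
    have h2 : (((P : Int) * loL a.c p.w) / (((a.n : Int) + 1) * (p.S : Int))) *
        (((a.n : Int) + 1) * (p.S : Int)) ≤ (P : Int) * loL a.c p.w :=
      Int.ediv_mul_le _ hd.ne'
    have h3 : ((((P : Int) * loL a.c p.w) / (((a.n : Int) + 1) * (p.S : Int)) : Int) : ℝ) *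
        (((a.n : ℝ) + 1) * p.S) ≤ P * ((loL a.c p.w : Int) : ℝ) := by exact_mod_cast h2
    have h4 : (P : ℝ) * ((loL a.c p.w : Int) : ℝ) ≤ P * (p.S * evL θ 0 a.c) :=
      mul_le_mul_of_nonneg_left h1 (Nat.cast_nonneg P)
    have h5 : (P : ℝ) * (p.S * evL θ 0 a.c) = (P * Nu.ev θ a) * ((a.n + 1) * p.S) := by
      unfold Nu.ev
      field_simp
    have h6 := h3.trans (h4.trans h5.le)
    exact le_of_mul_le_mul_right h6 (by positivity)
  enc_hi P a := by
    have hS : (0 : ℝ) < p.S := by exact_mod_cast h.S_pos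
    have hn : (0 : ℝ) < (a.n : ℝ) + 1 := by positivity
    have hd : (0 : Int) < ((a.n : Int) + 1) * (p.S : Int) := by
      have := h.S_pos
      positivity
    have h1 := le_hiL a.c 0 p.w h.br
    have h2 : ((-((P : Int) * hiL a.c p.w)) / (((a.n : Int) + 1) * (p.S : Int))) *
        (((a.n : Int) + 1) * (p.S : Int)) ≤ -((P : Int) * hiL a.c p.w) :=
      Int.ediv_mul_le _ hd.ne'
    have h2' : (P : Int) * hiL a.c p.w ≤
        (-((-((P : Int) * hiL a.c p.w)) / (((a.n : Int) + 1) * (p.S : Int)))) *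
        (((a.n : Int) + 1) * (p.S : Int)) := by
      linarith
    have h3 : (P : ℝ) * ((hiL a.c p.w : Int) : ℝ) ≤
        ((-((-((P : Int) * hiL a.c p.w)) / (((a.n : Int) + 1) * (p.S : Int))) : Int) : ℝ) *
        (((a.n : ℝ) + 1) * p.S) := by exact_mod_cast h2'
    have h4 : (P : ℝ) * (p.S * evL θ 0 a.c) ≤ P * ((hiL a.c p.w : Int) : ℝ) :=
      mul_le_mul_of_nonneg_left h1 (Nat.cast_nonneg P)
    have h5 : (P : ℝ) * (p.S * evL θ 0 a.c) = (P * Nu.ev θ a) * ((a.n + 1) * p.S) := by
      unfold Nu.ev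
      field_simp
    have h6 := (h5.symm.le.trans h4).trans h3
    exact le_of_mul_le_mul_right h6 (by positivity)

/-! ### The rational case -/

/-- parameters for the rationals -/
def ratPar : NuPar := ⟨[[[1]]], [(1, 1)], 1⟩

/-- the basis of the rationals -/
noncomputable def ratTh : Nat → ℝ
  | 0 => 1
  | _ => 0

theorem ratTh_ge {k : Nat} (h : 1 ≤ k) : ratTh k = 0 := by
  obtain ⟨j, rfl⟩ : ∃ j, k = j + 1 := ⟨k - 1, by omega⟩
  rfl

theorem ratPar_ok : ratPar.Ok ratTh where
  one := rfl
  tab := by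
    refine ⟨⟨?_, ?_⟩, ?_⟩
    · simp [evL, ratTh]
    · intro k hk
      rw [ratTh_ge hk, mul_zero]
    · intro k hk
      exact ratTh_ge hk
  br := by
    refine ⟨⟨?_, ?_⟩, ?_⟩
    · simp [ratTh, ratPar]
    · simp [ratTh, ratPar]
    · intro k hk
      exact ratTh_ge hk
  S_pos := one_pos

end Pool.Agent.MkC
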