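import Mathlib

set_option autoImplicit false

/-!
Integer boxes, interval images of coordinate-wise affine maps and a covering
certificate by a tree of cuts.  All numbers are integers over one denominator `D`;
a map has its own denominator `P`.
-/

namespace Pool.Agent.MkC

/-- A box `[l0,h0] x [l1,h1] x [l2,h2]` with integer corners (over a denominator `D`). -/
structure Bx where
  l0 : Int
  h0 : Int
  l1 : Int
  h1 : Int
  l2 : Int
  h2 : Int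

/-- The three coordinates numbered by natural numbers (everything above one is `2`). -/
def co3 : Nat → Fin 3
  | 0 => 0
  | 1 => 1
  | _ => 2

/-- lower corner -/
def Bx.lo (B : Bx) : Nat → Int
  | 0 => B.l0
  | 1 => B.l1
  | _ => B.l2

/-- upper corner -/
def Bx.hi (B : Bx) : Nat → Int
  | 0 => B.h0
  | 1 => B.h1
  | _ => B.h2

/-- The closed real box. -/
def Bx.real (D : Nat) (B : Bx) : Set (Fin 3 → ℝ) :=
  {x | ∀ k : Nat, ((B.lo k : Int) : ℝ) ≤ D * x (co3 k) ∧ D * x (co3 k) ≤ ((B.hi k : Int) : ℝ)}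

/-- The open real box. -/
def Bx.open (D : Nat) (B : Bx) : Set (Fin 3 → ℝ) :=
  {x | ∀ k : Nat, ((B.lo k : Int) : ℝ) < D * x (co3 k) ∧ D * x (co3 k) < ((B.hi k : Int) : ℝ)}

theorem Bx.open_subset (D : Nat) (B : Bx) : B.open D ⊆ B.real D :=
  fun _ hx k => ⟨(hx k).1.le, (hx k).2.le⟩

theorem forall_nat3 {p : Nat → Prop} (h0 : p 0) (h1 : p 1) (h2 : ∀ n, p (n + 2)) : ∀ k, p k
  | 0 => h0
  | 1 => h1
  | n + 2 => h2 n

theorem Bx.mem_real {D : Nat} {B : Bx} {x : Fin 3 → ℝ} :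
    x ∈ B.real D ↔
      (((B.l0 : Int) : ℝ) ≤ D * x 0 ∧ D * x 0 ≤ ((B.h0 : Int) : ℝ)) ∧
      (((B.l1 : Int) : ℝ) ≤ D * x 1 ∧ D * x 1 ≤ ((B.h1 : Int) : ℝ)) ∧
      (((B.l2 : Int) : ℝ) ≤ D * x 2 ∧ D * x 2 ≤ ((B.h2 : Int) : ℝ)) :=
  ⟨fun h => ⟨h 0, h 1, h 2⟩, fun h => forall_nat3 h.1 h.2.1 fun _ => h.2.2⟩

theorem Bx.mem_open {D : Nat} {B : Bx} {x : Fin 3 → ℝ} :
    x ∈ B.open D ↔
      (((B.l0 : Int) : ℝ) < D * x 0 ∧ D * x 0 < ((B.h0 : Int) : ℝ)) ∧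
      (((B.l1 : Int) : ℝ) < D * x 1 ∧ D * x 1 < ((B.h1 : Int) : ℝ)) ∧
      (((B.l2 : Int) : ℝ) < D * x 2 ∧ D * x 2 < ((B.h2 : Int) : ℝ)) :=
  ⟨fun h => ⟨h 0, h 1, h 2⟩, fun h => forall_nat3 h.1 h.2.1 fun _ => h.2.2⟩

/-! ### Inclusion, disjointness, intersection -/

/-- `B` is contained in `K`. -/
def Bx.inside (B K : Bx) : Bool :=
  decide (K.l0 ≤ B.l0) && decide (B.h0 ≤ K.h0) && decide (K.l1 ≤ B.l1) &&
    decide (B.h1 ≤ K.h1) && decide (K.l2 ≤ B.l2) && decide (B.h2 ≤ K.h2)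

/-- `B` lies in the open box of `K`. -/
def Bx.strict (B K : Bx) : Bool :=
  decide (K.l0 < B.l0) && decide (B.h0 < K.h0) && decide (K.l1 < B.l1) &&
    decide (B.h1 < K.h1) && decide (K.l2 < B.l2) && decide (B.h2 < K.h2)

/-- The open box of `K` does not meet the closed box `B`. -/
def Bx.disj (B K : Bx) : Bool :=
  decide (B.h0 ≤ K.l0) || decide (K.h0 ≤ B.l0) || decide (B.h1 ≤ K.l1) ||
    decide (K.h1 ≤ B.l1) || decide (B.h2 ≤ K.l2) || decide (K.h2 ≤ B.l2)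

/-- Intersection. -/
def Bx.inter (B K : Bx) : Bx where
  l0 := max B.l0 K.l0
  h0 := min B.h0 K.h0
  l1 := max B.l1 K.l1
  h1 := min B.h1 K.h1
  l2 := max B.l2 K.l2
  h2 := min B.h2 K.h2

/-- The open box is empty. -/
def Bx.empty (B : Bx) : Bool :=
  decide (B.h0 ≤ B.l0) || decide (B.h1 ≤ B.l1) || decide (B.h2 ≤ B.l2)

theorem Bx.inside_sound {D : Nat} {B K : Bx} (h : B.inside K = true) : B.real D ⊆ K.real D := by
  simp only [Bx.inside, Bool.and_eq_true, decide_eq_true_eq] at h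
  obtain ⟨⟨⟨⟨⟨a, b⟩, c⟩, d⟩, e⟩, f⟩ := h
  have a' : (K.l0 : ℝ) ≤ B.l0 := by exact_mod_cast a
  have b' : (B.h0 : ℝ) ≤ K.h0 := by exact_mod_cast b
  have c' : (K.l1 : ℝ) ≤ B.l1 := by exact_mod_cast c
  have d' : (B.h1 : ℝ) ≤ K.h1 := by exact_mod_cast d
  have e' : (K.l2 : ℝ) ≤ B.l2 := by exact_mod_cast e
  have f' : (B.h2 : ℝ) ≤ K.h2 := by exact_mod_cast f
  intro x hx
  rw [Bx.mem_real] at hx ⊢
  obtain ⟨⟨p, q⟩, ⟨r, s⟩, ⟨t, u⟩⟩ := hx
  exact ⟨⟨a'.trans p, q.trans b'⟩, ⟨c'.trans r, s.trans d'⟩, ⟨e'.trans t, u.trans f'⟩⟩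

theorem Bx.strict_sound {D : Nat} {B K : Bx} (h : B.strict K = true) : B.real D ⊆ K.open D := by
  simp only [Bx.strict, Bool.and_eq_true, decide_eq_true_eq] at h
  obtain ⟨⟨⟨⟨⟨a, b⟩, c⟩, d⟩, e⟩, f⟩ := h
  have a' : (K.l0 : ℝ) < B.l0 := by exact_mod_cast a
  have b' : (B.h0 : ℝ) < K.h0 := by exact_mod_cast b
  have c' : (K.l1 : ℝ) < B.l1 := by exact_mod_cast c
  have d' : (B.h1 : ℝ) < K.h1 := by exact_mod_cast d
  have e' : (K.l2 : ℝ) < B.l2 := by exact_mod_cast e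
  have f' : (B.h2 : ℝ) < K.h2 := by exact_mod_cast f
  intro x hx
  rw [Bx.mem_real] at hx
  rw [Bx.mem_open]
  obtain ⟨⟨p, q⟩, ⟨r, s⟩, ⟨t, u⟩⟩ := hx
  exact ⟨⟨a'.trans_le p, q.trans_lt b'⟩, ⟨c'.trans_le r, s.trans_lt d'⟩,
    ⟨e'.trans_le t, u.trans_lt f'⟩⟩

theorem Bx.disj_sound {D : Nat} {B K : Bx} (h : B.disj K = true) {x : Fin 3 → ℝ}
    (hB : x ∈ B.real D) (hK : x ∈ K.open D) : False := by
  simp only [Bx.disj, Bool.or_eq_true, decide_eq_true_eq] at h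
  rw [Bx.mem_real] at hB
  rw [Bx.mem_open] at hK
  obtain ⟨⟨p, q⟩, ⟨r, s⟩, ⟨t, u⟩⟩ := hB
  obtain ⟨⟨p', q'⟩, ⟨r', s'⟩, ⟨t', u'⟩⟩ := hK
  rcases h with ((((h | h) | h) | h) | h) | h
  · have : (B.h0 : ℝ) ≤ K.l0 := by exact_mod_cast h
    linarith
  · have : (K.h0 : ℝ) ≤ B.l0 := by exact_mod_cast h
    linarith
  · have : (B.h1 : ℝ) ≤ K.l1 := by exact_mod_cast h
    linarith
  · have : (K.h1 : ℝ) ≤ B.l1 := by exact_mod_cast h
    linarith
  · have : (B.h2 : ℝ) ≤ K.l2 := by exact_mod_cast h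
    linarith
  · have : (K.h2 : ℝ) ≤ B.l2 := by exact_mod_cast h
    linarith

theorem Bx.inter_real {D : Nat} {B K : Bx} {x : Fin 3 → ℝ} (hB : x ∈ B.real D)
    (hK : x ∈ K.real D) : x ∈ (B.inter K).real D := by
  rw [Bx.mem_real] at hB hK ⊢
  obtain ⟨⟨p, q⟩, ⟨r, s⟩, ⟨t, u⟩⟩ := hB
  obtain ⟨⟨p', q'⟩, ⟨r', s'⟩, ⟨t', u'⟩⟩ := hK
  simp only [Bx.inter, Int.cast_max, Int.cast_min]
  exact ⟨⟨max_le p p', le_min q q'⟩, ⟨max_le r r', le_min s s'⟩, ⟨max_le t t', le_min u u'⟩⟩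

theorem Bx.inter_open {D : Nat} {B K : Bx} {x : Fin 3 → ℝ} (hB : x ∈ B.open D)
    (hK : x ∈ K.open D) : x ∈ (B.inter K).open D := by
  rw [Bx.mem_open] at hB hK ⊢
  obtain ⟨⟨p, q⟩, ⟨r, s⟩, ⟨t, u⟩⟩ := hB
  obtain ⟨⟨p', q'⟩, ⟨r', s'⟩, ⟨t', u'⟩⟩ := hK
  simp only [Bx.inter, Int.cast_max, Int.cast_min]
  exact ⟨⟨max_lt p p', lt_min q q'⟩, ⟨max_lt r r', lt_min s s'⟩, ⟨max_lt t t', lt_min u u'⟩⟩

theorem Bx.empty_sound {D : Nat} {B : Bx} (h : B.empty = true) {x : Fin 3 → ℝ}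
    (hx : x ∈ B.open D) : False := by
  simp only [Bx.empty, Bool.or_eq_true, decide_eq_true_eq] at h
  rw [Bx.mem_open] at hx
  obtain ⟨⟨p, q⟩, ⟨r, s⟩, ⟨t, u⟩⟩ := hx
  rcases h with (h | h) | h
  · have : (B.h0 : ℝ) ≤ B.l0 := by exact_mod_cast h
    linarith
  · have : (B.h1 : ℝ) ≤ B.l1 := by exact_mod_cast h
    linarith
  · have : (B.h2 : ℝ) ≤ B.l2 := by exact_mod_cast h
    linarith

/-! ### The covering tree -/

/-- A tree of cuts: a node cuts coordinate `k` at `c`, a leaf names the element of a list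
which covers the remaining box. -/
inductive KTree where
  | leaf (m : Nat) : KTree
  | node (k : Nat) (c : Int) (l r : KTree) : KTree

/-- lower part of a box -/
def Bx.cutHi (B : Bx) (c : Int) : Nat → Bx
  | 0 => { B with h0 := c }
  | 1 => { B with h1 := c }
  | _ => { B with h2 := c }

/-- upper part of a box -/
def Bx.cutLo (B : Bx) (c : Int) : Nat → Bx
  | 0 => { B with l0 := c }
  | 1 => { B with l1 := c }
  | _ => { B with l2 := c }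

theorem Bx.cut {D : Nat} {B : Bx} (k : Nat) (c : Int) {x : Fin 3 → ℝ} (hx : x ∈ B.real D) :
    x ∈ (B.cutHi c k).real D ∨ x ∈ (B.cutLo c k).real D := by
  rw [Bx.mem_real] at hx
  obtain ⟨⟨p, q⟩, ⟨r, s⟩, ⟨t, u⟩⟩ := hx
  rw [Bx.mem_real, Bx.mem_real]
  match k with
  | 0 =>
    rcases le_total ((D : ℝ) * x 0) (c : ℝ) with h | h
    · exact Or.inl ⟨⟨p, h⟩, ⟨r, s⟩, ⟨t, u⟩⟩
    · exact Or.inr ⟨⟨h, q⟩, ⟨r, s⟩, ⟨t, u⟩⟩
  | 1 =>
    rcases le_total ((D : ℝ) * x 1) (c : ℝ) with h | h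
    · exact Or.inl ⟨⟨p, q⟩, ⟨r, h⟩, ⟨t, u⟩⟩
    · exact Or.inr ⟨⟨p, q⟩, ⟨h, s⟩, ⟨t, u⟩⟩
  | n + 2 =>
    rcases le_total ((D : ℝ) * x 2) (c : ℝ) with h | h
    · exact Or.inl ⟨⟨p, q⟩, ⟨r, s⟩, ⟨t, h⟩⟩
    · exact Or.inr ⟨⟨p, q⟩, ⟨r, s⟩, ⟨h, u⟩⟩

/-- The check of a covering tree. -/
def KTree.check (test : Nat → Bx → Bool) : KTree → Bx → Bool
  | .leaf m, B => test m B
  | .node k c l r, B => check test l (B.cutHi c k) && check test r (B.cutLo c k)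

theorem KTree.check_sound {D : Nat} {test : Nat → Bx → Bool} {Q : Nat → (Fin 3 → ℝ) → Prop}
    (ht : ∀ m B, test m B = true → ∀ x ∈ B.real D, Q m x) :
    ∀ (t : KTree) (B : Bx), t.check test B = true → ∀ x ∈ B.real D, ∃ m, Q m x := by
  intro t
  induction t with
  | leaf m => exact fun B h x hx => ⟨m, ht m B h x hx⟩
  | node k c l r hl hr =>
    intro B h x hx
    simp only [KTree.check, Bool.and_eq_true] at h
    rcases Bx.cut k c hx with h' | h'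
    · exact hl _ h.1 x h'
    · exact hr _ h.2 x h'

/-! ### Interval images of affine maps -/

/-- Coordinate of an affine map, `y = a x_k + b` with `am <= P a <= ap`, `bm <= P D b <= bp`. -/
structure Co where
  k : Nat
  am : Int
  ap : Int
  bm : Int
  bp : Int

/-- Three coordinates over a common denominator `P`. -/
structure Tr where
  P : Nat
  c0 : Co
  c1 : Co
  c2 : Co

/-- The real function `g` is enclosed by `c`. -/
def Co.Encl (D P : Nat) (c : Co) (g : (Fin 3 → ℝ) → ℝ) : Prop :=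
  ∃ a b : ℝ, (∀ x, g x = a * x (co3 c.k) + b) ∧ ((c.am : ℝ) ≤ P * a ∧ P * a ≤ c.ap) ∧
    ((c.bm : ℝ) ≤ P * (D * b) ∧ P * (D * b) ≤ c.bp)

/-- The real map `f` is enclosed by `t`. -/
def Tr.Encl (D : Nat) (t : Tr) (f : (Fin 3 → ℝ) → (Fin 3 → ℝ)) : Prop :=
  0 < t.P ∧ t.c0.Encl D t.P (fun x => f x 0) ∧ t.c1.Encl D t.P (fun x => f x 1) ∧
    t.c2.Encl D t.P (fun x => f x 2)

/-- least product -/
def lo4 (a b l h : Int) : Int := min (min (a * l) (a * h)) (min (b * l) (b * h))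

/-- largest product -/
def hi4 (a b l h : Int) : Int := max (max (a * l) (a * h)) (max (b * l) (b * h))

theorem mul_mem4 {a b l h : Int} {u v : ℝ} (hu : (a : ℝ) ≤ u) (hu' : u ≤ b) (hv : (l : ℝ) ≤ v)
    (hv' : v ≤ h) : ((lo4 a b l h : Int) : ℝ) ≤ u * v ∧ u * v ≤ ((hi4 a b l h : Int) : ℝ) := by
  have key : ∀ w : ℝ, min ((a : ℝ) * w) (b * w) ≤ u * w ∧ u * w ≤ max ((a : ℝ) * w) (b * w) := by
    intro w
    rcases le_total 0 w with hw | hw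
    · exact ⟨(min_le_left _ _).trans (mul_le_mul_of_nonneg_right hu hw),
        (mul_le_mul_of_nonneg_right hu' hw).trans (le_max_right _ _)⟩
    · exact ⟨(min_le_right _ _).trans (mul_le_mul_of_nonpos_right hu' hw),
        (mul_le_mul_of_nonpos_right hu hw).trans (le_max_left _ _)⟩
  have key2 : ∀ w : ℝ, min (w * (l : ℝ)) (w * h) ≤ w * v ∧ w * v ≤ max (w * (l : ℝ)) (w * h) := by
    intro w
    rcases le_total 0 w with hw | hw
    · exact ⟨(min_le_left _ _).trans (mul_le_mul_of_nonneg_left hv hw),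
        (mul_le_mul_of_nonneg_left hv' hw).trans (le_max_right _ _)⟩
    · exact ⟨(min_le_right _ _).trans (mul_le_mul_of_nonpos_left hv' hw),
        (mul_le_mul_of_nonpos_left hv hw).trans (le_max_left _ _)⟩
  unfold lo4 hi4
  push_cast
  constructor
  · refine le_trans ?_ (key v).1
    exact min_le_min (key2 a).1 (key2 b).1
  · refine le_trans (key v).2 ?_
    exact max_le_max (key2 a).2 (key2 b).2

/-- lower end of the image interval -/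
def Co.lo (P : Nat) (c : Co) (B : Bx) : Int :=
  (lo4 c.am c.ap (B.lo c.k) (B.hi c.k) + c.bm) / (P : Int)

/-- upper end of the image interval -/
def Co.hi (P : Nat) (c : Co) (B : Bx) : Int :=
  -(-(hi4 c.am c.ap (B.lo c.k) (B.hi c.k) + c.bp) / (P : Int))

theorem Co.sound {D P : Nat} (hP : 0 < P) {c : Co} {g : (Fin 3 → ℝ) → ℝ} (hg : c.Encl D P g)
    {B : Bx} {x : Fin 3 → ℝ} (hx : x ∈ B.real D) :
    ((c.lo P B : Int) : ℝ) ≤ D * g x ∧ D * g x ≤ ((c.hi P B : Int) : ℝ) := by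
  obtain ⟨a, b, hab, ⟨h1, h2⟩, ⟨h3, h4⟩⟩ := hg
  have hP' : (0 : ℝ) < P := by exact_mod_cast hP
  obtain ⟨h5, h6⟩ := mul_mem4 h1 h2 (hx c.k).1 (hx c.k).2
  have e : (P : ℝ) * (D * g x) = P * a * (D * x (co3 c.k)) + P * (D * b) := by rw [hab]; ring
  constructor
  · have h7 : (((lo4 c.am c.ap (B.lo c.k) (B.hi c.k) + c.bm : Int)) : ℝ) ≤ P * (D * g x) := by
      push_cast
      rw [e]
      linarith
    have h8 : (c.lo P B) * (P : Int) ≤ lo4 c.am c.ap (B.lo c.k) (B.hi c.k) + c.bm :=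
      Int.ediv_mul_le _ (by exact_mod_cast hP.ne')
    have h9 : ((c.lo P B : Int) : ℝ) * P ≤
        (((lo4 c.am c.ap (B.lo c.k) (B.hi c.k) + c.bm : Int)) : ℝ) := by exact_mod_cast h8
    have h10 : (P : ℝ) * ((c.lo P B : Int) : ℝ) ≤ P * (D * g x) := by linarith [h9.trans h7]
    exact le_of_mul_le_mul_left h10 hP'
  · have h7 : (P : ℝ) * (D * g x) ≤ (((hi4 c.am c.ap (B.lo c.k) (B.hi c.k) + c.bp : Int)) : ℝ) := by
      push_cast
      rw [e]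
      linarith
    have h8 : (-(hi4 c.am c.ap (B.lo c.k) (B.hi c.k) + c.bp) / (P : Int)) * (P : Int) ≤
        -(hi4 c.am c.ap (B.lo c.k) (B.hi c.k) + c.bp) :=
      Int.ediv_mul_le _ (by exact_mod_cast hP.ne')
    have h9 : hi4 c.am c.ap (B.lo c.k) (B.hi c.k) + c.bp ≤ (c.hi P B) * (P : Int) := by
      unfold Co.hi
      linarith
    have h10 : (((hi4 c.am c.ap (B.lo c.k) (B.hi c.k) + c.bp : Int)) : ℝ) ≤
        ((c.hi P B : Int) : ℝ) * P := by exact_mod_cast h9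
    have h11 : (P : ℝ) * (D * g x) ≤ P * ((c.hi P B : Int) : ℝ) := by linarith [h7.trans h10]
    exact le_of_mul_le_mul_left h11 hP'

/-- The interval image of a box. -/
def Tr.img (t : Tr) (B : Bx) : Bx where
  l0 := t.c0.lo t.P B
  h0 := t.c0.hi t.P B
  l1 := t.c1.lo t.P B
  h1 := t.c1.hi t.P B
  l2 := t.c2.lo t.P B
  h2 := t.c2.hi t.P B

theorem Tr.img_sound {D : Nat} {t : Tr} {f : (Fin 3 → ℝ) → (Fin 3 → ℝ)} (hf : t.Encl D f)
    {B : Bx} {x : Fin 3 → ℝ} (hx : x ∈ B.real D) : f x ∈ (t.img B).real D := by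
  rw [Bx.mem_real]
  exact ⟨Co.sound hf.1 hf.2.1 hx, Co.sound hf.1 hf.2.2.1 hx, Co.sound hf.1 hf.2.2.2 hx⟩

end Pool.Agent.MkC
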